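import Pool.Agent.NUG.FarZ

/-!
# The functional of the inhomogeneous ring

`rg z c d v X` = a closed line with the parameter `v` around the cylinder with the rows `X` (rapidities `z`); the
line `c` crosses the rows and is closed up through `d`.  `IsR c d z X V`: the functional `V` is supported on the
planar states, has the value 1 on the empty state and is fixed by `rg z c d (π / 8) X`.
`RegR c d z X`: it exists and is unique; `VR c d z X` = the functional.  At `z = 0` it is `NUG.VD c d X`.
-/

set_option autoImplicit false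

namespace Pool.Agent.NUT2

open _root_.Pool.Agent.EXL _root_.Pool.Agent.EXL.Pat _root_.Pool.Agent.EXL.HS HexObs Filter Topology
open _root_.Pool.Agent.NUF _root_.Pool.Agent.NUG

section basic

variable {ι : Type*} [DecidableEq ι] {c d : ι} {X Y : List ι} {z : ι → ℂ} {v : ℂ}

/-- **The ring.** -/
noncomputable def rg (z : ι → ℂ) (c d : ι) (v : ℂ) (X : List ι) : Module.End ℂ (Pat ι → ℂ) :=
  uops.U c d * uops.M z c v X * uops.glue c d

theorem rg_fun (z : ι → ℂ) (v : ℂ) (hcd : c ≠ d) (hc : c ∉ X) :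
    (fun F => rg z c d v X F) = NUG.ringF (fun j => rwt (v - z j)) c d X := by
  funext F
  unfold rg NUG.ringF
  rw [Module.End.mul_apply, Module.End.mul_apply, uops_U_apply hcd, uops_M_apply _ _ hc,
    uops_glue_apply hcd]

theorem pres_rg (z : ι → ℂ) (v : ℂ) (hn : X.Nodup) (hcd : c ≠ d) (hc : c ∉ X) (hd : d ∉ X) :
    Pres (AX X) (AX X) (fun F => rg z c d v X F) := by
  rw [rg_fun z v hcd hc]
  exact pres_ringF _ hn hcd hc hd

theorem rg_ind (z : ι → ℂ) (v : ℂ) (hcd : c ≠ d) (hc : c ∉ X) :
    rg z c d v X (HS.ind Pat.empty) = HS.ind Pat.empty := by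
  have h := congrFun (rg_fun z v hcd hc) (HS.ind Pat.empty)
  rw [h, NUG.ringF_ind _ hcd hc]

/-- The zero-leg functional of the ring. -/
structure IsR (c d : ι) (z : ι → ℂ) (X : List ι) (V : Fnl ι) : Prop where
  sup : Sup X V
  one : V (HS.ind Pat.empty) = 1
  fix : V ∘ₗ rg z c d (Real.pi / 8) X = V

/-- `1 - ring` is injective on the functions on the non-empty planar states. -/
def RegR (c d : ι) (z : ι → ℂ) (X : List ι) : Prop :=
  InjN (AX X) (fun F => rg z c d (Real.pi / 8) X F)

/-- **The functional of the ring.** -/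
noncomputable def VR (c d : ι) (z : ι → ℂ) (X : List ι) : Fnl ι :=
  open scoped Classical in if h : ∃ V, IsR c d z X V then h.choose else 0

theorem IsR.unique [Finite ι] {V W : Fnl ι} (hV : IsR c d z X V) (hW : IsR c d z X W)
    (hR : RegR c d z X) : V = W := by
  rw [← sub_eq_zero]
  apply fix_unique (A := AX X) (T := rg z c d (Real.pi / 8) X) hR (hV.sup.sub hW.sup)
  · rw [LinearMap.sub_comp, hV.fix, hW.fix]
  · rw [LinearMap.sub_apply, hV.one, hW.one, sub_self]

theorem exists_isR [Finite ι] (hn : X.Nodup) (hcd : c ≠ d) (hc : c ∉ X) (hd : d ∉ X)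
    (hR : RegR c d z X) : ∃ V, IsR c d z X V := by
  obtain ⟨V, h1, h2, h3⟩ := fix_exists' (ax_empty X) (pres_rg z _ hn hcd hc hd)
    (fun p _ => by rw [rg_ind z _ hcd hc]) hR
  exact ⟨V, h1, h2, h3⟩

theorem isR_VR [Finite ι] (hn : X.Nodup) (hcd : c ≠ d) (hc : c ∉ X) (hd : d ∉ X)
    (hR : RegR c d z X) : IsR c d z X (VR c d z X) := by
  classical
  have h := exists_isR hn hcd hc hd hR
  unfold VR
  rw [dif_pos h]
  exact h.choose_spec

theorem IsR.eq_VR [Finite ι] {V : Fnl ι} (hn : X.Nodup) (hcd : c ≠ d) (hc : c ∉ X) (hd : d ∉ X)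
    (hR : RegR c d z X) (hV : IsR c d z X V) : V = VR c d z X :=
  hV.unique (isR_VR hn hcd hc hd hR) hR

/-- The ring depends on the rapidities of the rows only. -/
theorem rg_congr {z' : ι → ℂ} (h : ∀ j ∈ X, z j = z' j) : rg z c d v X = rg z' c d v X := by
  unfold rg
  congr 2
  induction X with
  | nil => rfl
  | cons j X ih =>
    rw [Glob.Ops.M_cons, Glob.Ops.M_cons, ih fun k hk => h k (by simp [hk]), h j (by simp)]

theorem IsR.congr {z' : ι → ℂ} {V : Fnl ι} (h : ∀ j ∈ X, z j = z' j) (hV : IsR c d z X V) :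
    IsR c d z' X V := ⟨hV.sup, hV.one, by rw [← rg_congr h]; exact hV.fix⟩

theorem RegR.congr {z' : ι → ℂ} (h : ∀ j ∈ X, z j = z' j) (hR : RegR c d z X) : RegR c d z' X := by
  unfold RegR
  rw [← rg_congr h]
  exact hR

theorem VR_congr {z' : ι → ℂ} (h : ∀ j ∈ X, z j = z' j) : VR c d z X = VR c d z' X := by
  classical
  have e : (fun V => IsR c d z X V) = fun V => IsR c d z' X V := by
    funext V
    exact propext ⟨fun hV => hV.congr h, fun hV => hV.congr fun j hj => (h j hj).symm⟩
  have key : ∀ P Q : Fnl ι → Prop, P = Q → (if h : ∃ V, P V then h.choose else 0) =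
      (if h : ∃ V, Q V then h.choose else 0) := by
    rintro P Q rfl
    rfl
  exact key _ _ e

end basic

/-! ### The homogeneous ring -/

section hom

variable {ι : Type*} [DecidableEq ι] {c d : ι} {X : List ι} {z : ι → ℂ}

theorem rg_zero (hz : ∀ j ∈ X, z j = 0) (hcd : c ≠ d) (hc : c ∉ X) :
    (fun F => rg z c d (Real.pi / 8) X F) = ringC c d X := by
  rw [rg_fun z _ hcd hc]
  have h : M (fun j => rwt (Real.pi / 8 - z j)) c X = M (fun _ => hexW (xc : ℂ)) c X := by
    apply M_congr'
    intro j hj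
    rw [hz j hj, sub_zero, rwt_hex]
  funext F
  unfold ringC NUG.ringF
  rw [h]

theorem isR_zero {V : Fnl ι} (hz : ∀ j ∈ X, z j = 0) (hcd : c ≠ d) (hc : c ∉ X) :
    IsR c d z X V ↔ IsD c d X V := by
  have e : rg z c d (Real.pi / 8) X = ringT c d X := by
    refine LinearMap.ext fun F => ?_
    rw [ringT_apply]
    exact congrFun (rg_zero hz hcd hc) F
  constructor
  · rintro ⟨h1, h2, h3⟩
    exact ⟨h1, h2, by rw [← e]; exact h3⟩
  · rintro ⟨h1, h2, h3⟩
    exact ⟨h1, h2, by rw [e]; exact h3⟩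

variable [Finite ι]

/-- **The point 0 is regular.** -/
theorem regR_zero (hn : X.Nodup) (hz : ∀ j ∈ X, z j = 0) (hcd : c ≠ d) (hc : c ∉ X) (hd : d ∉ X) :
    RegR c d z X := by
  unfold RegR
  rw [rg_zero hz hcd hc]
  exact inj_ringC hn hcd hc hd

/-- **At 0 the functional is the functional of the homogeneous ring.** -/
theorem VR_zero (hn : X.Nodup) (hz : ∀ j ∈ X, z j = 0) (hcd : c ≠ d) (hc : c ∉ X) (hd : d ∉ X) :
    VR c d z X = VD c d X := by
  have h1 := isR_VR hn hcd hc hd (regR_zero hn hz hcd hc hd)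
  have h2 := (isR_zero (V := VD c d X) hz hcd hc).2 (isD_VD hn hcd hc hd)
  exact h1.unique h2 (regR_zero hn hz hcd hc hd)

omit [Finite ι] in
/-- The ring is continuous in the rapidities. -/
theorem cont_rg {Z : Type*} [TopologicalSpace Z] {ζ : Z → ι → ℂ} {v : Z → ℂ} {y0 : Z} (hcd : c ≠ d)
    (hc : c ∉ X) (hz : ∀ j ∈ X, ContinuousAt (fun y => ζ y j) y0) (hv : ContinuousAt v y0)
    (hok : ∀ j ∈ X, okR (v y0 - ζ y0 j)) (F : Pat ι → ℂ) (p : Pat ι) :
    ContinuousAt (fun y => rg (ζ y) c d (v y) X F p) y0 := by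
  have e : (fun y => rg (ζ y) c d (v y) X F p) =
      fun y => NUG.ringF (fun j => rwt (v y - ζ y j)) c d X F p := by
    funext y
    exact congrFun (congrFun (rg_fun (ζ y) (v y) hcd hc) F) p
  rw [e]
  have hM : ∀ (L : List ι), (∀ j ∈ L, j ∈ X) → ∀ (G : Pat ι → ℂ) (p : Pat ι),
      ContinuousAt (fun y => M (fun j => rwt (v y - ζ y j)) c L G p) y0 := by
    intro L
    induction L with
    | nil =>
      intro _ G p
      exact continuousAt_const
    | cons j L ih =>
      intro hL G p
      have hj := hL j (by simp)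
      exact HS.cont_R (wtCont_rwt (hv.sub (hz j hj)) (hok j hj)) _ _
        (fun q => ih (fun k hk => hL k (by simp [hk])) G q) p
  unfold NUG.ringF EXL.U
  by_cases hp : p c = c
  · by_cases hp' : p d = d
    · simp only [if_pos hp, if_pos hp']
      exact (hM X (fun _ h => h) _ p).add (hM X (fun _ h => h) _ _)
    · simp only [if_pos hp, if_neg hp']
      exact continuousAt_const
  · simp only [if_neg hp]
    exact continuousAt_const

/-- **Regularity is an open condition, and the functional is continuous.** -/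
theorem regR_near (hn : X.Nodup) (hcd : c ≠ d) (hc : c ∉ X) (hd : d ∉ X) {Z : Type*}
    [TopologicalSpace Z] {ζ : Z → ι → ℂ} {y0 : Z} (hz : ∀ j ∈ X, ContinuousAt (fun y => ζ y j) y0)
    (hok : ∀ j ∈ X, okR (Real.pi / 8 - ζ y0 j)) (hR : RegR c d (ζ y0) X) :
    (∀ᶠ y in 𝓝 y0, RegR c d (ζ y) X) ∧ ∀ F, ContinuousAt (fun y => VR c d (ζ y) X F) y0 := by
  obtain ⟨V, h1, h2, h3⟩ := fix_near (ax_empty X) (T := fun y => rg (ζ y) c d (Real.pi / 8) X) (z0 := y0)
    (fun y => pres_rg (ζ y) _ hn hcd hc hd) (fun y p _ => by rw [rg_ind (ζ y) _ hcd hc])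
    (fun F p => cont_rg hcd hc hz continuousAt_const hok F p) hR
  have h4 : ∀ᶠ y in 𝓝 y0, RegR c d (ζ y) X := h3.mono fun y hy => hy.2
  refine ⟨h4, fun F => ?_⟩
  have h5 : (fun y => V y F) =ᶠ[𝓝 y0] fun y => VR c d (ζ y) X F := by
    filter_upwards [h3] with y hy
    have hV : IsR c d (ζ y) X (V y) := ⟨(h1 y).1, (h1 y).2, hy.1⟩
    rw [hV.eq_VR hn hcd hc hd hy.2]
  exact (h2 F).congr h5

omit [DecidableEq ι] [Finite ι] in
theorem okR8 (hz : ∀ j ∈ X, z j = 0) : ∀ j ∈ X, okR (Real.pi / 8 - z j) := by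
  intro j hj
  rw [hz j hj, sub_zero]
  exact okR_hex

/-- **Existence and uniqueness near 0**, for all lists at the same time. -/
theorem regR_nhds (hcd : c ≠ d) : ∀ᶠ z in 𝓝 (fun _ : ι => (0 : ℂ)), ∀ X : List ι, X.Nodup → c ∉ X →
    d ∉ X → RegR c d z X := by
  classical
  have : Fintype ι := Fintype.ofFinite ι
  have hfin : {X : List ι | X.Nodup}.Finite := by
    have : {X : List ι | X.Nodup} ⊆ {X : List ι | X.length ≤ Fintype.card ι} := by
      intro X hX
      exact hX.length_le_card
    exact (List.finite_length_le ι (Fintype.card ι)).subset this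
  have h : ∀ᶠ z in 𝓝 (fun _ : ι => (0 : ℂ)), ∀ X ∈ {X : List ι | X.Nodup}, c ∉ X → d ∉ X →
      RegR c d z X := by
    rw [Filter.eventually_all_finite hfin]
    intro X hX
    by_cases hc : c ∈ X
    · exact Eventually.of_forall fun z h => absurd hc h
    by_cases hd : d ∈ X
    · exact Eventually.of_forall fun z _ h => absurd hd h
    exact ((regR_near hX hcd hc hd (ζ := fun z => z) (fun j _ => (continuous_apply j).continuousAt)
        (okR8 fun _ _ => rfl) (regR_zero hX (fun _ _ => rfl) hcd hc hd)).1).mono fun z hz _ _ => hz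
  exact h.mono fun z hz X hX => hz X hX

end hom

/-! ### Operators that commute with the ring -/

section comm

variable {ι : Type*} [DecidableEq ι] {c d : ι} {X Y : List ι} {z : ι → ℂ} {V : Fnl ι}

/-- **An operator that intertwines the rings of `X` and `Y`** maps the functional to the functional. -/
theorem IsR.comp (hV : IsR c d z X V) {z' : ι → ℂ}
    {x : Module.End ℂ (Pat ι → ℂ)} (hP : Pres (AX X) (AX Y) (fun F => x F))
    (hx : rg z c d (Real.pi / 8) X * x = x * rg z' c d (Real.pi / 8) Y)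
    (h1 : ∀ p, AX X p → x (HS.ind Pat.empty) p = HS.ind Pat.empty p) : IsR c d z' Y (V ∘ₗ x) where
  sup := hV.sup.comp hP
  one := by
    rw [LinearMap.comp_apply, hV.sup.congr h1, hV.one]
  fix := by
    rw [LinearMap.comp_assoc, ← Module.End.mul_eq_comp, ← hx, Module.End.mul_eq_comp,
      ← LinearMap.comp_assoc, hV.fix]

/-- The exchange of two neighbouring rows commutes with the ring. -/
theorem rg_exchange {L1 L2 : List ι} {j k : ι} {v : ℂ} (hn : (L1 ++ j :: k :: L2).Nodup)
    (hc : c ∉ L1 ++ j :: k :: L2) (hd : d ∉ L1 ++ j :: k :: L2) (h1 : okR (v - z j))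
    (h2 : okR (v - z k)) (h3 : okR (z j - z k)) :
    rg z c d v (L1 ++ j :: k :: L2) * uops.R j k (z j - z k) =
      uops.R j k (z j - z k) * rg z c d v (L1 ++ k :: j :: L2) := by
  have L := ulaws (ι := ι)
  have hcj : c ≠ j := fun e => hc (by simp [e])
  have hck : c ≠ k := fun e => hc (by simp [e])
  have hdj : d ≠ j := fun e => hd (by simp [e])
  have hdk : d ≠ k := fun e => hd (by simp [e])
  have hjk : j ≠ k := by
    have := (List.nodup_append.1 hn).2.1
    rw [List.nodup_cons] at this
    exact fun e => this.1 (by rw [e]; simp)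
  have hj1 : j ∉ L1 := fun h => (List.nodup_append.1 hn).2.2 j h j (by simp) rfl
  have hk1 : k ∉ L1 := fun h => (List.nodup_append.1 hn).2.2 k h k (by simp) rfl
  have hj2 : j ∉ L2 := by
    have := (List.nodup_append.1 hn).2.1
    rw [List.nodup_cons] at this
    exact fun h => this.1 (List.mem_cons_of_mem _ h)
  have hk2 : k ∉ L2 := by
    have := (List.nodup_append.1 hn).2.1
    rw [List.nodup_cons, List.nodup_cons] at this
    exact this.2.1
  set x := uops.R j k (z j - z k) with hx
  set M1 := uops.M z c v L1 with hM1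
  set M2 := uops.M z c v L2 with hM2
  set Rj := uops.R c j (v - z j) with hRj
  set Rk := uops.R c k (v - z k) with hRk
  have e1 : uops.U c d * x = x * uops.U c d :=
    (L.cRU (i := j) (j := k) (k := c) (m := d) hcj.symm hdj.symm hck.symm hdk.symm).eq.symm
  have e1' : uops.glue c d * x = x * uops.glue c d :=
    (L.cRglue (i := j) (j := k) (k := c) (m := d) hcj.symm hdj.symm hck.symm hdk.symm).eq.symm
  have e2 : M2 * x = x * M2 := (L.cMR hcj hck hj2 hk2).eq
  have e3 : M1 * x = x * M1 := (L.cMR hcj hck hj1 hk1).eq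
  have e4 : Rj * Rk * x = x * Rk * Rj := by
    have h := L.L2 (i := c) (j := j) (k := k) (u := v - z j) (w := z j - z k) hcj hck hjk
      h1 h3 (by rw [sub_add_sub_cancel]; exact h2)
    rw [sub_add_sub_cancel] at h
    exact h
  have e5 : uops.M z c v (L1 ++ j :: k :: L2) = M1 * (Rj * (Rk * M2)) := by
    rw [Glob.Ops.M_append, Glob.Ops.M_cons, Glob.Ops.M_cons]
  have e6 : uops.M z c v (L1 ++ k :: j :: L2) = M1 * (Rk * (Rj * M2)) := by
    rw [Glob.Ops.M_append, Glob.Ops.M_cons, Glob.Ops.M_cons]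
  unfold rg
  rw [e5, e6]
  calc uops.U c d * (M1 * (Rj * (Rk * M2))) * uops.glue c d * x
      = uops.U c d * (M1 * (Rj * (Rk * M2))) * (uops.glue c d * x) := by simp only [mul_assoc]
    _ = uops.U c d * (M1 * (Rj * (Rk * (M2 * x)))) * uops.glue c d := by
        rw [e1']; simp only [mul_assoc]
    _ = uops.U c d * (M1 * ((Rj * Rk * x) * M2)) * uops.glue c d := by
        rw [e2]; simp only [mul_assoc]
    _ = uops.U c d * ((M1 * x) * (Rk * (Rj * M2))) * uops.glue c d := by
        rw [e4]; simp only [mul_assoc]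
    _ = (uops.U c d * x) * (M1 * (Rk * (Rj * M2))) * uops.glue c d := by
        rw [e3]; simp only [mul_assoc]
    _ = _ := by rw [e1]; simp only [mul_assoc]

/-- **The exchange of two neighbouring rows.** -/
theorem VR_exchange [Finite ι] {L1 L2 : List ι} {j k : ι} (hn : (L1 ++ j :: k :: L2).Nodup)
    (hcd : c ≠ d) (hc : c ∉ L1 ++ j :: k :: L2) (hd : d ∉ L1 ++ j :: k :: L2)
    (h1 : okR (Real.pi / 8 - z j)) (h2 : okR (Real.pi / 8 - z k)) (h3 : okR (z j - z k))
    (hR : RegR c d z (L1 ++ j :: k :: L2)) (hR' : RegR c d z (L1 ++ k :: j :: L2)) :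
    VR c d z (L1 ++ j :: k :: L2) ∘ₗ uops.R j k (z j - z k) = VR c d z (L1 ++ k :: j :: L2) := by
  have hp : (L1 ++ j :: k :: L2).Perm (L1 ++ k :: j :: L2) :=
    List.Perm.append_left _ (List.Perm.swap _ _ _)
  have hjk : j ≠ k := by
    have := (List.nodup_append.1 hn).2.1
    rw [List.nodup_cons] at this
    exact fun e => this.1 (by rw [e]; simp)
  have hRf : (fun F => uops.R j k (z j - z k) F) = R (rwt (z j - z k)) j k := by
    funext F
    exact uops_R_apply hjk F
  refine (IsR.comp (isR_VR hn hcd hc hd hR) ?_ (rg_exchange hn hc hd h1 h2 h3) ?_).eq_VR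
    (hp.nodup_iff.1 hn) hcd (fun h => hc (hp.mem_iff.2 h)) (fun h => hd (hp.mem_iff.2 h)) hR'
  · rw [hRf]
    exact pres_ax_R _ hn
  · intro p _
    have := congrFun hRf (HS.ind Pat.empty)
    rw [this, R_fix_ind _ hjk]

/-- **The lowest row may be moved round the cylinder.** -/
theorem rg_rot {L : List ι} {k : ι} {v : ℂ} (hn : (k :: L).Nodup) (hcd : c ≠ d)
    (hc : c ∉ k :: L) (hd : d ∉ k :: L) (h1 : okR (3 * Real.pi / 8 - (v - z k)))
    (h1' : okR ((v - z k) - 3 * Real.pi / 8)) (h2 : okR (v - z k)) (h2' : okR (-(v - z k))) :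
    rg z c d v (k :: L) = rg z c d v (L ++ [k]) := by
  have W := ulaws (ι := ι)
  have hh : (uops (ι := ι)).h + (uops (ι := ι)).h = 3 * Real.pi / 8 := by rw [uops_h]; ring
  have hck : c ≠ k := fun e => hc (by simp [e])
  have hdk : d ≠ k := fun e => hd (by simp [e])
  have hkL : k ∉ L := (List.nodup_cons.1 hn).1
  have hcL : c ∉ L := fun h => hc (by simp [h])
  have hdL : d ∉ L := fun h => hd (by simp [h])
  set w := v - z k with hw
  -- the row on the line `d`
  have a1 : uops.U c d * uops.R c k w = uops.U c d * uops.R d k (3 * Real.pi / 8 - w) := by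
    have e := W.CU2 (i := d) (j := c) (r := k) (u := w - 3 * Real.pi / 8) hcd.symm hdk hck h1'
      (by rw [hh, add_sub_cancel]; exact h2)
    rw [hh, add_sub_cancel] at e
    have e0 : uops.U d c = uops.U c d := by
      refine LinearMap.ext fun F => ?_
      rw [uops_U_apply hcd.symm, uops_U_apply hcd]
      funext q
      simp only [EXL.U]
      by_cases e1 : q c = c <;> by_cases e2 : q d = d <;> simp [e1, e2, cup_comm]
    rw [e0] at e
    have e1 := W.L1 (i := d) (j := k) (u := w - 3 * Real.pi / 8) hdk h1' (by rw [neg_sub]; exact h1)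
    rw [neg_sub] at e1
    calc uops.U c d * uops.R c k w
        = uops.U c d * uops.R c k w * (uops.R d k (w - 3 * Real.pi / 8) *
            uops.R d k (3 * Real.pi / 8 - w)) := by rw [e1, mul_one]
      _ = (uops.U c d * uops.R c k w * uops.R d k (w - 3 * Real.pi / 8)) *
            uops.R d k (3 * Real.pi / 8 - w) := by simp only [mul_assoc]
      _ = _ := by rw [e]
  have a2 : uops.R d k (3 * Real.pi / 8 - w) * uops.glue c d = uops.R c k w * uops.glue c d := by
    have e := W.CU (i := d) (j := c) (r := k) (u := -w) hcd.symm hdk hck h2'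
      (by rw [hh, ← sub_eq_add_neg]; exact h1)
    rw [hh, ← sub_eq_add_neg, W.gs] at e
    have e1 := W.L1 (i := c) (j := k) (u := w) hck h2 h2'
    calc uops.R d k (3 * Real.pi / 8 - w) * uops.glue c d
        = (uops.R c k w * uops.R c k (-w)) * (uops.R d k (3 * Real.pi / 8 - w) * uops.glue c d) := by
          rw [e1, one_mul]
      _ = uops.R c k w * (uops.R c k (-w) * uops.R d k (3 * Real.pi / 8 - w) * uops.glue c d) := by
          simp only [mul_assoc]
      _ = _ := by rw [e]
  have a3 : Commute (uops.R d k (3 * Real.pi / 8 - w)) (uops.M z c v L) := by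
    have : ∀ L : List ι, k ∉ L → d ∉ L → Commute (uops.R d k (3 * Real.pi / 8 - w)) (uops.M z c v L) := by
      intro L
      induction L with
      | nil => intro _ _; exact Commute.one_right _
      | cons x L ih =>
        intro h1 h2
        rw [Glob.Ops.M_cons]
        refine Commute.mul_right ?_ (ih (fun h => h1 (by simp [h])) (fun h => h2 (by simp [h])))
        exact W.cRR hcd.symm (fun e => h2 (by simp [e])) hck.symm (fun e => h1 (by simp [e]))
    exact this L hkL hdL
  unfold rg
  rw [Glob.Ops.M_cons, Glob.Ops.M_append, Glob.Ops.M_cons, Glob.Ops.M_nil, mul_one, ← hw]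
  calc uops.U c d * (uops.R c k w * uops.M z c v L) * uops.glue c d
      = (uops.U c d * uops.R c k w) * uops.M z c v L * uops.glue c d := by simp only [mul_assoc]
    _ = uops.U c d * (uops.R d k (3 * Real.pi / 8 - w) * uops.M z c v L) * uops.glue c d := by
        rw [a1]; simp only [mul_assoc]
    _ = uops.U c d * uops.M z c v L * (uops.R d k (3 * Real.pi / 8 - w) * uops.glue c d) := by
        rw [a3.eq]; simp only [mul_assoc]
    _ = _ := by rw [a2]; simp only [mul_assoc]

end comm

end Pool.Agent.NUT2
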