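import Pool.Agent.NUT2.Tp2

/-!
# The two-point functions of the lattice

`WL ε z I J A B q g m k`: the pairing of the two discs.  `I`, `J` = the full lines (pairs of sites: first disc,
second disc), `A`, `B` = the lines which end at `f` (first disc, second disc), `q`, `g` = the lines which end at
`f'`; the only arc which ends goes from `m` to `k`.  `WC` = the same on canonical sites.
-/

set_option autoImplicit false

namespace Pool.Agent.NUT2

open Pool.Agent.NUF Pool.Agent Pool.Agent.NUU
open Pool.Agent.EXL.Fm (lam)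
open Complex (I exp sin cos)

section WL

variable {ι : Type*} [DecidableEq ι]

/-- The lines of one disc. -/
def ls (A : List ι) (J : List ι) (q : ι) (I : List ι) : List ι := A ++ (J ++ q :: I)

/-- **The pairing of the two discs with one ended line.** -/
noncomputable def WL (ε : ℂ) (z : ι → ℂ) (I J : List (ι × ι)) (A B : List ι) (q g m k : ι) : ℂ :=
  Wp (nu2 1) (Pi.single k 1) (UD (fun i => -ε * z i) (A ++ (J.map Prod.fst ++ q :: I.map Prod.fst)))
    (UD (fun i => ε * z i) (B ++ (J.map Prod.snd ++ g :: I.map Prod.snd))) m k (I ++ J)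

theorem nu2_neg1 : ∀ g, nu2 1 (-g) = nu2 1 g := nu2_neg 1

theorem nu2_z1 : nu2 1 0 = 0 := nu2_zero 1

/-- All the sites of a configuration. -/
def sites (I J : List (ι × ι)) (A B : List ι) (q g : ι) : List ι :=
  (I ++ J).map Prod.fst ++ (I ++ J).map Prod.snd ++ (q :: g :: (A ++ B))

/-- The configuration is admissible. -/
structure Ok (I J : List (ι × ι)) (A B : List ι) (q g m k : ι) : Prop where
  nd : (sites I J A B q g).Nodup
  m_mem : m ∈ A ++ B
  k_mem : k = q ∨ k = g

variable {ε : ℂ} {z : ι → ℂ} {L K : List (ι × ι)} {A B : List ι} {q g m k : ι}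

/-- the sites of the first disc -/
def S1 (K L : List (ι × ι)) (A : List ι) (q : ι) : Set ι :=
  {x | x ∈ A ++ (L.map Prod.fst ++ q :: K.map Prod.fst)}

/-- the sites of the second disc -/
def S2 (K L : List (ι × ι)) (B : List ι) (g : ι) : Set ι :=
  {x | x ∈ B ++ (L.map Prod.snd ++ g :: K.map Prod.snd)}

omit [DecidableEq ι] in
theorem Ok.disj (h : Ok K L A B q g m k) : Disjoint (S1 K L A q) (S2 K L B g) := by
  have hn := h.nd
  unfold sites at hn
  rw [Set.disjoint_left]
  intro x hx hy
  simp only [S1, S2, Set.mem_ofPred_eq, List.mem_append, List.mem_cons] at hx hy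
  simp only [List.nodup_append, List.nodup_cons, List.map_append, List.mem_append, List.mem_cons] at hn
  grind

omit [DecidableEq ι] in
theorem Ok.gd (h : Ok K L A B q g m k) : Gd ((m, k) :: (K ++ L)) := by
  have hn := h.nd
  have h1 := h.m_mem
  have h2 := h.k_mem
  unfold sites at hn
  unfold Gd
  simp only [List.nodup_append, List.nodup_cons, List.map_append, List.mem_append, List.mem_cons,
    List.map_cons, List.cons_append] at hn h1 ⊢
  grind

omit [DecidableEq ι] in
theorem Ok.nd1 (h : Ok K L A B q g m k) : (A ++ (L.map Prod.fst ++ q :: K.map Prod.fst)).Nodup := by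
  have hn := h.nd
  unfold sites at hn
  simp only [List.nodup_append, List.nodup_cons, List.map_append, List.mem_append, List.mem_cons] at hn ⊢
  grind

omit [DecidableEq ι] in
theorem Ok.nd2 (h : Ok K L A B q g m k) : (B ++ (L.map Prod.snd ++ g :: K.map Prod.snd)).Nodup := by
  have hn := h.nd
  unfold sites at hn
  simp only [List.nodup_append, List.nodup_cons, List.map_append, List.mem_append, List.mem_cons] at hn ⊢
  grind

end WL

section map

variable {α β : Type*} [DecidableEq α] [DecidableEq β] {e : β → α} {ε : ℂ} {z : β → ℂ} {z' : α → ℂ}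
  {K L : List (β × β)} {A B : List β} {q g m k : β}

theorem eps_exp (hε : ε = 1 ∨ ε = -1) {x y : ℂ} (h : exp (I * x) = exp (I * y)) :
    exp (I * (ε * x)) = exp (I * (ε * y)) := by
  rcases hε with rfl | rfl
  · rw [one_mul, one_mul, h]
  · rw [neg_one_mul, neg_one_mul, mul_neg, mul_neg, Complex.exp_neg, Complex.exp_neg, h]

/-- **Renaming of the sites.** -/
theorem WL_map (he : Function.Injective e) (hε : ε = 1 ∨ ε = -1) (hO : Ok K L A B q g m k)
    (hz : ∀ x ∈ sites K L A B q g, exp (I * z' (e x)) = exp (I * z x)) :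
    WL ε z' (K.map (Prod.map e e)) (L.map (Prod.map e e)) (A.map e) (B.map e) (e q) (e g) (e m) (e k) =
      WL ε z K L A B q g m k := by
  have hε' : -ε = 1 ∨ -ε = -1 := by
    rcases hε with rfl | rfl
    · exact Or.inr rfl
    · exact Or.inl (neg_neg 1)
  have l1 : A.map e ++ ((L.map (Prod.map e e)).map Prod.fst ++ e q :: (K.map (Prod.map e e)).map Prod.fst) =
      (A ++ (L.map Prod.fst ++ q :: K.map Prod.fst)).map e := by
    simp [Function.comp_def]
  have l2 : B.map e ++ ((L.map (Prod.map e e)).map Prod.snd ++ e g :: (K.map (Prod.map e e)).map Prod.snd) =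
      (B ++ (L.map Prod.snd ++ g :: K.map Prod.snd)).map e := by
    simp [Function.comp_def]
  have u1 : UD (fun i => -ε * z' i) ((A ++ (L.map Prod.fst ++ q :: K.map Prod.fst)).map e) =
      push he (UD (fun i => -ε * z i) (A ++ (L.map Prod.fst ++ q :: K.map Prod.fst))) := by
    rw [UD_map he (z := fun i => -ε * z' (e i)) (fun x _ => rfl)]
    congr 1
    refine UD_cexp fun x hx => eps_exp hε' (hz x ?_)
    simp only [sites, List.mem_append, List.mem_cons, List.map_append] at hx ⊢
    tauto
  have u2 : UD (fun i => ε * z' i) ((B ++ (L.map Prod.snd ++ g :: K.map Prod.snd)).map e) =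
      push he (UD (fun i => ε * z i) (B ++ (L.map Prod.snd ++ g :: K.map Prod.snd))) := by
    rw [UD_map he (z := fun i => ε * z' (e i)) (fun x _ => rfl)]
    congr 1
    refine UD_cexp fun x hx => eps_exp hε (hz x ?_)
    simp only [sites, List.mem_append, List.mem_cons, List.map_append] at hx ⊢
    tauto
  unfold WL
  rw [l1, l2, u1, u2, ← List.map_append]
  refine Wp_map he (fun x => ?_) hO.gd (UD_supS _ _) (UD_supS _ _) hO.disj
  rw [Pi.single_apply, Pi.single_apply]
  by_cases h : x = k
  · rw [if_pos h, if_pos (by rw [h])]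
  · rw [if_neg h, if_neg fun hh => h (he hh)]

end map

/-! ### Canonical sites -/

section can

/-- the canonical sites: the full lines, and `0 = q`, `1 = g`, `2`, `3` = the lines which end at `f`,
`4`, `5` spare sites -/
abbrev Sc (n m : ℕ) := (Fin n × Bool) ⊕ ((Fin m × Bool) ⊕ Fin 6)

/-- the rapidity of the line `a` -/
noncomputable def lg (a : ℂ) : ℂ := -I * Complex.log a

theorem exp_lg {a : ℂ} (ha : a ≠ 0) : exp (I * lg a) = a := by
  unfold lg
  rw [show I * (-I * Complex.log a) = -(I * I) * Complex.log a by ring, Complex.I_mul_I, neg_neg,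
    one_mul, Complex.exp_log ha]

/-- the rapidities of the canonical sites -/
noncomputable def zc (K L : List ℂ) (v : Fin 6 → ℂ) : Sc K.length L.length → ℂ :=
  Sum.elim (fun x => lg (K.get x.1)) (Sum.elim (fun x => lg (L.get x.1)) fun k => lg (v k))

/-- the full lines of the group `I` -/
def Ic (n m : ℕ) : List (Sc n m × Sc n m) :=
  (List.finRange n).map fun k => (Sum.inl (k, false), Sum.inl (k, true))

/-- the full lines of the group `J` -/
def Jc (n m : ℕ) : List (Sc n m × Sc n m) :=
  (List.finRange m).map fun k => (Sum.inr (Sum.inl (k, false)), Sum.inr (Sum.inl (k, true)))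

/-- the other sites -/
def sc {n m : ℕ} (k : Fin 6) : Sc n m := Sum.inr (Sum.inr k)

/-- The pairing on the canonical sites. -/
noncomputable def WC (ε : ℂ) (K L : List ℂ) (v : Fin 6 → ℂ) (A B : List (Fin 6)) (m k : Fin 6) : ℂ :=
  WL ε (zc K L v) (Ic _ _) (Jc _ _) (A.map sc) (B.map sc) (sc 0) (sc 1) (sc m) (sc k)

/-- **The two-point functions of the lattice**: `k = 0`: the arc ends at `q`, `k = 1`: it ends at `g`. -/
noncomputable def fam (ε : ℂ) (k : Fin 6) (q g : ℂ) : NUTP.Fam where
  R K L a := WC ε K L ![q, g, a, 1, 1, 1] [2] [] 2 k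
  L K L a := WC ε K L ![q, g, a, 1, 1, 1] [] [2] 2 k
  OE K L a b := WC ε K L ![q, g, a, b, 1, 1] [2, 3] [] 2 k
  EO K L a b := WC ε K L ![q, g, a, b, 1, 1] [2, 3] [] 3 k
  OE' K L a b := WC ε K L ![q, g, a, b, 1, 1] [] [2, 3] 2 k
  EO' K L a b := WC ε K L ![q, g, a, b, 1, 1] [] [2, 3] 3 k
  RE K L a b := WC ε K L ![q, g, a, b, 1, 1] [2] [3] 2 k
  ER K L a b := WC ε K L ![q, g, a, b, 1, 1] [2] [3] 3 k

variable {ι : Type*} [DecidableEq ι]

/-- The sites of a configuration as the image of the canonical ones. -/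
def ec (K L : List (ι × ι)) (s : Fin 6 → ι) {N M : ℕ} (hN : N = K.length) (hM : M = L.length) :
    Sc N M → ι :=
  Sum.elim (fun x => cond x.2 (K.get (x.1.cast hN)).2 (K.get (x.1.cast hN)).1)
    (Sum.elim (fun x => cond x.2 (L.get (x.1.cast hM)).2 (L.get (x.1.cast hM)).1) s)

omit [DecidableEq ι] in
theorem map_get_cast (K : List (ι × ι)) {N : ℕ} (hN : N = K.length) :
    (List.finRange N).map (fun k => K.get (k.cast hN)) = K := by
  subst hN
  rw [← List.ofFn_eq_map]
  exact List.ofFn_get K

omit [DecidableEq ι] in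
theorem get_inj {K : List (ι × ι)} (f : ι × ι → ι) (h : (K.map f).Nodup) {i j : Fin K.length}
    (e : f (K.get i) = f (K.get j)) : i = j := by
  have h1 := (List.nodup_iff_injective_get.1 h)
  have h2 : ∀ k : Fin K.length, (K.map f).get (Fin.cast (List.length_map f).symm k) =
      f (K.get k) := by
    intro k
    simp
  exact Fin.cast_injective _ (h1 ((h2 i).trans (e.trans (h2 j).symm)))

omit [DecidableEq ι] in
theorem ec_inj {K L : List (ι × ι)} {s : Fin 6 → ι} (hs : Function.Injective s)
    (hG : Gd (K ++ L)) (hd : ∀ k, ∀ t ∈ K ++ L, s k ≠ t.1 ∧ s k ≠ t.2) {N M : ℕ}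
    (hN : N = K.length) (hM : M = L.length) : Function.Injective (ec K L s hN hM) := by
  subst hN hM
  have h1 : (K.map Prod.fst).Nodup := by
    have := hG.fst
    rw [List.map_append] at this
    exact this.of_append_left
  have h2 : (K.map Prod.snd).Nodup := by
    have := hG.snd
    rw [List.map_append] at this
    exact this.of_append_left
  have h3 : (L.map Prod.fst).Nodup := by
    have := hG.fst
    rw [List.map_append] at this
    exact this.of_append_right
  have h4 : (L.map Prod.snd).Nodup := by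
    have := hG.snd
    rw [List.map_append] at this
    exact this.of_append_right
  have hn := hG
  unfold Gd at hn
  simp only [List.nodup_append, List.map_append, List.mem_append, List.mem_map] at hn
  have g1 : ∀ i : Fin K.length, K.get i ∈ K := fun i => List.get_mem K i
  have g2 : ∀ i : Fin L.length, L.get i ∈ L := fun i => List.get_mem L i
  rintro (⟨i, b⟩ | ⟨i, b⟩ | i) (⟨j, c⟩ | ⟨j, c⟩ | j) h
  · cases b <;> cases c
    · rw [show i = j from get_inj Prod.fst h1 h]
    · exfalso
      have e : (K.get i).1 = (K.get j).2 := h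
      exact hn.2.2 _ (Or.inl ⟨_, g1 i, rfl⟩) _ (Or.inl ⟨_, g1 j, rfl⟩) e
    · exfalso
      have e : (K.get i).2 = (K.get j).1 := h
      exact hn.2.2 _ (Or.inl ⟨_, g1 j, rfl⟩) _ (Or.inl ⟨_, g1 i, rfl⟩) e.symm
    · rw [show i = j from get_inj Prod.snd h2 h]
  · exfalso
    cases b <;> cases c
    · exact hn.1.2.2 _ ⟨_, g1 i, rfl⟩ _ ⟨_, g2 j, rfl⟩ h
    · exact hn.2.2 _ (Or.inl ⟨_, g1 i, rfl⟩) _ (Or.inr ⟨_, g2 j, rfl⟩) h
    · exact hn.2.2 _ (Or.inr ⟨_, g2 j, rfl⟩) _ (Or.inl ⟨_, g1 i, rfl⟩) (Eq.symm h)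
    · exact hn.2.1.2.2 _ ⟨_, g1 i, rfl⟩ _ ⟨_, g2 j, rfl⟩ h
  · exfalso
    have h5 := hd j (K.get i) (List.mem_append_left _ (g1 i))
    cases b
    · exact h5.1 (Eq.symm h)
    · exact h5.2 (Eq.symm h)
  · exfalso
    cases b <;> cases c
    · exact hn.1.2.2 _ ⟨_, g1 j, rfl⟩ _ ⟨_, g2 i, rfl⟩ (Eq.symm h)
    · exact hn.2.2 _ (Or.inr ⟨_, g2 i, rfl⟩) _ (Or.inl ⟨_, g1 j, rfl⟩) h
    · exact hn.2.2 _ (Or.inl ⟨_, g1 j, rfl⟩) _ (Or.inr ⟨_, g2 i, rfl⟩) (Eq.symm h)
    · exact hn.2.1.2.2 _ ⟨_, g1 j, rfl⟩ _ ⟨_, g2 i, rfl⟩ (Eq.symm h)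
  · cases b <;> cases c
    · rw [show i = j from get_inj Prod.fst h3 h]
    · exfalso
      have e : (L.get i).1 = (L.get j).2 := h
      exact hn.2.2 _ (Or.inr ⟨_, g2 i, rfl⟩) _ (Or.inr ⟨_, g2 j, rfl⟩) e
    · exfalso
      have e : (L.get i).2 = (L.get j).1 := h
      exact hn.2.2 _ (Or.inr ⟨_, g2 j, rfl⟩) _ (Or.inr ⟨_, g2 i, rfl⟩) e.symm
    · rw [show i = j from get_inj Prod.snd h4 h]
  · exfalso
    have h5 := hd j (L.get i) (List.mem_append_right _ (g2 i))
    cases b
    · exact h5.1 (Eq.symm h)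
    · exact h5.2 (Eq.symm h)
  · exfalso
    have h5 := hd i (K.get j) (List.mem_append_left _ (g1 j))
    cases c
    · exact h5.1 h
    · exact h5.2 h
  · exfalso
    have h5 := hd i (L.get j) (List.mem_append_right _ (g2 j))
    cases c
    · exact h5.1 h
    · exact h5.2 h
  · rw [show i = j from hs h]

omit [DecidableEq ι] in
theorem Ok.of_map {κ : Type*} {e : κ → ι} {K L : List (κ × κ)} {A B : List κ} {q g m k : κ}
    (h : (sites (K.map (Prod.map e e)) (L.map (Prod.map e e)) (A.map e) (B.map e) (e q) (e g)).Nodup)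
    (hm : m ∈ A ++ B) (hk : k = q ∨ k = g) : Ok K L A B q g m k := by
  refine ⟨List.Nodup.of_map e ?_, hm, hk⟩
  have e1 : (sites K L A B q g).map e =
      sites (K.map (Prod.map e e)) (L.map (Prod.map e e)) (A.map e) (B.map e) (e q) (e g) := by
    unfold sites
    simp [Function.comp_def]
  rw [e1]
  exact h

/-- **The pairing depends on the rapidities only.** -/
theorem WL_eq_WC {ε : ℂ} (hε : ε = 1 ∨ ε = -1) {z : ι → ℂ} {K L : List (ι × ι)} {s : Fin 6 → ι}
    (hs : Function.Injective s) (hG : Gd (K ++ L)) (hd : ∀ k, ∀ t ∈ K ++ L, s k ≠ t.1 ∧ s k ≠ t.2)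
    {A B : List (Fin 6)} (hA : (0 :: 1 :: (A ++ B)).Nodup) {m k : Fin 6} (hm : m ∈ A ++ B)
    (hk : k = 0 ∨ k = 1) (hz : ∀ t ∈ K ++ L, exp (I * z t.2) = exp (I * z t.1)) {v : Fin 6 → ℂ}
    (hv : ∀ j ∈ 0 :: 1 :: (A ++ B), exp (I * z (s j)) = v j) {K' L' : List ℂ}
    (hK : K.map (fun t => exp (I * z t.1)) = K') (hL : L.map (fun t => exp (I * z t.1)) = L') :
    WL ε z K L (A.map s) (B.map s) (s 0) (s 1) (s m) (s k) = WC ε K' L' v A B m k := by
  have hN : K'.length = K.length := by rw [← hK, List.length_map]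
  have hM : L'.length = L.length := by rw [← hL, List.length_map]
  set e := ec K L s hN hM with he
  have hinj : Function.Injective e := ec_inj hs hG hd hN hM
  have k1 : (Ic K'.length L'.length).map (Prod.map e e) = K := by
    unfold Ic
    rw [List.map_map]
    exact map_get_cast K hN
  have k2 : (Jc K'.length L'.length).map (Prod.map e e) = L := by
    unfold Jc
    rw [List.map_map]
    exact map_get_cast L hM
  have k3 : ∀ C : List (Fin 6), (C.map sc).map e = C.map s := by
    intro C
    rw [List.map_map]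
    rfl
  have hn : (sites K L (A.map s) (B.map s) (s 0) (s 1)).Nodup := by
    unfold sites
    have h1 : s 0 :: s 1 :: (A.map s ++ B.map s) = (0 :: 1 :: (A ++ B)).map s := by simp
    rw [h1, List.nodup_append]
    refine ⟨hG, hA.map hs, ?_⟩
    intro x hx y hy hxy
    subst hxy
    obtain ⟨j, -, rfl⟩ := List.mem_map.1 hy
    rcases List.mem_append.1 hx with hx | hx
    · obtain ⟨t, ht, h2⟩ := List.mem_map.1 hx
      exact (hd j t ht).1 h2.symm
    · obtain ⟨t, ht, h2⟩ := List.mem_map.1 hx
      exact (hd j t ht).2 h2.symm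
  have hO : Ok (Ic K'.length L'.length) (Jc K'.length L'.length) (A.map sc) (B.map sc) (sc 0) (sc 1)
      (sc m) (sc k) := by
    refine Ok.of_map (e := e) ?_ ?_ ?_
    · rw [k1, k2, k3, k3]
      exact hn
    · rw [← List.map_append]
      exact List.mem_map_of_mem hm
    · rcases hk with rfl | rfl
      · exact Or.inl rfl
      · exact Or.inr rfl
  have key := WL_map (z := zc K' L' v) (z' := z) hinj hε hO ?_
  · rw [k1, k2, k3, k3] at key
    exact key
  · have e1 : ∀ (i : Fin K'.length) (b : Bool), exp (I * z (e (Sum.inl (i, b)))) =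
        exp (I * zc K' L' v (Sum.inl (i, b))) := by
      intro i b
      have h1 : K'.get i = exp (I * z (K.get (i.cast hN)).1) := by
        subst hK
        simp
      have h2 : exp (I * zc K' L' v (Sum.inl (i, b))) = exp (I * z (K.get (i.cast hN)).1) := by
        show exp (I * lg (K'.get i)) = _
        rw [exp_lg (by rw [h1]; exact Complex.exp_ne_zero _), h1]
      rw [h2]
      cases b
      · rfl
      · exact hz _ (List.mem_append_left _ (List.get_mem K _))
    have e2 : ∀ (i : Fin L'.length) (b : Bool), exp (I * z (e (Sum.inr (Sum.inl (i, b))))) =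
        exp (I * zc K' L' v (Sum.inr (Sum.inl (i, b)))) := by
      intro i b
      have h1 : L'.get i = exp (I * z (L.get (i.cast hM)).1) := by
        subst hL
        simp
      have h2 : exp (I * zc K' L' v (Sum.inr (Sum.inl (i, b)))) =
          exp (I * z (L.get (i.cast hM)).1) := by
        show exp (I * lg (L'.get i)) = _
        rw [exp_lg (by rw [h1]; exact Complex.exp_ne_zero _), h1]
      rw [h2]
      cases b
      · rfl
      · exact hz _ (List.mem_append_right _ (List.get_mem L _))
    have e3 : ∀ j ∈ 0 :: 1 :: (A ++ B), exp (I * z (s j)) =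
        exp (I * zc K' L' v (Sum.inr (Sum.inr j))) := by
      intro j hj
      have h1 := hv j hj
      show _ = exp (I * lg (v j))
      rw [exp_lg (by rw [← h1]; exact Complex.exp_ne_zero _), h1]
    intro x hx
    rcases x with ⟨i, b⟩ | ⟨i, b⟩ | j
    · exact e1 i b
    · exact e2 i b
    · refine e3 j ?_
      have h1 : ∀ n m : ℕ, ∀ t ∈ Ic n m ++ Jc n m, t.1 ≠ sc j ∧ t.2 ≠ sc j := by
        intro n m t ht
        rcases List.mem_append.1 ht with ht | ht
        · obtain ⟨i, -, rfl⟩ := List.mem_map.1 ht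
          exact ⟨by simp [sc], by simp [sc]⟩
        · obtain ⟨i, -, rfl⟩ := List.mem_map.1 ht
          exact ⟨by simp [sc], by simp [sc]⟩
      unfold sites at hx
      rcases List.mem_append.1 hx with hx | hx
      · rcases List.mem_append.1 hx with hx | hx
        · obtain ⟨t, ht, h2⟩ := List.mem_map.1 hx
          exact absurd h2 (h1 _ _ t ht).1
        · obtain ⟨t, ht, h2⟩ := List.mem_map.1 hx
          exact absurd h2 (h1 _ _ t ht).2
      · have h2 : sc (n := K'.length) (m := L'.length) 0 :: sc 1 :: (A.map sc ++ B.map sc) =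
            (0 :: 1 :: (A ++ B)).map sc := by simp
        rw [h2] at hx
        obtain ⟨j', hj', h3⟩ := List.mem_map.1 hx
        have h4 : j' = j := Sum.inr_injective (Sum.inr_injective h3)
        rw [← h4]
        exact hj'

end can

end Pool.Agent.NUT2
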