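import Pool.Agent.NUT2.Ring1
import Pool.Agent.NUF.PNear

/-!
# Rotation and reflection of the functional of the ring

`VR_rot : VR c d z (k :: L) = VR c d z (L ++ [k])`, `rg_comm` (rings with the parameters `π / 8` and `π / 4`
commute), `VR_refl : VR c d z X = VR c d (-z) X.reverse`.
-/

set_option autoImplicit false

namespace Pool.Agent.NUT2

open _root_.Pool.Agent.EXL _root_.Pool.Agent.EXL.Pat _root_.Pool.Agent.EXL.HS HexObs Filter Topology
open _root_.Pool.Agent.NUF _root_.Pool.Agent.NUG
open Pool.Agent.EXL.Fm (lam)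

/-! ### Denominators near a point -/

theorem ev_sin (x : ℂ) {b : ℂ} (hb : b ≠ 0) : ∀ᶠ t in 𝓝[≠] (0 : ℂ), Complex.sin (x + b * t) ≠ 0 := by
  by_cases h : Complex.sin x = 0
  · have hc : Complex.cos x ≠ 0 := by
      intro h'
      have := Complex.sin_sq_add_cos_sq x
      rw [h, h'] at this
      norm_num at this
    have hd : HasDerivAt (fun t : ℂ => Complex.sin (x + b * t)) (Complex.cos (x + b * 0) * (b * 1)) 0 :=
      (((hasDerivAt_id (0 : ℂ)).const_mul b).const_add x).csin
    refine hd.eventually_ne ?_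
    rw [mul_zero, add_zero, mul_one]
    exact mul_ne_zero hc hb
  · have hc : ContinuousAt (fun t : ℂ => Complex.sin (x + b * t)) 0 := by fun_prop
    have h1 : (fun t : ℂ => Complex.sin (x + b * t)) 0 ≠ 0 := by
      show Complex.sin (x + b * 0) ≠ 0
      rwa [mul_zero, add_zero]
    exact eventually_nhdsWithin_of_eventually_nhds (hc.eventually_ne h1)

theorem ev_okR (x : ℂ) {b : ℂ} (hb : b ≠ 0) : ∀ᶠ t in 𝓝[≠] (0 : ℂ), okR (x + b * t) := by
  filter_upwards [ev_sin (2 * lam + x) hb, ev_sin (3 * lam + x) hb] with t h1 h2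
  rw [EXL.Fm.okR_iff]
  unfold EXL.Fm.Dn
  rw [← add_assoc, ← add_assoc]
  exact mul_ne_zero h1 h2

section rot

variable {ι : Type*} [DecidableEq ι] {c d k : ι} {L X : List ι} {z : ι → ℂ} {v : ℂ}

/-- **The lowest row may be moved round the cylinder.** -/
theorem rg_rot' (hn : (k :: L).Nodup) (hcd : c ≠ d) (hc : c ∉ k :: L) (hd : d ∉ k :: L)
    (hz : ∀ j ∈ k :: L, okR (v - z j)) : rg z c d v (k :: L) = rg z c d v (L ++ [k]) := by
  refine LinearMap.ext fun F => ?_
  funext p
  have hkL : k ∉ L := (List.nodup_cons.1 hn).1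
  set ζ : ℂ → ι → ℂ := fun t => Function.update z k (z k + t) with hζ
  have hζ0 : ζ 0 = z := by
    rw [hζ]
    simp
  have hcont : ∀ j, ContinuousAt (fun t => ζ t j) 0 := by
    intro j
    by_cases hj : j = k
    · subst hj
      simp only [hζ, Function.update_self]
      fun_prop
    · simp only [hζ, Function.update_of_ne hj]
      fun_prop
  have hmem : ∀ j, j ∈ L ++ [k] ↔ j ∈ k :: L := by
    intro j
    simp only [List.mem_append, List.mem_cons]
    tauto
  have h1 := cont_rg (X := k :: L) (ζ := ζ) (v := fun _ => v) (y0 := (0 : ℂ)) hcd hc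
    (fun j _ => hcont j) continuousAt_const (fun j hj => by rw [hζ0]; exact hz j hj) F p
  have h2 := cont_rg (X := L ++ [k]) (ζ := ζ) (v := fun _ => v) (y0 := (0 : ℂ)) hcd
    (fun h => hc ((hmem c).1 h)) (fun j _ => hcont j) continuousAt_const
    (fun j hj => by rw [hζ0]; exact hz j ((hmem j).1 hj)) F p
  have hev : ∀ᶠ t in 𝓝[≠] (0 : ℂ), rg (ζ t) c d v (k :: L) F p = rg (ζ t) c d v (L ++ [k]) F p := by
    filter_upwards [ev_okR (3 * Real.pi / 8 - (v - z k)) (b := 1) one_ne_zero,
      ev_okR (v - z k - 3 * Real.pi / 8) (b := -1) (by norm_num),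
      ev_okR (v - z k) (b := -1) (by norm_num), ev_okR (-(v - z k)) (b := 1) one_ne_zero]
      with t a1 a2 a3 a4
    have hk : ζ t k = z k + t := by
      simp only [hζ, Function.update_self]
    rw [rg_rot hn hcd hc hd]
    · rw [hk]
      rwa [show (3 * Real.pi / 8 - (v - (z k + t)) : ℂ) = 3 * Real.pi / 8 - (v - z k) + 1 * t by ring]
    · rw [hk]
      rwa [show (v - (z k + t) - 3 * Real.pi / 8 : ℂ) = v - z k - 3 * Real.pi / 8 + -1 * t by ring]
    · rw [hk]
      rwa [show (v - (z k + t) : ℂ) = v - z k + -1 * t by ring]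
    · rw [hk]
      rwa [show (-(v - (z k + t)) : ℂ) = -(v - z k) + 1 * t by ring]
  have h3 := tendsto_nhds_unique_of_eventuallyEq (h1.mono_left nhdsWithin_le_nhds)
    (h2.mono_left nhdsWithin_le_nhds) hev
  simp only [hζ0] at h3
  exact h3

theorem ax_rot' (hn : (k :: L).Nodup) : AX (k :: L) = AX (L ++ [k]) :=
  funext fun _ => propext (ax_rot hn)

variable (hn : (k :: L).Nodup) (hcd : c ≠ d) (hc : c ∉ k :: L) (hd : d ∉ k :: L)
  (hz : ∀ j ∈ k :: L, okR (Real.pi / 8 - z j))

include hn hcd hc hd hz

theorem isR_rot {V : Fnl ι} : IsR c d z (k :: L) V ↔ IsR c d z (L ++ [k]) V := by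
  have h1 := rg_rot' (v := Real.pi / 8) hn hcd hc hd hz
  constructor
  · rintro ⟨a, b, e⟩
    refine ⟨?_, b, by rw [← h1]; exact e⟩
    show SupF (AX (L ++ [k])) V
    rw [← ax_rot' hn]
    exact a
  · rintro ⟨a, b, e⟩
    refine ⟨?_, b, by rw [h1]; exact e⟩
    show SupF (AX (k :: L)) V
    rw [ax_rot' hn]
    exact a

theorem regR_rot : RegR c d z (k :: L) ↔ RegR c d z (L ++ [k]) := by
  unfold RegR
  rw [rg_rot' (v := Real.pi / 8) hn hcd hc hd hz, ax_rot' hn]

/-- **Rotation of the functional.** -/
theorem VR_rot : VR c d z (k :: L) = VR c d z (L ++ [k]) := by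
  classical
  have e : (fun V => IsR c d z (k :: L) V) = fun V => IsR c d z (L ++ [k]) V := by
    funext V
    exact propext (isR_rot hn hcd hc hd hz)
  have key : ∀ P Q : Fnl ι → Prop, P = Q → (if h : ∃ V, P V then h.choose else 0) =
      (if h : ∃ V, Q V then h.choose else 0) := by
    rintro P Q rfl
    rfl
  exact key _ _ e

end rot

/-! ### Rings commute -/

section comm

variable {ι : Type*} [DecidableEq ι] {c d e f r : ι} {X : List ι} {z : ι → ℂ} {v w u : ℂ}

theorem uops_U_symm (i j : ι) : uops.U i j = uops.U j i := by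
  by_cases h : i = j
  · rw [h]
  refine LinearMap.ext fun F => ?_
  rw [uops_U_apply h, uops_U_apply (Ne.symm h)]
  funext q
  simp only [EXL.U]
  by_cases e1 : q i = i <;> by_cases e2 : q j = j <;> simp [e1, e2, cup_comm]

/-- **A U-turn in front of a rhombus.** -/
theorem U_Rc (u : ℂ) (hcd : c ≠ d) (hcr : c ≠ r) (hdr : d ≠ r) :
    uops.U c d * uops.R d r u = uops.U c d * uops.R c r (3 * Real.pi / 8 - u) := by
  refine LinearMap.ext fun F => ?_
  rw [Module.End.mul_apply, Module.End.mul_apply, uops_U_apply hcd, uops_U_apply hcd,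
    uops_R_apply hdr, uops_R_apply hcr, rwt_cross]
  exact U_R_cross _ hcd hcr hdr F

/-- **A U-turn behind a rhombus.** -/
theorem glue_Rc (hcd : c ≠ d) (hcr : c ≠ r) (hdr : d ≠ r) (h1 : okR u) (h2 : okR (-u))
    (h3 : okR (3 * Real.pi / 8 - u)) :
    uops.R d r (3 * Real.pi / 8 - u) * uops.glue c d = uops.R c r u * uops.glue c d := by
  have W := ulaws (ι := ι)
  have hh : (uops (ι := ι)).h + (uops (ι := ι)).h = 3 * Real.pi / 8 := by rw [uops_h]; ring
  have e := W.CU (i := d) (j := c) (r := r) (u := -u) hcd.symm hdr hcr h2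
    (by rw [hh, ← sub_eq_add_neg]; exact h3)
  rw [hh, ← sub_eq_add_neg, W.gs] at e
  have e1 := W.L1 (i := c) (j := r) (u := u) hcr h1 h2
  calc uops.R d r (3 * Real.pi / 8 - u) * uops.glue c d
      = (uops.R c r u * uops.R c r (-u)) * (uops.R d r (3 * Real.pi / 8 - u) * uops.glue c d) := by
        rw [e1, one_mul]
    _ = uops.R c r u * (uops.R c r (-u) * uops.R d r (3 * Real.pi / 8 - u) * uops.glue c d) := by
        simp only [mul_assoc]
    _ = _ := by rw [e]

theorem comm_U_glue {a b a' b' : ι} (h1 : a ≠ a') (h2 : a ≠ b') (h3 : b ≠ a') (h4 : b ≠ b') :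
    Commute (uops.U a b) (uops.glue a' b') := by
  by_cases hab : a = b
  · subst hab
    have : uops.U a a = 0 := by
      show rep0 ℂ id (if a = a then 0 else wU a a) = 0
      rw [if_pos rfl, map_zero]
    rw [this]
    exact Commute.zero_left _
  by_cases hab' : a' = b'
  · subst hab'
    have : uops.glue a' a' = 0 := by
      show rep0 ℂ id (if a' = a' then 0 else wglue a' a') = 0
      rw [if_pos rfl, map_zero]
    rw [this]
    exact Commute.zero_right _
  refine LinearMap.ext fun F => ?_
  rw [Module.End.mul_apply, Module.End.mul_apply, uops_U_apply hab, uops_glue_apply hab',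
    uops_glue_apply hab', uops_U_apply hab]
  refine ((U_isLoc a b).comm (glue_isLoc hab') ?_ F)
  rw [Set.disjoint_left]
  intro x hx hx'
  simp only [Set.mem_insert_iff, Set.mem_singleton_iff] at hx hx'
  rcases hx with rfl | rfl <;> rcases hx' with h | h
  · exact h1 h
  · exact h2 h
  · exact h3 h
  · exact h4 h

/-- **Two rings commute.** -/
theorem rg_comm (hn : X.Nodup) (hcd : c ≠ d) (hef : e ≠ f) (h1 : c ≠ e) (h2 : c ≠ f) (h3 : d ≠ e)
    (h4 : d ≠ f) (hc : c ∉ X) (hd : d ∉ X) (he : e ∉ X) (hf : f ∉ X) (hv : ∀ r ∈ X, okR (v - z r))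
    (hw : ∀ r ∈ X, okR (w - z r)) (a1 : okR (v - w)) (a2 : okR (-(v - w)))
    (a3 : okR (3 * Real.pi / 8 - (v - w))) (a4 : okR (-(3 * Real.pi / 8 - (v - w)))) :
    rg z c d v X * rg z e f w X = rg z e f w X * rg z c d v X := by
  have W := ulaws (ι := ι)
  set x := v - w with hx
  -- the crossing passes to the lines `d`, `f`
  have g1 : uops.R c e x * (uops.glue c d * uops.glue e f) =
      uops.R d f x * (uops.glue c d * uops.glue e f) := by
    have b1 : uops.R d e (3 * Real.pi / 8 - x) * uops.glue c d = uops.R c e x * uops.glue c d :=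
      glue_Rc (c := c) (d := d) (r := e) (u := x) hcd h1 h3 a1 a2 a3
    have b2 : uops.R f d (3 * Real.pi / 8 - (3 * Real.pi / 8 - x)) * uops.glue e f =
        uops.R e d (3 * Real.pi / 8 - x) * uops.glue e f :=
      glue_Rc (c := e) (d := f) (r := d) (u := 3 * Real.pi / 8 - x) hef h3.symm h4.symm a3 a4
        (by rw [sub_sub_cancel]; exact a1)
    rw [sub_sub_cancel] at b2
    have cg : Commute (uops.glue c d) (uops.glue e f) := by
      refine LinearMap.ext fun F => ?_
      rw [Module.End.mul_apply, Module.End.mul_apply, uops_glue_apply hcd, uops_glue_apply hef,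
        uops_glue_apply hef, uops_glue_apply hcd]
      refine ((glue_isLoc hcd).comm (glue_isLoc hef) ?_ F)
      rw [Set.disjoint_left]
      intro y hy hy'
      simp only [Set.mem_insert_iff, Set.mem_singleton_iff] at hy hy'
      rcases hy with rfl | rfl <;> rcases hy' with h | h
      · exact h1 h
      · exact h2 h
      · exact h3 h
      · exact h4 h
    calc uops.R c e x * (uops.glue c d * uops.glue e f)
        = (uops.R c e x * uops.glue c d) * uops.glue e f := by rw [mul_assoc]
      _ = uops.R d e (3 * Real.pi / 8 - x) * (uops.glue c d * uops.glue e f) := by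
          rw [← b1, mul_assoc]
      _ = (uops.R e d (3 * Real.pi / 8 - x) * uops.glue e f) * uops.glue c d := by
          rw [cg.eq, W.Rs (i := d), mul_assoc]
      _ = uops.R d f x * (uops.glue e f * uops.glue c d) := by
          rw [← b2, W.Rs (i := f), mul_assoc]
      _ = _ := by rw [cg.eq]
  have g2 : uops.U c d * uops.U e f * uops.R c e (-x) = uops.U c d * uops.U e f * uops.R d f (-x) := by
    have b1 : uops.U e f * uops.R c e (-x) = uops.U e f * uops.R f c (3 * Real.pi / 8 - (-x)) := by
      have := U_Rc (c := f) (d := e) (r := c) (-x) hef.symm h2.symm h1.symm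
      rw [uops_U_symm f e, W.Rs (i := e)] at this
      exact this
    have b2 : uops.U c d * uops.R d f (-x) = uops.U c d * uops.R c f (3 * Real.pi / 8 - (-x)) :=
      U_Rc (c := c) (d := d) (r := f) (-x) hcd h2 h4
    have cU : Commute (uops.U c d) (uops.U e f) := by
      refine LinearMap.ext fun F => ?_
      rw [Module.End.mul_apply, Module.End.mul_apply, uops_U_apply hcd, uops_U_apply hef,
        uops_U_apply hef, uops_U_apply hcd]
      refine ((U_isLoc c d).comm (U_isLoc e f) ?_ F)
      rw [Set.disjoint_left]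
      intro y hy hy'
      simp only [Set.mem_insert_iff, Set.mem_singleton_iff] at hy hy'
      rcases hy with rfl | rfl <;> rcases hy' with h | h
      · exact h1 h
      · exact h2 h
      · exact h3 h
      · exact h4 h
    calc uops.U c d * uops.U e f * uops.R c e (-x)
        = uops.U c d * (uops.U e f * uops.R c e (-x)) := by rw [mul_assoc]
      _ = uops.U c d * uops.U e f * uops.R c f (3 * Real.pi / 8 - (-x)) := by
          rw [b1, W.Rs (i := f), mul_assoc]
      _ = uops.U e f * (uops.U c d * uops.R d f (-x)) := by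
          rw [b2, cU.eq, mul_assoc]
      _ = _ := by rw [← mul_assoc, ← cU.eq]
  -- the rows
  set A := uops.M z c v X with hA
  set B := uops.M z e w X with hB
  have rtt : B * A * uops.R c e x = uops.R c e x * (A * B) := W.RTT h1 hc he hn a1 hv hw
  have inv : uops.R c e (-x) * uops.R c e x = 1 := by
    have := W.L1 (i := c) (j := e) (u := -x) h1 a2 (by rw [neg_neg]; exact a1)
    rwa [neg_neg] at this
  have inv' : uops.R d f (-x) * uops.R d f x = 1 := by
    have := W.L1 (i := d) (j := f) (u := -x) h4 a2 (by rw [neg_neg]; exact a1)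
    rwa [neg_neg] at this
  have m1 : Commute A (uops.U e f) := W.cMU (z := z) (w := v) h1 h2 he hf
  have m2 : Commute B (uops.glue c d) := W.cMglue (z := z) (w := w) h1.symm h3.symm hc hd
  have m3 : Commute B (uops.U c d) := W.cMU (z := z) (w := w) h1.symm h3.symm hc hd
  have m4 : Commute A (uops.glue e f) := W.cMglue (z := z) (w := v) h1 h2 he hf
  have m5 : Commute A (uops.R d f x) := W.cMR (z := z) (w := v) hcd h2 hd hf
  have m6 : Commute B (uops.R d f x) := W.cMR (z := z) (w := w) h3.symm hef hd hf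
  have n1 : Commute (uops.U e f) (uops.glue c d) := comm_U_glue h1.symm h3.symm h2.symm h4.symm
  have n2 : Commute (uops.U c d) (uops.glue e f) := comm_U_glue h1 h2 h3 h4
  have n3 : Commute (uops.glue c d) (uops.glue e f) := by
    refine LinearMap.ext fun F => ?_
    rw [Module.End.mul_apply, Module.End.mul_apply, uops_glue_apply hcd, uops_glue_apply hef,
      uops_glue_apply hef, uops_glue_apply hcd]
    refine ((glue_isLoc hcd).comm (glue_isLoc hef) ?_ F)
    rw [Set.disjoint_left]
    intro y hy hy'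
    simp only [Set.mem_insert_iff, Set.mem_singleton_iff] at hy hy'
    rcases hy with rfl | rfl <;> rcases hy' with h | h
    · exact h1 h
    · exact h2 h
    · exact h3 h
    · exact h4 h
  have n4 : Commute (uops.U c d) (uops.U e f) := by
    refine LinearMap.ext fun F => ?_
    rw [Module.End.mul_apply, Module.End.mul_apply, uops_U_apply hcd, uops_U_apply hef,
      uops_U_apply hef, uops_U_apply hcd]
    refine ((U_isLoc c d).comm (U_isLoc e f) ?_ F)
    rw [Set.disjoint_left]
    intro y hy hy'
    simp only [Set.mem_insert_iff, Set.mem_singleton_iff] at hy hy'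
    rcases hy with rfl | rfl <;> rcases hy' with h | h
    · exact h1 h
    · exact h2 h
    · exact h3 h
    · exact h4 h
  set G := uops.glue c d with hG
  set G' := uops.glue e f with hG'
  set U1 := uops.U c d with hU1
  set U2 := uops.U e f with hU2
  have L1 : rg z c d v X * rg z e f w X = U1 * U2 * (A * B) * (G * G') := by
    unfold rg
    rw [← hU1, ← hU2, ← hG, ← hG', ← hA, ← hB]
    calc U1 * A * G * (U2 * B * G') = U1 * A * (G * U2) * B * G' := by simp only [mul_assoc]
      _ = U1 * (A * U2) * (G * B) * G' := by rw [← n1.eq]; simp only [mul_assoc]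
      _ = U1 * (U2 * A) * (B * G) * G' := by rw [m1.eq, ← m2.eq]
      _ = _ := by simp only [mul_assoc]
  have L2 : rg z e f w X * rg z c d v X = U1 * U2 * (B * A) * (G * G') := by
    unfold rg
    rw [← hU1, ← hU2, ← hG, ← hG', ← hA, ← hB]
    calc U2 * B * G' * (U1 * A * G) = U2 * B * (G' * U1) * A * G := by simp only [mul_assoc]
      _ = U2 * (B * U1) * (G' * A) * G := by rw [← n2.eq]; simp only [mul_assoc]
      _ = (U2 * U1) * B * A * (G' * G) := by rw [m3.eq, ← m4.eq]; simp only [mul_assoc]
      _ = _ := by rw [← n3.eq, ← n4.eq]; simp only [mul_assoc]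
  rw [L1, L2]
  calc U1 * U2 * (A * B) * (G * G')
      = U1 * U2 * ((uops.R c e (-x) * uops.R c e x) * (A * B)) * (G * G') := by rw [inv, one_mul]
    _ = U1 * U2 * uops.R c e (-x) * (B * A * uops.R c e x) * (G * G') := by
        rw [rtt]; simp only [mul_assoc]
    _ = U1 * U2 * uops.R d f (-x) * (B * A) * (uops.R c e x * (G * G')) := by
        rw [g2]; simp only [mul_assoc]
    _ = U1 * U2 * uops.R d f (-x) * (B * (A * uops.R d f x)) * (G * G') := by
        rw [g1]; simp only [mul_assoc]
    _ = U1 * U2 * uops.R d f (-x) * ((B * uops.R d f x) * A) * (G * G') := by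
        rw [m5.eq]; simp only [mul_assoc]
    _ = U1 * U2 * (uops.R d f (-x) * uops.R d f x) * (B * A) * (G * G') := by
        rw [m6.eq]; simp only [mul_assoc]
    _ = _ := by rw [inv', mul_one]

/-! ### The auxiliary lines -/

theorem P_U {a b b' : ι} (h1 : a ≠ b) (h2 : a ≠ b') (h3 : b ≠ b') :
    uops.P a b * uops.U a b' = uops.U b b' * uops.P a b := by
  refine LinearMap.ext fun F => ?_
  rw [Module.End.mul_apply, Module.End.mul_apply, uops_P_apply, uops_P_apply, uops_U_apply h2,
    uops_U_apply h3]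
  funext p
  show EXL.U a b' F (swap a b p) = EXL.U b b' (sw a b F) p
  simp only [EXL.U]
  have e1 : swap a b p a = a ↔ p b = b := by
    rw [pswap_apply, Equiv.swap_apply_left]
    constructor
    · intro h
      have := congrArg (Equiv.swap a b) h
      rwa [Equiv.swap_apply_self, Equiv.swap_apply_left] at this
    · intro h
      rw [h, Equiv.swap_apply_right]
  have e2 : swap a b p b' = b' ↔ p b' = b' := by
    rw [pswap_apply, Equiv.swap_apply_of_ne_of_ne h2.symm h3.symm]
    constructor
    · intro h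
      have := congrArg (Equiv.swap a b) h
      rwa [Equiv.swap_apply_self, Equiv.swap_apply_of_ne_of_ne h2.symm h3.symm] at this
    · intro h
      rw [h, Equiv.swap_apply_of_ne_of_ne h2.symm h3.symm]
  by_cases q1 : p b = b
  · by_cases q2 : p b' = b'
    · rw [if_pos (e1.2 q1), if_pos (e2.2 q2), if_pos q1, if_pos q2]
      have : cup a b' (swap a b p) = swap a b (cup b b' p) := by
        ext x
        rw [pcup_apply (e1.2 q1) (e2.2 q2), pswap_apply, pswap_apply, pcup_apply q1 q2]
        by_cases x1 : x = a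
        · rw [if_pos x1, x1, Equiv.swap_apply_left, if_pos rfl,
            Equiv.swap_apply_of_ne_of_ne h2.symm h3.symm]
        · by_cases x2 : x = b'
          · rw [if_neg x1, if_pos x2, x2, Equiv.swap_apply_of_ne_of_ne h2.symm h3.symm,
              if_neg h3.symm, if_pos rfl, Equiv.swap_apply_right]
          · rw [if_neg x1, if_neg x2, if_neg, if_neg]
            · intro h
              have := congrArg (Equiv.swap a b) h
              rw [Equiv.swap_apply_self, Equiv.swap_apply_of_ne_of_ne h2.symm h3.symm] at this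
              exact x2 this
            · intro h
              have := congrArg (Equiv.swap a b) h
              rw [Equiv.swap_apply_self, Equiv.swap_apply_right] at this
              exact x1 this
      show F (swap a b p) + F (cup a b' (swap a b p)) = F (swap a b p) + F (swap a b (cup b b' p))
      rw [this]
    · rw [if_pos (e1.2 q1), if_neg (fun h => q2 (e2.1 h)), if_pos q1, if_neg q2]
  · rw [if_neg (fun h => q1 (e1.1 h)), if_neg q1]

/-- The auxiliary line may be renamed. -/
theorem rg_ren (hn : X.Nodup) (hcd : c ≠ d) (hce : c ≠ e) (hde : d ≠ e) (hc : c ∉ X)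
    (hd : d ∉ X) (he : e ∉ X) (F : Pat ι → ℂ) {p : Pat ι} (hp : AX X p) :
    rg z e d v X F p = rg z c d v X F p := by
  have W := ulaws (ι := ι)
  have h1 : uops.P c e * rg z c d v X = rg z e d v X * uops.P c e := by
    unfold rg
    calc uops.P c e * (uops.U c d * uops.M z c v X * uops.glue c d)
        = (uops.P c e * uops.U c d) * uops.M z c v X * uops.glue c d := by simp only [mul_assoc]
      _ = uops.U e d * (uops.P c e * uops.M z c v X) * uops.glue c d := by
          rw [P_U hce hcd hde.symm]; simp only [mul_assoc]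
      _ = uops.U e d * uops.M z e v X * (uops.P c e * uops.glue c d) := by
          rw [W.P_M hce hc he]; simp only [mul_assoc]
      _ = _ := by rw [W.Pglue hce hcd hde.symm]; simp only [mul_assoc]
  have h2 : ∀ (G : Pat ι → ℂ) (q : Pat ι), AX X q → uops.P c e G q = G q := by
    intro G q hq
    rw [uops_P_apply]
    show G (swap c e q) = G q
    rw [swap_empty2 (ax_out hq hc) (ax_out hq he)]
  have h3 : uops.P c e (rg z c d v X F) p = rg z e d v X (uops.P c e F) p := by
    rw [← Module.End.mul_apply, h1, Module.End.mul_apply]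
  rw [h2 _ _ hp] at h3
  rw [h3]
  exact pres_rg z v hn hde.symm he hd F (uops.P c e F) (fun q hq => (h2 F q hq).symm) p hp

/-- The same for the return line. -/
theorem rg_ren' (hn : X.Nodup) (hcd : c ≠ d) (hce : c ≠ e) (hde : d ≠ e) (hc : c ∉ X)
    (hd : d ∉ X) (he : e ∉ X) (F : Pat ι → ℂ) {p : Pat ι} (hp : AX X p) :
    rg z c e v X F p = rg z c d v X F p := by
  have W := ulaws (ι := ι)
  have cP : Commute (uops.P d e) (uops.M z c v X) := (W.cMP (z := z) (w := v) hcd hce hd he).symm
  have h1 : uops.P d e * rg z c d v X = rg z c e v X * uops.P d e := by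
    unfold rg
    rw [uops_U_symm c d, uops_U_symm c e, W.gs (i := c) (j := d), W.gs (i := c) (j := e)]
    calc uops.P d e * (uops.U d c * uops.M z c v X * uops.glue d c)
        = (uops.P d e * uops.U d c) * uops.M z c v X * uops.glue d c := by simp only [mul_assoc]
      _ = uops.U e c * (uops.P d e * uops.M z c v X) * uops.glue d c := by
          rw [P_U hde hcd.symm hce.symm]; simp only [mul_assoc]
      _ = uops.U e c * uops.M z c v X * (uops.P d e * uops.glue d c) := by
          rw [cP.eq]; simp only [mul_assoc]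
      _ = _ := by rw [W.Pglue hde hcd.symm hce.symm]; simp only [mul_assoc]
  have h2 : ∀ (G : Pat ι → ℂ) (q : Pat ι), AX X q → uops.P d e G q = G q := by
    intro G q hq
    rw [uops_P_apply]
    show G (swap d e q) = G q
    rw [swap_empty2 (ax_out hq hd) (ax_out hq he)]
  have h3 : uops.P d e (rg z c d v X F) p = rg z c e v X (uops.P d e F) p := by
    rw [← Module.End.mul_apply, h1, Module.End.mul_apply]
  rw [h2 _ _ hp] at h3
  rw [h3]
  exact pres_rg z v hn hce hc he F (uops.P d e F) (fun q hq => (h2 F q hq).symm) p hp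

end comm

/-! ### Reflection -/

section refl

variable {ι : Type*} [DecidableEq ι] {c d e f : ι} {X : List ι} {z : ι → ℂ} {v : ℂ}

/-- **The ring read from the other side.** -/
theorem rg_refl (z : ι → ℂ) (v : ℂ) (hn : X.Nodup) (hcd : c ≠ d) (hc : c ∉ X) (hd : d ∉ X) :
    rg z c d v X = rg (fun i => -z i) d c (3 * Real.pi / 8 - v) X.reverse := by
  refine LinearMap.ext fun F => ?_
  have hd' : d ∉ X.reverse := by simpa using hd
  unfold rg
  rw [(ulaws (ι := ι)).gs (i := c), uops_U_symm c d]
  simp only [Module.End.mul_apply]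
  rw [uops_U_apply hcd.symm, uops_U_apply hcd.symm, uops_M_apply _ _ hc, uops_M_apply _ _ hd',
    U_M_cross _ hn hcd.symm hd hc]
  congr 1
  refine congrFun ?_ _
  refine M_congr' (K := ℂ) (fun j _ => ?_) d
  rw [← rwt_cross]
  congr 1
  ring

/-- The rapidities near 0 at which all rings of this file are regular. -/
structure OkZ (x : ℂ) : Prop where
  a : okR (Real.pi / 8 - x)
  b : okR (Real.pi / 4 - x)
  a' : okR (Real.pi / 8 + x)
  b' : okR (Real.pi / 4 + x)

theorem okR_m1 : okR (Real.pi / 8 - Real.pi / 4) := by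
  have h := okR_t (t := -1) (by norm_num) (by norm_num) (x := Real.pi / 8 - Real.pi / 4)
    (by unfold lam; push_cast; ring)
  exact h

/-- **The functional is fixed by the ring with the parameter `π / 4`.** -/
theorem VR_fix2 [Finite ι] (hn : X.Nodup) (hcd : c ≠ d) (hef : e ≠ f) (h1 : c ≠ e) (h2 : c ≠ f)
    (h3 : d ≠ e) (h4 : d ≠ f) (hc : c ∉ X) (hd : d ∉ X) (he : e ∉ X) (hf : f ∉ X)
    (hz : ∀ j ∈ X, OkZ (z j)) (hR : RegR c d z X) :
    VR c d z X ∘ₗ rg z e f (Real.pi / 4) X = VR c d z X := by
  have hV := isR_VR hn hcd hc hd hR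
  have a1 : okR (Real.pi / 8 - Real.pi / 4) := okR_m1
  have a2 : okR (-(Real.pi / 8 - Real.pi / 4)) := okR_t (t := 1) (by norm_num) (by norm_num)
    (by unfold lam; push_cast; ring)
  have a3 : okR (3 * Real.pi / 8 - (Real.pi / 8 - Real.pi / 4)) := okR_t (t := 4) (by norm_num)
    (by norm_num) (by unfold lam; push_cast; ring)
  have a4 : okR (-(3 * Real.pi / 8 - (Real.pi / 8 - Real.pi / 4))) := by
    rw [EXL.Fm.okR_iff]
    unfold EXL.Fm.Dn
    have e1 : (2 * lam + -(3 * Real.pi / 8 - (Real.pi / 8 - Real.pi / 4)) : ℂ) = -(2 * lam) := by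
      unfold lam
      ring
    have e2 : (3 * lam + -(3 * Real.pi / 8 - (Real.pi / 8 - Real.pi / 4)) : ℂ) = -(1 * lam) := by
      unfold lam
      ring
    rw [e1, e2, Complex.sin_neg, Complex.sin_neg]
    refine mul_ne_zero (neg_ne_zero.2 ?_) (neg_ne_zero.2 ?_)
    · exact sin_tl_ne (t := 2) (by norm_num) (by norm_num) (by push_cast; ring)
    · exact sin_tl_ne (t := 1) (by norm_num) (by norm_num) (by push_cast; ring)
  refine (IsR.comp (z' := z) (Y := X) hV (pres_rg z _ hn hef he hf) ?_ ?_).unique hV hR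
  · exact rg_comm hn hcd hef h1 h2 h3 h4 hc hd he hf (fun r hr => (hz r hr).a)
      (fun r hr => (hz r hr).b) a1 a2 a3 a4
  · intro p _
    rw [rg_ind z _ hef he]

/-- **Reflection of the functional.** -/
theorem VR_refl [Finite ι] (hn : X.Nodup) (hcd : c ≠ d) (hef : e ≠ f) (h1 : c ≠ e) (h2 : c ≠ f)
    (h3 : d ≠ e) (h4 : d ≠ f) (hc : c ∉ X) (hd : d ∉ X) (he : e ∉ X) (hf : f ∉ X)
    (hz : ∀ j ∈ X, OkZ (z j)) (hR : RegR c d z X) (hR' : RegR c d (fun i => -z i) X.reverse) :
    VR c d (fun i => -z i) X.reverse = VR c d z X := by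
  have hr : ∀ {x : ι}, x ∈ X.reverse ↔ x ∈ X := List.mem_reverse
  have hn' : X.reverse.Nodup := List.nodup_reverse.2 hn
  have hc' : c ∉ X.reverse := fun h => hc (hr.1 h)
  have hd' : d ∉ X.reverse := fun h => hd (hr.1 h)
  have he' : e ∉ X.reverse := fun h => he (hr.1 h)
  have hf' : f ∉ X.reverse := fun h => hf (hr.1 h)
  have hz' : ∀ j ∈ X.reverse, OkZ ((fun i => -z i) j) := by
    intro j hj
    have h := hz j (hr.1 hj)
    refine ⟨?_, ?_, ?_, ?_⟩
    · rw [sub_neg_eq_add]; exact h.a'
    · rw [sub_neg_eq_add]; exact h.b'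
    · rw [← sub_eq_add_neg]; exact h.a
    · rw [← sub_eq_add_neg]; exact h.b
  set W := VR c d (fun i => -z i) X.reverse with hW
  have hV := isR_VR hn' hcd hc' hd' hR'
  have fx := VR_fix2 hn' hcd hef h1 h2 h3 h4 hc' hd' he' hf' hz' hR'
  rw [← hW] at hV fx
  have hsup : Sup X W := by
    intro F hF
    refine hV.sup F fun p hp => hF p ?_
    exact (ax_reverse hn p).1 hp
  refine IsR.eq_VR hn hcd hc hd hR ⟨hsup, hV.one, ?_⟩
  rw [rg_refl z _ hn hcd hc hd]
  have e1 : (3 * Real.pi / 8 - Real.pi / 8 : ℂ) = Real.pi / 4 := by ring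
  rw [e1]
  refine LinearMap.ext fun F => ?_
  have h5 := congrArg (fun V : Fnl ι => V F) fx
  simp only [LinearMap.comp_apply] at h5 ⊢
  rw [← h5]
  refine hV.sup.congr fun p hp => ?_
  -- `(e, f) → (d, f) → (d, c)`
  rw [← rg_ren (c := e) (d := f) (e := d) hn' hef h3.symm h4.symm he' hf' hd' F hp,
    ← rg_ren' (c := d) (d := f) (e := c) hn' h4 hcd.symm h2.symm hd' hf' hc' F hp]

end refl

end Pool.Agent.NUT2
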