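import Pool.Agent.NUT2.Tp5
import Pool.Agent.NUTP.Uniq

/-!
# The two-point functions of the lattice: generic lines on the canonical sites
-/

set_option autoImplicit false

namespace Pool.Agent.NUT2

open Pool.Agent.NUF Pool.Agent Pool.Agent.NUU Pool.Agent.NUTV
open Pool.Agent.EXL.Fm (lam)
open Complex (I exp sin cos)

/-! ### Generic lines -/

section gen

theorem lam_NUTP : NUTP.lam = lam := by
  unfold NUTP.lam EXL.Fm.lam
  push_cast
  ring

theorem sin_int {w : ℂ} (h : ∀ n : ℕ, sin (w + n * lam) ≠ 0) (n : ℤ) : sin (w + n * lam) ≠ 0 := by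
  obtain ⟨N, hN⟩ : ∃ N : ℕ, 0 ≤ n + 16 * (N : ℤ) := ⟨n.natAbs, by omega⟩
  obtain ⟨k, hk⟩ := Int.eq_ofNat_of_zero_le hN
  have h2 := h k
  have hk' : ((k : ℤ) : ℂ) = (n : ℂ) + 16 * (N : ℂ) := by
    rw [← hk]
    push_cast
    ring
  have hk2 : (k : ℂ) = (n : ℂ) + 16 * (N : ℂ) := by
    rw [← hk']
    push_cast
    ring
  have e : (w + (k : ℂ) * lam) = (w + n * lam) + ((N : ℤ) : ℂ) * (2 * Real.pi) := by
    rw [hk2]
    unfold EXL.Fm.lam
    push_cast
    ring
  rw [e, Complex.sin_add_int_mul_two_pi] at h2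
  exact h2

variable {ι : Type*} {z : ι → ℂ}

theorem Gk_of_G {T : List ι} (_ : T.Nodup)
    (hG : NUTP.G NUTP.th (T.map fun x => exp (I * z x))) : Gk z T := by
  have e : (T.map fun x => exp (I * z x)) = (T.map z).map NUTP.ea := by
    rw [List.map_map]
    rfl
  rw [e, NUTP.G_ea, List.pairwise_map] at hG
  have h1 : T.Pairwise fun x y => x ≠ y → ∀ n : ℤ, sin (z x - z y + n * lam) ≠ 0 := by
    refine hG.imp ?_
    intro x y h _ n
    refine sin_int (fun k => ?_) n
    have := h k
    rwa [lam_NUTP] at this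
  have hs : Std.Symm fun x y : ι => x ≠ y → ∀ n : ℤ, sin (z x - z y + n * lam) ≠ 0 := by
    constructor
    intro x y h hyx n
    have h2 := h (Ne.symm hyx) (-n)
    rw [show z y - z x + n * lam = -(z x - z y + ((-n : ℤ) : ℂ) * lam) by push_cast; ring,
      Complex.sin_neg]
    exact neg_ne_zero.2 h2
  intro x hx y hy hxy n
  exact h1.forall_of_forall (fun a _ h => absurd rfl h) hx hy hxy n

end gen

/-! ### Values on the canonical sites -/

section val

variable {K L : List ℂ} {v : Fin 6 → ℂ}

theorem zc_update (K L : List ℂ) (v : Fin 6 → ℂ) (j : Fin 6) (a : ℂ) :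
    zc K L (Function.update v j a) = Function.update (zc K L v) (sc j) (lg a) := by
  funext x
  rcases x with x | x | x
  · rw [Function.update_of_ne (by simp [sc])]
    rfl
  · rw [Function.update_of_ne (by simp [sc])]
    rfl
  · by_cases h : x = j
    · subst h
      show lg (Function.update v x a x) = Function.update (zc K L v) (sc x) (lg a) (sc x)
      rw [Function.update_self, Function.update_self]
    · rw [Function.update_of_ne (by simpa [sc] using h)]
      show lg (Function.update v j a x) = lg (v x)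
      rw [Function.update_of_ne h]

theorem ex_zcI (hK : ∀ a ∈ K, a ≠ 0) (i : Fin K.length) (b : Bool) :
    exp (I * zc K L v (Sum.inl (i, b))) = K.get i := by
  show exp (I * lg (K.get i)) = _
  exact exp_lg (hK _ (List.get_mem K i))

theorem ex_zcJ (hL : ∀ a ∈ L, a ≠ 0) (i : Fin L.length) (b : Bool) :
    exp (I * zc K L v (Sum.inr (Sum.inl (i, b)))) = L.get i := by
  show exp (I * lg (L.get i)) = _
  exact exp_lg (hL _ (List.get_mem L i))

theorem ex_zcs {j : Fin 6} (hj : v j ≠ 0) : exp (I * zc K L v (sc j)) = v j := exp_lg hj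

theorem map_Ic1 (hK : ∀ a ∈ K, a ≠ 0) :
    ((Ic K.length L.length).map Prod.fst).map (fun x => exp (I * zc K L v x)) = K := by
  have e : ((Ic K.length L.length).map Prod.fst).map (fun x => exp (I * zc K L v x)) =
      (List.finRange K.length).map K.get := by
    unfold Ic
    rw [List.map_map, List.map_map]
    exact List.map_congr_left fun i _ => ex_zcI hK i false
  rw [e, ← List.ofFn_eq_map]
  exact List.ofFn_get K

theorem map_Ic2 (hK : ∀ a ∈ K, a ≠ 0) :
    ((Ic K.length L.length).map Prod.snd).map (fun x => exp (I * zc K L v x)) = K := by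
  have e : ((Ic K.length L.length).map Prod.snd).map (fun x => exp (I * zc K L v x)) =
      (List.finRange K.length).map K.get := by
    unfold Ic
    rw [List.map_map, List.map_map]
    exact List.map_congr_left fun i _ => ex_zcI hK i true
  rw [e, ← List.ofFn_eq_map]
  exact List.ofFn_get K

theorem map_Jc1 (hL : ∀ a ∈ L, a ≠ 0) :
    ((Jc K.length L.length).map Prod.fst).map (fun x => exp (I * zc K L v x)) = L := by
  have e : ((Jc K.length L.length).map Prod.fst).map (fun x => exp (I * zc K L v x)) =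
      (List.finRange L.length).map L.get := by
    unfold Jc
    rw [List.map_map, List.map_map]
    exact List.map_congr_left fun i _ => ex_zcJ hL i false
  rw [e, ← List.ofFn_eq_map]
  exact List.ofFn_get L

theorem map_Jc2 (hL : ∀ a ∈ L, a ≠ 0) :
    ((Jc K.length L.length).map Prod.snd).map (fun x => exp (I * zc K L v x)) = L := by
  have e : ((Jc K.length L.length).map Prod.snd).map (fun x => exp (I * zc K L v x)) =
      (List.finRange L.length).map L.get := by
    unfold Jc
    rw [List.map_map, List.map_map]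
    exact List.map_congr_left fun i _ => ex_zcJ hL i true
  rw [e, ← List.ofFn_eq_map]
  exact List.ofFn_get L

theorem map_sc {A : List (Fin 6)} (hA : ∀ j ∈ A, v j ≠ 0) :
    (A.map sc).map (fun x => exp (I * zc K L v x)) = A.map v := by
  rw [List.map_map]
  exact List.map_congr_left fun j hj => ex_zcs (hA j hj)

theorem nd1_of {ι : Type*} {K L : List (ι × ι)} {A B : List ι} {q g : ι}
    (hn : (sites K L A B q g).Nodup) : (A ++ (L.map Prod.fst ++ q :: K.map Prod.fst)).Nodup := by
  unfold sites at hn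
  simp only [List.nodup_append, List.nodup_cons, List.map_append, List.mem_append, List.mem_cons] at hn ⊢
  grind

theorem nd2_of {ι : Type*} {K L : List (ι × ι)} {A B : List ι} {q g : ι}
    (hn : (sites K L A B q g).Nodup) : (B ++ (L.map Prod.snd ++ g :: K.map Prod.snd)).Nodup := by
  unfold sites at hn
  simp only [List.nodup_append, List.nodup_cons, List.map_append, List.mem_append, List.mem_cons] at hn ⊢
  grind

/-- The lines of the first disc are generic. -/
theorem Gk_can1 {A : List (Fin 6)} (hA : (0 :: 1 :: A).Nodup)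
    (hG : NUTP.G NUTP.th (A.map v ++ (L ++ v 0 :: K))) :
    Gk (zc K L v) (A.map sc ++ ((Jc K.length L.length).map Prod.fst ++
      sc 0 :: (Ic K.length L.length).map Prod.fst)) := by
  have hK : ∀ a ∈ K, a ≠ 0 := fun a ha => hG.mem_ne0 (by simp [ha])
  have hL : ∀ a ∈ L, a ≠ 0 := fun a ha => hG.mem_ne0 (by simp [ha])
  have h0 : v 0 ≠ 0 := hG.mem_ne0 (by simp)
  have hA' : ∀ j ∈ A, v j ≠ 0 := fun j hj => hG.mem_ne0 (by
    rw [List.mem_append]
    exact Or.inl (List.mem_map_of_mem hj))
  refine Gk_of_G (nd1_of (nodup_can (A := A) (B := []) (by rw [List.append_nil]; exact hA))) ?_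
  rw [List.map_append, List.map_append, List.map_cons, map_Jc1 hL, map_Ic1 hK, map_sc hA', ex_zcs h0]
  exact hG

/-- The lines of the second disc are generic. -/
theorem Gk_can2 {B : List (Fin 6)} (hB : (0 :: 1 :: B).Nodup)
    (hG : NUTP.G NUTP.th (B.map v ++ (L ++ v 1 :: K))) :
    Gk (zc K L v) (B.map sc ++ ((Jc K.length L.length).map Prod.snd ++
      sc 1 :: (Ic K.length L.length).map Prod.snd)) := by
  have hK : ∀ a ∈ K, a ≠ 0 := fun a ha => hG.mem_ne0 (by simp [ha])
  have hL : ∀ a ∈ L, a ≠ 0 := fun a ha => hG.mem_ne0 (by simp [ha])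
  have h0 : v 1 ≠ 0 := hG.mem_ne0 (by simp)
  have hB' : ∀ j ∈ B, v j ≠ 0 := fun j hj => hG.mem_ne0 (by
    rw [List.mem_append]
    exact Or.inl (List.mem_map_of_mem hj))
  refine Gk_of_G (nd2_of (nodup_can (A := []) (B := B) (by rw [List.nil_append]; exact hB))) ?_
  rw [List.map_append, List.map_append, List.map_cons, map_Jc2 hL, map_Ic2 hK, map_sc hB', ex_zcs h0]
  exact hG

/-- the two sites of a full line have the same rapidity -/
theorem zc_pair (K L : List ℂ) (v : Fin 6 → ℂ) :
    ∀ t ∈ Ic K.length L.length ++ Jc K.length L.length, zc K L v t.2 = zc K L v t.1 := by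
  intro t ht
  rcases List.mem_append.1 ht with ht | ht
  · obtain ⟨i, -, rfl⟩ := List.mem_map.1 ht
    rfl
  · obtain ⟨i, -, rfl⟩ := List.mem_map.1 ht
    rfl

/-- A permutation of the values is a permutation of the sites. -/
theorem perm_map_ex {α β : Type*} (f : α → β) {Y Y' : List β} (h : Y.Perm Y') :
    ∀ X : List α, X.map f = Y → ∃ X' : List α, X.Perm X' ∧ X'.map f = Y' := by
  induction h with
  | nil =>
    intro X hX
    exact ⟨X, List.Perm.refl _, hX⟩
  | cons y _ ih =>
    intro X hX
    cases X with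
    | nil => simp at hX
    | cons x X =>
      rw [List.map_cons, List.cons.injEq] at hX
      obtain ⟨X', h1, h2⟩ := ih X hX.2
      exact ⟨x :: X', h1.cons x, by rw [List.map_cons, h2, hX.1]⟩
  | swap y y' M =>
    intro X hX
    cases X with
    | nil => simp at hX
    | cons x X =>
      cases X with
      | nil => simp at hX
      | cons x' X =>
        rw [List.map_cons, List.map_cons, List.cons.injEq, List.cons.injEq] at hX
        exact ⟨x' :: x :: X, List.Perm.swap _ _ _, by
          rw [List.map_cons, List.map_cons, hX.1, hX.2.1, hX.2.2]⟩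
  | trans _ _ ih1 ih2 =>
    intro X hX
    obtain ⟨X1, h1, h2⟩ := ih1 X hX
    obtain ⟨X2, h3, h4⟩ := ih2 X1 h2
    exact ⟨X2, h1.trans h3, h4⟩

theorem sc_inj {n m : ℕ} : Function.Injective (sc : Fin 6 → Sc n m) := fun i j h =>
  Sum.inr_injective (Sum.inr_injective h)

theorem sc_ne {n m : ℕ} (j : Fin 6) : ∀ t ∈ Ic n m ++ Jc n m, sc j ≠ t.1 ∧ sc j ≠ t.2 := by
  intro t ht
  rcases List.mem_append.1 ht with ht | ht
  · obtain ⟨i, -, rfl⟩ := List.mem_map.1 ht
    exact ⟨by simp [sc], by simp [sc]⟩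
  · obtain ⟨i, -, rfl⟩ := List.mem_map.1 ht
    exact ⟨by simp [sc], by simp [sc]⟩

variable {ε : ℂ}

/-- **Permutation of the lines of the group `K`.** -/
theorem WC_permK (hε : ε = 1 ∨ ε = -1) {K' : List ℂ} (hp : K.Perm K') {A B : List (Fin 6)}
    (hA : (0 :: 1 :: (A ++ B)).Nodup) {m k : Fin 6} (hm : m ∈ A ++ B) (hk : k = 0 ∨ k = 1)
    (h1 : NUTP.G NUTP.th (A.map v ++ (L ++ v 0 :: K)))
    (h2 : NUTP.G NUTP.th (B.map v ++ (L ++ v 1 :: K))) :
    WC ε K L v A B m k = WC ε K' L v A B m k := by
  have hK : ∀ a ∈ K, a ≠ 0 := fun a ha => h1.mem_ne0 (by simp [ha])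
  have hL : ∀ a ∈ L, a ≠ 0 := fun a ha => h1.mem_ne0 (by simp [ha])
  have e1 : (Ic K.length L.length).map (fun t => exp (I * zc K L v t.1)) = K := by
    have := map_Ic1 (L := L) (v := v) hK
    rwa [List.map_map] at this
  have e2 : (Jc K.length L.length).map (fun t => exp (I * zc K L v t.1)) = L := by
    have := map_Jc1 (K := K) (v := v) hL
    rwa [List.map_map] at this
  obtain ⟨X, hX, hX'⟩ := perm_map_ex _ hp _ e1
  have hO := ok_can (n := K.length) (m := L.length) hA hm hk
  have hA1 : (0 :: 1 :: A).Nodup := hA.sublist (by simp)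
  have hB1 : (0 :: 1 :: B).Nodup := hA.sublist (by simp)
  have key := WL_permK hε hX hO (zc_pair K L v) (Gk_can1 hA1 h1) (Gk_can2 hB1 h2)
  have hp2 : (Ic K.length L.length ++ Jc K.length L.length).Perm (X ++ Jc K.length L.length) :=
    List.Perm.append_right _ hX
  have hO2 := hO.perm hp2
  unfold WC
  rw [key]
  refine WL_eq_WC hε sc_inj (Gd_cons.1 hO2.gd).2.2 (fun j t ht => sc_ne j t ((hp2.mem_iff).2 ht)) hA hm
    hk (fun t ht => by rw [zc_pair K L v t ((hp2.mem_iff).2 ht)]) (fun j hj => ex_zcs ?_) hX' e2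
  rcases List.mem_cons.1 hj with rfl | hj
  · exact h1.mem_ne0 (by simp)
  rcases List.mem_cons.1 hj with rfl | hj
  · exact h2.mem_ne0 (by simp)
  rcases List.mem_append.1 hj with hj | hj
  · exact h1.mem_ne0 (List.mem_append_left _ (List.mem_map_of_mem hj))
  · exact h2.mem_ne0 (List.mem_append_left _ (List.mem_map_of_mem hj))

/-- **Permutation of the lines of the group `L`.** -/
theorem WC_permL (hε : ε = 1 ∨ ε = -1) {L' : List ℂ} (hp : L.Perm L') {A B : List (Fin 6)}
    (hA : (0 :: 1 :: (A ++ B)).Nodup) {m k : Fin 6} (hm : m ∈ A ++ B) (hk : k = 0 ∨ k = 1)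
    (h1 : NUTP.G NUTP.th (A.map v ++ (L ++ v 0 :: K)))
    (h2 : NUTP.G NUTP.th (B.map v ++ (L ++ v 1 :: K))) :
    WC ε K L v A B m k = WC ε K L' v A B m k := by
  have hK : ∀ a ∈ K, a ≠ 0 := fun a ha => h1.mem_ne0 (by simp [ha])
  have hL : ∀ a ∈ L, a ≠ 0 := fun a ha => h1.mem_ne0 (by simp [ha])
  have e1 : (Ic K.length L.length).map (fun t => exp (I * zc K L v t.1)) = K := by
    have := map_Ic1 (L := L) (v := v) hK
    rwa [List.map_map] at this
  have e2 : (Jc K.length L.length).map (fun t => exp (I * zc K L v t.1)) = L := by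
    have := map_Jc1 (K := K) (v := v) hL
    rwa [List.map_map] at this
  obtain ⟨X, hX, hX'⟩ := perm_map_ex _ hp _ e2
  have hO := ok_can (n := K.length) (m := L.length) hA hm hk
  have hA1 : (0 :: 1 :: A).Nodup := hA.sublist (by simp)
  have hB1 : (0 :: 1 :: B).Nodup := hA.sublist (by simp)
  have key := WL_permL hε hX hO (zc_pair K L v) (Gk_can1 hA1 h1) (Gk_can2 hB1 h2)
  have hp2 : (Ic K.length L.length ++ Jc K.length L.length).Perm (Ic K.length L.length ++ X) :=
    List.Perm.append_left _ hX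
  have hO2 := hO.perm hp2
  unfold WC
  rw [key]
  refine WL_eq_WC hε sc_inj (Gd_cons.1 hO2.gd).2.2 (fun j t ht => sc_ne j t ((hp2.mem_iff).2 ht)) hA hm
    hk (fun t ht => by rw [zc_pair K L v t ((hp2.mem_iff).2 ht)]) (fun j hj => ex_zcs ?_) e1 hX'
  rcases List.mem_cons.1 hj with rfl | hj
  · exact h1.mem_ne0 (by simp)
  rcases List.mem_cons.1 hj with rfl | hj
  · exact h2.mem_ne0 (by simp)
  rcases List.mem_append.1 hj with hj | hj
  · exact h1.mem_ne0 (List.mem_append_left _ (List.mem_map_of_mem hj))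
  · exact h2.mem_ne0 (List.mem_append_left _ (List.mem_map_of_mem hj))

end val

end Pool.Agent.NUT2
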