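import Pool.Agent.NUT2.FarTz
import Pool.Agent.NUU.Rot
import Pool.Agent.NUF.UTv

/-!
# The functional of the disc is fixed by the ring (U6)

`PH_T`: the functional of the half strip is fixed by the double column, for all generic rapidities.
`UD_ring`: the functional of the disc is fixed by the ring, for all generic rapidities; `udRing` is the same in the
form `NUU.UDRing`.
-/

set_option autoImplicit false

namespace Pool.Agent.NUT2

open _root_.Pool.Agent.EXL _root_.Pool.Agent.EXL.Pat Filter Topology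
open _root_.Pool.Agent.EXL.Fm (lam)
open _root_.Pool.Agent.NUF
open _root_.Pool.Agent.NUU
open Complex (I exp sin cos)

/-! ### Non-real points are regular -/

theorem sin_im {x : ℂ} (h : x.im ≠ 0) : Complex.sin x ≠ 0 := by
  intro h0
  obtain ⟨k, hk⟩ := Complex.sin_eq_zero_iff.1 h0
  apply h
  rw [hk]
  simp

theorem lam_im : (lam : ℂ).im = 0 := by
  unfold Fm.lam
  simp

theorem Dn_im {x : ℂ} (h : x.im ≠ 0) : Fm.Dn x ≠ 0 := by
  unfold Fm.Dn
  refine mul_ne_zero (sin_im ?_) (sin_im ?_)
  · simpa [lam_im] using h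
  · simpa [lam_im] using h

theorem okR_im {x : ℂ} (h : x.im ≠ 0) : okR x := (Fm.okR_iff x).2 (Dn_im h)

theorem okC_im {x : ℂ} (h : x.im ≠ 0) : okC x := by
  unfold okC Sn
  refine sin_im ?_
  simpa using h

/-! ### The double column -/

section T

variable {α : Type*} [DecidableEq α] {z : α → ℂ} {X : List α} {b c d : α} {u : ℂ}

/-- The additional condition on the rapidities. -/
noncomputable def PT (u : ℂ) (X : List α) (z : α → ℂ) : ℂ :=
  ∏ r ∈ X.toFinset, (Fm.Dn (u - z r) * Fm.Dn (3 * Real.pi / 8 - u - z r) *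
    Fm.Dn (3 * Real.pi / 16 - z r))

theorem PT_ne : PT u X z ≠ 0 ↔ ∀ r ∈ X, Fm.Dn (u - z r) ≠ 0 ∧ Fm.Dn (3 * Real.pi / 8 - u - z r) ≠ 0 ∧
    Fm.Dn (3 * Real.pi / 16 - z r) ≠ 0 := by
  unfold PT
  rw [Finset.prod_ne_zero_iff]
  simp only [List.mem_toFinset, mul_ne_zero_iff, and_assoc]

variable [Finite α]

/-- **The functional of the half strip is fixed by the double column**, all generic rapidities. -/
theorem PH_T (hn : (c :: d :: X).Nodup) (hb : b ∉ c :: d :: X) (k1 : okR (u - 3 * Real.pi / 16))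
    (k2 : okR (3 * Real.pi / 16 - u)) (k3 : okC u) (k4 : okC (3 * Real.pi / 8 - u)) (hG : Gz z X)
    (hP : PT u X z ≠ 0) : PH z X ∘ₗ uops.T z c d u X = PH z X := by
  have h1 := List.nodup_cons.1 hn
  have h2 := List.nodup_cons.1 h1.2
  have hcd : c ≠ d := fun e => h1.1 (by simp [e])
  have hc : c ∉ X := fun e => h1.1 (by simp [e])
  have hd : d ∉ X := h2.1
  have hnX : X.Nodup := h2.2
  have e : (uops (ι := α)).h + (uops (ι := α)).h = 3 * Real.pi / 8 := by rw [uops_h]; ring
  refine LinearMap.ext fun F => ?_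
  obtain ⟨r, hr0, hr⟩ := exists_NR α
  refine gz_ext (f := fun z => (PH z X ∘ₗ uops.T z c d u X) F) (g := fun z => PH z X F) hr0
    (P := PT u X) ?_ ?_ ?_ ?_ hG hP
  · intro w
    unfold PT
    refine Differentiable.fun_finsetProd fun q _ => ?_
    unfold Fm.Dn
    fun_prop
  · intro z hz hG hP
    have hGo := good_of hr hnX hz hG
    have h2 := PT_ne.1 hP
    have hV := VV_T (z := z) (v := u) hn hb k1 k2 k3 k4 (fun r hr => (Fm.okR_iff _).2 (h2 r hr).1)
      (fun r hr => (Fm.okR_iff _).2 (h2 r hr).2.1) (fun r hr => (Fm.okR_iff _).2 (h2 r hr).2.2)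
      (hGo.reg X (List.Sublist.refl _))
    rw [PH_good hcd _ X rfl hGo hc hd, LinearMap.smul_comp, hV]
  · intro w t hG hP
    have h2 := PT_ne.1 hP
    refine DtF.comp (PH_dt hnX (fun x _ => curve_diff w x t) hG) ?_ F
    have m1 : DtE (fun s => uops.M (fun i => z0 + s * w i) d u X) t :=
      dt_M (w := fun _ => u) (fun r hr => dt_R (fun e' : d = r => hd (by rw [e']; exact hr))
        ((differentiableAt_const _).sub (curve_diff w r t)) (h2 r hr).1)
    have m2 : DtE (fun s => uops.M (fun i => z0 + s * w i) c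
        ((uops (ι := α)).h + (uops (ι := α)).h - u) X) t :=
      dt_M (w := fun _ => (uops (ι := α)).h + (uops (ι := α)).h - u)
        (fun r hr => dt_R (fun e' : c = r => hc (by rw [e']; exact hr))
        ((differentiableAt_const _).sub (curve_diff w r t)) (by rw [e]; exact (h2 r hr).2.1))
    exact (((DtE.const _).mul m1).mul m2).mul (DtE.const _)
  · intro w t hG _
    exact PH_dt hnX (fun x _ => curve_diff w x t) hG F

/-! ### The limit -/

omit [Finite α] in
/-- **The double column far away is the ring.** -/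
theorem T_lim (z : α → ℂ) (X : List α) (hcd : c ≠ d) (hc : c ∉ X) (hd : d ∉ X) :
    LmE atTop (fun r : ℝ => uops.T (zb z r) c d (Real.pi / 4 - r * I) X) (farTz z 0 c d X) := by
  intro F p
  -- a radius
  set S : ℝ := 1 + ∑ k ∈ X.toFinset, ‖exp (I * z k)‖ with hS
  have hS0 : 0 ≤ ∑ k ∈ X.toFinset, ‖exp (I * z k)‖ := Finset.sum_nonneg fun k _ => norm_nonneg _
  have hS1 : 1 ≤ S := by rw [hS]; linarith
  have hSp : 0 < S := by linarith
  set ρ : ℝ := S⁻¹ with hρ
  have hρ0 : 0 < ρ := inv_pos.2 hSp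
  have hρ1 : ρ ≤ 1 := inv_le_one_of_one_le₀ hS1
  have hz : ∀ k ∈ X, ‖(ρ : ℂ) * exp (I * z k)‖ ≤ 1 := by
    intro k hk
    rw [norm_mul, Complex.norm_real, Real.norm_eq_abs, abs_of_pos hρ0, hρ, inv_mul_le_iff₀ hSp, mul_one]
    have : ‖exp (I * z k)‖ ≤ ∑ k ∈ X.toFinset, ‖exp (I * z k)‖ :=
      Finset.single_le_sum (f := fun k => ‖exp (I * z k)‖) (fun k _ => norm_nonneg _)
        (List.mem_toFinset.2 hk)
    rw [hS]
    linarith
  have hρne : (ρ : ℂ) ≠ 0 := by exact_mod_cast hρ0.ne'
  have hdb := db_farTz z hρ0 hρ1 c d X hz F p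
  have hcont : ContinuousAt (fun y => farTz z (ρ * y) c d X F p) 0 :=
    (hdb.differentiableAt (Metric.ball_mem_nhds 0 one_pos)).continuousAt
  have hy : Tendsto (fun r : ℝ => exp (2 * I * (r * I)) / (ρ : ℂ)) atTop (𝓝 0) := by
    rw [tendsto_zero_iff_norm_tendsto_zero]
    have e : (fun r : ℝ => ‖exp (2 * I * (r * I)) / (ρ : ℂ)‖) = fun r : ℝ => Real.exp (-(2 * r)) / ρ := by
      funext r
      rw [norm_div, Complex.norm_real, Real.norm_eq_abs, abs_of_pos hρ0, Complex.norm_exp]
      congr 2
      simp [Complex.mul_re, Complex.mul_im]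
    rw [e]
    have h1 : Tendsto (fun r : ℝ => Real.exp (-(2 * r))) atTop (𝓝 0) :=
      Real.tendsto_exp_neg_atTop_nhds_zero.comp (tendsto_id.const_mul_atTop two_pos)
    simpa using h1.div_const ρ
  have h1 := hcont.tendsto.comp hy
  simp only [mul_zero] at h1
  refine h1.congr' ?_
  have hev : ∀ᶠ r : ℝ in atTop, ∀ k ∈ X.toFinset, 0 < r + (z k).im / 2 := by
    rw [Filter.eventually_all_finset]
    intro k _
    filter_upwards [eventually_gt_atTop (-((z k).im / 2))] with r hr
    linarith
  filter_upwards [hev] with r hr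
  have e1 : (ρ : ℂ) * (exp (2 * I * (r * I)) / ρ) = exp (2 * I * (r * I)) := by
    field_simp
  have e2 : zb z r = fun k => (r : ℂ) * I + z k := by
    funext k
    unfold zb
    ring
  have him : ∀ k ∈ X, 0 < ((r : ℂ) * I + z k / 2).im := by
    intro k hk
    have := hr k (List.mem_toFinset.2 hk)
    simpa [Complex.add_im, Complex.mul_im] using this
  show farTz z (ρ * (exp (2 * I * (r * I)) / ρ)) c d X F p = _
  rw [e1, e2, uops_T_eq_z him hcd hc hd]

/-- **(U6) THE FUNCTIONAL OF THE DISC IS FIXED BY THE RING.** -/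
theorem UD_ring (hn : (c :: d :: X).Nodup) (hb : b ∉ c :: d :: X) (hG : Gz z X)
    (hok : ∀ j ∈ X, okR (Real.pi / 8 - z j)) : UD z X ∘ₗ rg z c d (Real.pi / 8) X = UD z X := by
  have h1 := List.nodup_cons.1 hn
  have h2 := List.nodup_cons.1 h1.2
  have hcd : c ≠ d := fun e => h1.1 (by simp [e])
  have hc : c ∉ X := fun e => h1.1 (by simp [e])
  have hd : d ∉ X := h2.1
  have hnX : X.Nodup := h2.2
  have L1 := PH_lim' z hnX
  have L2 := T_lim z X hcd hc hd
  have L4 : UD z X ∘ₗ farTz z 0 c d X = UD z X := by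
    refine (L1.comp L2).unique (L1.congr' ?_)
    have hev : ∀ᶠ r : ℝ in atTop, ∀ k ∈ X.toFinset, 0 < 2 * r + (z k).im ∧ 0 < r + (z k).im := by
      rw [Filter.eventually_all_finset]
      intro k _
      filter_upwards [eventually_gt_atTop (-((z k).im / 2)), eventually_gt_atTop (-(z k).im)] with r h3 h4
      constructor <;> linarith
    filter_upwards [hev, eventually_gt_atTop (0 : ℝ)] with r hr hr0
    have key : PH (zb z r) X ∘ₗ uops.T (zb z r) c d (Real.pi / 4 - r * I) X = PH (zb z r) X := by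
      refine PH_T hn hb ?_ ?_ ?_ ?_ (hG.zb r) (PT_ne.2 fun k hk => ⟨?_, ?_, ?_⟩)
      · refine okR_im ?_
        have : (Real.pi / 4 - r * I - 3 * Real.pi / 16 : ℂ).im = -r := by
          simp [Complex.sub_im, Complex.mul_im]
        rw [this]
        exact (neg_lt_zero.2 hr0).ne
      · refine okR_im ?_
        have : (3 * Real.pi / 16 - (Real.pi / 4 - r * I) : ℂ).im = r := by
          simp [Complex.sub_im, Complex.mul_im]
        rw [this]
        exact hr0.ne'
      · refine okC_im ?_
        have : (Real.pi / 4 - r * I : ℂ).im = -r := by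
          simp [Complex.sub_im, Complex.mul_im]
        rw [this]
        exact (neg_lt_zero.2 hr0).ne
      · refine okC_im ?_
        have : (3 * Real.pi / 8 - (Real.pi / 4 - r * I) : ℂ).im = r := by
          simp [Complex.sub_im, Complex.mul_im]
        rw [this]
        exact hr0.ne'
      · refine Dn_im ?_
        have := (hr k (List.mem_toFinset.2 hk)).1
        have e : (Real.pi / 4 - r * I - zb z r k : ℂ).im = -(2 * r + (z k).im) := by
          simp [zb, Complex.sub_im, Complex.mul_im]
          ring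
        rw [e]
        exact (neg_lt_zero.2 this).ne
      · have e : (3 * Real.pi / 8 - (Real.pi / 4 - r * I) - zb z r k : ℂ) = Real.pi / 8 - z k := by
          unfold zb
          ring
        rw [e]
        exact (Fm.okR_iff _).1 (hok k hk)
      · refine Dn_im ?_
        have := (hr k (List.mem_toFinset.2 hk)).2
        have e : (3 * Real.pi / 16 - zb z r k : ℂ).im = -(r + (z k).im) := by
          simp [zb, Complex.sub_im, Complex.mul_im]
          ring
        rw [e]
        exact (neg_lt_zero.2 this).ne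
    rw [LinearMap.smul_comp, key]
  refine LinearMap.ext fun F => ?_
  have hS := UD_sup (z := z) hnX hc hd hcd hG
  rw [LinearMap.comp_apply, ← hS.congr (F := farTz z 0 c d X F) (G := rg z c d (Real.pi / 8) X F)
    (fun p hp => farTz_zero hnX hcd hc hd F hp), ← LinearMap.comp_apply, L4]

/-- **(U6)** in the form used by the rotation. -/
theorem udRing (hn : (c :: d :: X).Nodup) (hb : b ∉ c :: d :: X) : UDRing c d X :=
  fun _ hG hok => UD_ring hn hb hG hok

end T

end Pool.Agent.NUT2
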