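import Pool.Agent.NUF.PBil
import Pool.Agent.NUF.PRen

/-!
# Pairing with ended lines: words

Local identities for a line which ends at the puncture `f`: `oo ν i` = the site `i` is occupied.
-/

set_option autoImplicit false

namespace Pool.Agent.NUT2

open Pool.Agent.NUF Pool.Agent

section unl

variable {α β : Type*} [DecidableEq β] {φ : α → β}

theorem u_UE {i j : α} (h : φ i ≠ φ j) :
    rep0 ℂ φ (wU i j * we i) = rep0 ℂ φ (we i * we j) := by
  refine LinearMap.ext fun F => ?_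
  funext p
  rw [map_mul, map_mul, Module.End.mul_apply, Module.End.mul_apply, rep0_U, rep0_e, rep0_e]
  by_cases h1 : p (φ i) = φ i
  · by_cases h2 : p (φ j) = φ j
    · have hc : EXL.Pat.CuOK (φ i) (φ j) p := ⟨h1, h2⟩
      have e1 : EXL.Pat.cup (φ i) (φ j) p (φ i) = φ j := by rw [EXL.cup_apply hc, if_pos rfl]
      rw [EXL.U_0 h1 h2 rfl, EXL.opE_apply, EXL.opE_apply, EXL.opE_apply, EXL.opE_apply,
        if_pos h1, if_pos h2, if_pos h1, if_neg (by rw [e1]; exact h.symm), add_zero]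
    · rw [EXL.U_z (Or.inr h2), EXL.opE_apply, EXL.opE_apply, if_pos h1, if_neg h2]
  · rw [EXL.U_z (Or.inl h1), EXL.opE_apply, if_neg h1]

theorem u_RE (w : EXL.Wt ℂ) {i j : α} (h : φ i ≠ φ j) :
    rep0 ℂ φ (wR w i j * (we i * wo j)) =
      rep0 ℂ φ (w.v • (we i * wo j) + w.u1 • (wo i * we j * wsw i j)) := by
  refine LinearMap.ext fun F => ?_
  funext p
  rw [map_mul, Module.End.mul_apply, rep0_R φ w h]
  simp only [map_add, map_mul, map_smul, rep0_e, rep0_o, rep0_sw, LinearMap.add_apply,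
    LinearMap.smul_apply, Module.End.mul_apply, Pi.add_apply, Pi.smul_apply, smul_eq_mul]
  have sw1 : EXL.Pat.swap (φ i) (φ j) p (φ i) = φ i ↔ p (φ j) = φ j := by
    rw [EXL.swap_apply, Equiv.swap_apply_left, Equiv.swap_apply_eq_iff, Equiv.swap_apply_left]
  have sw2 : EXL.Pat.swap (φ i) (φ j) p (φ j) = φ j ↔ p (φ i) = φ i := by
    rw [EXL.swap_apply, Equiv.swap_apply_right, Equiv.swap_apply_eq_iff, Equiv.swap_apply_right]
  by_cases h1 : p (φ i) = φ i
  · by_cases h2 : p (φ j) = φ j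
    · have hc : EXL.Pat.CuOK (φ i) (φ j) p := ⟨h1, h2⟩
      have e1 : EXL.Pat.cup (φ i) (φ j) p (φ i) = φ j := by rw [EXL.cup_apply hc, if_pos rfl]
      rw [EXL.R_e h1 h2 rfl]
      simp only [EXL.opE_apply, EXL.opO_apply, EXL.opSw_apply]
      rw [if_pos h1, if_pos h2, if_neg (by rw [e1]; exact h.symm), if_pos h1]
      ring
    · rw [EXL.R_r h1 h2 rfl]
      simp only [EXL.opE_apply, EXL.opO_apply, EXL.opSw_apply]
      rw [if_pos h1, if_neg h2, if_neg (fun e => h2 (sw1.1 e)), if_pos h1]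
  · by_cases h2 : p (φ j) = φ j
    · rw [EXL.R_l h1 h2 rfl]
      simp only [EXL.opE_apply, EXL.opO_apply, EXL.opSw_apply]
      rw [if_neg h1, if_pos (sw1.2 h2), if_neg (fun e => h1 (sw2.1 e)), if_neg h1, if_pos h2]
    · by_cases h3 : p (φ i) = φ j
      · rw [EXL.R_p h h3]
        simp only [EXL.opE_apply, EXL.opO_apply, EXL.opSw_apply]
        rw [if_neg h1, if_neg h1, if_neg h2]
        ring
      · have hct : EXL.Pat.CtOK (φ i) (φ j) p := ⟨h, h1, h2, h3⟩
        have e1 : EXL.Pat.cut (φ i) (φ j) p (φ j) = φ j := by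
          rw [EXL.cut_apply hct, if_neg h.symm, if_pos rfl]
        have e0 : EXL.Pat.cut (φ i) (φ j) p (φ i) = φ i := by
          rw [EXL.cut_apply hct, if_pos rfl]
        have e2 : EXL.Pat.cup (φ i) (φ j) (EXL.Pat.cut (φ i) (φ j) p) (φ i) = φ j := by
          rw [EXL.cup_apply ⟨e0, e1⟩, if_pos rfl]
        rw [EXL.R_d h1 h2 h3 rfl rfl rfl]
        simp only [EXL.opE_apply, EXL.opO_apply, EXL.opSw_apply]
        have c1 : ¬ EXL.Pat.cup (φ i) (φ j) (EXL.Pat.cut (φ i) (φ j) p) (φ i) = φ i := by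
          rw [e2]; exact h.symm
        rw [if_neg (fun e => h2 (sw1.1 e)), if_pos e0, if_pos e1, if_neg c1, if_neg h1, if_neg h1,
          if_neg h2]
        ring

theorem u_YO (x : ℂ) {a b : α} (h : φ a ≠ φ b) :
    rep0 ℂ φ (wY x a b * (wo a * we b)) = rep0 ℂ φ (x • (wo a * we b)) := by
  refine LinearMap.ext fun F => ?_
  funext p
  rw [map_mul, Module.End.mul_apply, rep0_Y]
  simp only [map_mul, map_smul, rep0_e, rep0_o, LinearMap.smul_apply, Module.End.mul_apply,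
    Pi.smul_apply, smul_eq_mul]
  have sw2 : EXL.Pat.swap (φ a) (φ b) p (φ b) = φ b ↔ p (φ a) = φ a := by
    rw [EXL.swap_apply, Equiv.swap_apply_right, Equiv.swap_apply_eq_iff, Equiv.swap_apply_right]
  by_cases h2 : p (φ b) = φ b
  · by_cases h1 : p (φ a) = φ a
    · have hc : EXL.Pat.CuOK (φ a) (φ b) p := ⟨h1, h2⟩
      have e1 : EXL.Pat.cup (φ a) (φ b) p (φ b) = φ a := by
        rw [EXL.cup_apply hc, if_neg h.symm, if_pos rfl]
      rw [EXL.Y_0 h2 h1 rfl]
      simp only [EXL.opE_apply, EXL.opO_apply]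
      rw [if_pos h1, if_neg (show ¬ EXL.Pat.cup (φ a) (φ b) p (φ b) = φ b by rw [e1]; exact h),
        ite_self]
      ring
    · rw [EXL.Y_1 h2 h1 rfl]
      simp only [EXL.opE_apply, EXL.opO_apply]
      rw [if_neg h1, if_pos h2, if_neg (fun e => h1 (sw2.1 e)), ite_self]
      ring
  · rw [EXL.Y_z h2]
    simp only [EXL.opE_apply, EXL.opO_apply]
    rw [if_neg h2, ite_self]
    ring

theorem u_YE (x : ℂ) {a b : α} (h : φ a ≠ φ b) :
    rep0 ℂ φ (wY x a b * (we a * wo b)) = rep0 ℂ φ (x • (wo a * we b * wsw a b)) := by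
  refine LinearMap.ext fun F => ?_
  funext p
  rw [map_mul, Module.End.mul_apply, rep0_Y]
  simp only [map_mul, map_smul, rep0_e, rep0_o, rep0_sw, LinearMap.smul_apply, Module.End.mul_apply,
    Pi.smul_apply, smul_eq_mul]
  have sw1 : EXL.Pat.swap (φ a) (φ b) p (φ a) = φ a ↔ p (φ b) = φ b := by
    rw [EXL.swap_apply, Equiv.swap_apply_left, Equiv.swap_apply_eq_iff, Equiv.swap_apply_left]
  have sw2 : EXL.Pat.swap (φ a) (φ b) p (φ b) = φ b ↔ p (φ a) = φ a := by
    rw [EXL.swap_apply, Equiv.swap_apply_right, Equiv.swap_apply_eq_iff, Equiv.swap_apply_right]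
  by_cases h2 : p (φ b) = φ b
  · by_cases h1 : p (φ a) = φ a
    · have hc : EXL.Pat.CuOK (φ a) (φ b) p := ⟨h1, h2⟩
      have e1 : EXL.Pat.cup (φ a) (φ b) p (φ a) = φ b := by
        rw [EXL.cup_apply hc, if_pos rfl]
      rw [EXL.Y_0 h2 h1 rfl]
      simp only [EXL.opE_apply, EXL.opO_apply, EXL.opSw_apply]
      rw [if_pos h1, if_pos h2, if_neg (show ¬ EXL.Pat.cup (φ a) (φ b) p (φ a) = φ a by
        rw [e1]; exact h.symm), if_pos h1]
      ring
    · rw [EXL.Y_1 h2 h1 rfl]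
      simp only [EXL.opE_apply, EXL.opO_apply, EXL.opSw_apply]
      rw [if_neg h1, if_pos (sw1.2 h2), if_neg (fun e => h1 (sw2.1 e)), if_neg h1, if_pos h2]
      ring
  · rw [EXL.Y_z h2]
    simp only [EXL.opE_apply, EXL.opO_apply, EXL.opSw_apply]
    rw [if_neg h2, ite_self]
    ring

end unl

section lab

variable {Γ ι : Type*} [AddCommGroup Γ] [DecidableEq ι] {ν : Γ → ℂ}

/-- The site `i` is occupied. -/
noncomputable def oo (ν : Γ → ℂ) (i : ι) : Module.End ℂ (LPat Γ ι → ℂ) := 1 - (cops ν).E i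

theorem oo_eq (i : ι) : oo ν i = repL ν id (wo i) := by
  rw [wo, map_sub, map_one]
  rfl

theorem oo_apply (i : ι) (F : LPat Γ ι → ℂ) (p : LPat Γ ι) :
    oo ν i F p = if p i = i then 0 else F p := by
  have e1 : (cops (Γ := Γ) ν).E i = lE Γ ℂ i := by
    show repL ν id (we i) = _
    rw [repL, we, FreeAlgebra.lift_ι_apply]
    rfl
  show F p - (cops (Γ := Γ) ν).E i F p = _
  rw [e1, lE_apply]
  split_ifs <;> ring

theorem E_oo (i : ι) : (cops (Γ := Γ) ν).E i * oo ν i = 0 := by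
  refine LinearMap.ext fun F => ?_
  funext p
  have e1 : (cops (Γ := Γ) ν).E i = lE Γ ℂ i := by
    show repL ν id (we i) = _
    rw [repL, we, FreeAlgebra.lift_ι_apply]
    rfl
  rw [Module.End.mul_apply, e1, lE_apply, oo_apply]
  split_ifs <;> rfl

end lab

section laws

variable {Γ ι : Type*} [AddCommGroup Γ] [DecidableEq ι] [Finite ι] {ν : Γ → ℂ}
  (hν : ∀ g, ν (-g) = ν g) (h0 : ν 0 = 0)

include hν h0

theorem U_symm (i j : ι) : (cops (Γ := Γ) ν).U i j = (cops ν).U j i := by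
  show repL ν id (if i = j then 0 else wU i j) = repL ν id (if j = i then 0 else wU j i)
  by_cases h : i = j
  · rw [if_pos h, if_pos h.symm]
  rw [if_neg h, if_neg (Ne.symm h)]
  refine transfer hν h0 ?_
  refine LinearMap.ext fun F => ?_
  funext p
  rw [rep0_U, rep0_U]
  by_cases h1 : p (Sum.inl i) = Sum.inl i
  · by_cases h2 : p (Sum.inl j) = Sum.inl j
    · rw [EXL.U_0 h1 h2 rfl, EXL.U_0 h2 h1 rfl]
      congr 2
      have hc : EXL.Pat.CuOK (Sum.inl i) (Sum.inl j) p := ⟨h1, h2⟩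
      have hc' : EXL.Pat.CuOK (Sum.inl j) (Sum.inl i) p := ⟨h2, h1⟩
      ext x
      rw [EXL.cup_apply hc, EXL.cup_apply hc']
      by_cases e1 : x = Sum.inl i
      · have e2 : x ≠ Sum.inl j := fun e => h (Sum.inl_injective (e1.symm.trans e))
        rw [if_pos e1, if_neg e2, if_pos e1]
      · rw [if_neg e1]
        by_cases e2 : x = Sum.inl j
        · rw [if_pos e2, if_pos e2]
        · rw [if_neg e2, if_neg e2, if_neg e1]
    · rw [EXL.U_z (Or.inr h2), EXL.U_z (Or.inl h2)]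
  · rw [EXL.U_z (Or.inl h1), EXL.U_z (Or.inr h1)]

theorem UE {i j : ι} (h : i ≠ j) :
    (cops (Γ := Γ) ν).U i j * (cops ν).E i = (cops ν).E i * (cops ν).E j := by
  show repL ν id (if i = j then 0 else wU i j) * repL ν id (we i) = repL ν id (we i) * repL ν id (we j)
  rw [if_neg h, ← map_mul, ← map_mul]
  exact transfer hν h0 (u_UE (by simpa using h))

theorem RE (w : ℂ) {i j : ι} (h : i ≠ j) :
    (cops (Γ := Γ) ν).R i j w * ((cops ν).E i * oo ν j) =
      (EXL.rwt w).v • ((cops ν).E i * oo ν j) +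
        (EXL.rwt w).u1 • (oo ν i * (cops ν).E j * (cops ν).P i j) := by
  rw [oo_eq, oo_eq]
  show repL ν id (if i = j then 0 else wR (EXL.rwt w) i j) * (repL ν id (we i) * repL ν id (wo j)) =
    (EXL.rwt w).v • (repL ν id (we i) * repL ν id (wo j)) +
      (EXL.rwt w).u1 • (repL ν id (wo i) * repL ν id (we j) * repL ν id (wsw i j))
  rw [if_neg h, ← map_mul, ← map_mul, ← map_mul, ← map_mul, ← map_smul, ← map_smul, ← map_add]
  exact transfer hν h0 (u_RE _ (by simpa using h))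

theorem YO {a b : ι} (h : a ≠ b) :
    (cops (Γ := Γ) ν).Y a b * (oo ν a * (cops ν).E b) = EXL.xh • (oo ν a * (cops ν).E b) := by
  rw [oo_eq]
  show repL ν id (if a = b then 0 else wY EXL.xh a b) * (repL ν id (wo a) * repL ν id (we b)) =
    EXL.xh • (repL ν id (wo a) * repL ν id (we b))
  rw [if_neg h, ← map_mul, ← map_mul, ← map_smul]
  exact transfer hν h0 (u_YO _ (by simpa using h))

theorem YE {a b : ι} (h : a ≠ b) :
    (cops (Γ := Γ) ν).Y a b * ((cops ν).E a * oo ν b) =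
      EXL.xh • (oo ν a * (cops ν).E b * (cops ν).P a b) := by
  rw [oo_eq, oo_eq]
  show repL ν id (if a = b then 0 else wY EXL.xh a b) * (repL ν id (we a) * repL ν id (wo b)) =
    EXL.xh • (repL ν id (wo a) * repL ν id (we b) * repL ν id (wsw a b))
  rw [if_neg h, ← map_mul, ← map_mul, ← map_mul, ← map_mul, ← map_smul]
  exact transfer hν h0 (u_YE _ (by simpa using h))

end laws

section Gf

variable {Γ ι : Type*} [AddCommGroup Γ] [DecidableEq ι] {ν : Γ → ℂ}

/-- All lines of `L` are glued; the line at `m` ends at `f`, the line at `q` ends at `f'`. -/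
noncomputable def Gf (ν : Γ → ℂ) (m q : ι) (L : List (ι × ι)) : LPat Γ ι → ℂ :=
  oo ν m (gm ν ((m, q) :: L))

theorem comm_E_glue {i a b : ι} (h1 : i ≠ a) (h2 : i ≠ b) :
    Commute ((cops (Γ := Γ) ν).E i) ((cops ν).glue a b) := by
  have e1 : (cops (Γ := Γ) ν).E i = lE Γ ℂ i := by
    show repL ν id (we i) = _
    rw [repL, we, FreeAlgebra.lift_ι_apply]
    rfl
  rw [e1, glueL]
  split_ifs
  · exact Commute.zero_right _
  · exact ((comm_E_E _ _).mul_right (comm_E_E _ _)).add_right (comm_E_Ct h1 h2)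

theorem comm_EE (i j : ι) : Commute ((cops (Γ := Γ) ν).E i) ((cops ν).E j) := by
  have e1 : ∀ i : ι, (cops (Γ := Γ) ν).E i = lE Γ ℂ i := by
    intro i
    show repL ν id (we i) = _
    rw [repL, we, FreeAlgebra.lift_ι_apply]
    rfl
  rw [e1, e1]
  exact comm_E_E _ _

theorem comm_oo_glue {i a b : ι} (h1 : i ≠ a) (h2 : i ≠ b) :
    Commute (oo ν i) ((cops (Γ := Γ) ν).glue a b) :=
  (Commute.one_left _).sub_left (comm_E_glue h1 h2)

theorem comm_oo_E (i j : ι) : Commute (oo ν i) ((cops (Γ := Γ) ν).E j) :=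
  (Commute.one_left _).sub_left (comm_EE i j)

theorem comm_oo_Tw (χ : ι → Γ) (i : ι) : Commute (Tw χ) (oo ν i) :=
  (Commute.one_right _).sub_right (tE χ i)

theorem E_dl (i : ι) : (cops (Γ := Γ) ν).E i (dl Γ ι) = dl Γ ι := by
  have e1 : (cops (Γ := Γ) ν).E i = lE Γ ℂ i := by
    show repL ν id (we i) = _
    rw [repL, we, FreeAlgebra.lift_ι_apply]
    rfl
  funext p
  rw [e1, lE_apply]
  by_cases h : p i = i
  · rw [if_pos h]
  · rw [if_neg h]
    unfold dl
    rw [if_neg]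
    rintro rfl
    exact h rfl

theorem E_gm {i : ι} {L : List (ι × ι)} (h : ∀ t ∈ L, i ≠ t.1 ∧ i ≠ t.2) :
    (cops ν).E i (gm ν L) = gm ν L := by
  induction L with
  | nil => exact E_dl i
  | cons s L ih =>
    have h1 := h s (by simp)
    rw [gm_cons, ← Module.End.mul_apply, (comm_E_glue h1.1 h1.2).eq, Module.End.mul_apply,
      ih fun s hs => h s (by simp [hs])]

theorem Gf_cons (hν : ∀ g, ν (-g) = ν g) {m q : ι} {t : ι × ι} {L : List (ι × ι)} (h1 : m ≠ t.1)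
    (h2 : m ≠ t.2) (h3 : q ≠ t.1) (h4 : q ≠ t.2) :
    Gf ν m q (t :: L) = (cops ν).glue t.1 t.2 (Gf ν m q L) := by
  have k : oo ν m * ((cops (Γ := Γ) ν).glue m q * (cops ν).glue t.1 t.2) =
      (cops ν).glue t.1 t.2 * (oo ν m * (cops ν).glue m q) := by
    rw [(comm_glue hν h1 h2 h3 h4).eq, ← mul_assoc, (comm_oo_glue h1 h2).eq, mul_assoc]
  unfold Gf
  rw [gm_cons, gm_cons, gm_cons]
  exact congrArg (fun x : Module.End ℂ (LPat Γ ι → ℂ) => x (gm ν L)) k

theorem E_Gf {m q i : ι} {L : List (ι × ι)} (h1 : i ≠ m) (h2 : i ≠ q)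
    (h : ∀ t ∈ L, i ≠ t.1 ∧ i ≠ t.2) : (cops ν).E i (Gf ν m q L) = Gf ν m q L := by
  unfold Gf
  rw [← Module.End.mul_apply, ← (comm_oo_E m i).eq, Module.End.mul_apply, E_gm]
  intro t ht
  rcases List.mem_cons.1 ht with rfl | ht
  · exact ⟨h1, h2⟩
  · exact h t ht

theorem oo_oo (i : ι) : oo ν i * oo ν i = oo (Γ := Γ) ν i := by
  refine LinearMap.ext fun F => ?_
  funext p
  rw [Module.End.mul_apply, oo_apply, oo_apply]
  split_ifs <;> rfl

theorem oo_Gf (m q : ι) (L : List (ι × ι)) : oo ν m (Gf ν m q L) = Gf ν m q L := by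
  unfold Gf
  rw [← Module.End.mul_apply, oo_oo]

theorem Gf_perm (hν : ∀ g, ν (-g) = ν g) {m q : ι} {L L' : List (ι × ι)}
    (hL : Gd ((m, q) :: L)) (hp : L.Perm L') : Gf ν m q L = Gf ν m q L' := by
  unfold Gf
  rw [gm_perm hν hL (hp.cons _)]

end Gf

section pairing

variable {Γ ι : Type*} [AddCommGroup Γ] [DecidableEq ι] {ν : Γ → ℂ} {S S' : Set ι}
  {V V' : Fnl ι} {χ : ι → Γ}

/-- **The pairing with one ended line**: `V` and `V'` are the functionals of the two half planes, the lines of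
`L` pass through both, one line ends at `m` at the puncture `f` and at `q` at the puncture `f'`. -/
noncomputable def Wp (ν : Γ → ℂ) (χ : ι → Γ) (V V' : Fnl ι) (m q : ι) (L : List (ι × ι)) : ℂ :=
  pr Γ V V' (Tw χ (Gf ν m q L))

theorem Wp_perm (hν : ∀ g, ν (-g) = ν g) {m q : ι} {L L' : List (ι × ι)}
    (hL : Gd ((m, q) :: L)) (hp : L.Perm L') : Wp ν χ V V' m q L = Wp ν χ V V' m q L' := by
  unfold Wp
  rw [Gf_perm hν hL hp]

theorem pr_E (h0 : ν 0 = 0) (hV : SupS S V) (hV' : SupS S' V') (hd : Disjoint S S') {i : ι}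
    (h1 : i ∉ S) (h2 : i ∉ S') (F : LPat Γ ι → ℂ) :
    pr Γ V V' ((cops ν).E i F) = pr Γ V V' F := by
  have q3 : On S'ᶜ (cw.E i) := On.cE h2
  have := pr_left h0 hV hV' hd q3 F
  rw [show V ∘ₗ rep0 ℂ id (cw.E i) = V from hV.E h1] at this
  exact this.symm

variable [Finite ι] (hν : ∀ g, ν (-g) = ν g) (h0 : ν 0 = 0)

include hν h0

/-- The operator identity of the node at an occupied end. -/
theorem UooG {r q x x' : ι} (h1 : r ≠ q) (h2 : r ≠ x) (h3 : r ≠ x') (h4 : q ≠ x) (h5 : q ≠ x')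
    (h6 : x ≠ x') :
    (cops (Γ := Γ) ν).U x r * (oo ν r * ((cops ν).glue r q * (cops ν).glue x x')) =
      (cops ν).E r * (cops ν).E x * (oo ν x' * (cops ν).glue x' q) * (cops ν).P r x' := by
  have W := laws (ι := ι) hν h0
  rw [U_symm hν h0]
  set s := cops (ι := ι) ν with hs
  have a1 : s.U r x * s.glue x x' = s.E r * s.E x * s.P r x' := UG hν h0 h2 h3 h6
  have a2 : s.U r x * s.E r = s.E r * s.E x := UE hν h0 h2
  have a3 : Commute (s.glue r q) (s.glue x x') := comm_glue hν h2 h3 h4 h5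
  have a4 : s.P r x' * s.glue r q = s.glue x' q * s.P r x' := W.Pglue h3 h1 (Ne.symm h5)
  have a5 : s.E r * s.glue r q = s.E q * s.E r := E_glue h1
  have a6 : s.E x * s.glue x x' = s.E x' * s.E x := E_glue h6
  have a7 : s.E x' * s.glue x' q = s.E q * s.E x' := E_glue (Ne.symm h5)
  have a8 : Commute (s.E x) (s.glue r q) := comm_E_glue (Ne.symm h2) (Ne.symm h4)
  have a9 : s.E r * s.E x' * s.P r x' = s.E r * s.E x' := W.PE h3
  have cE : ∀ a b : ι, s.E a * s.E b = s.E b * s.E a := fun a b => (comm_EE a b).eq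
  have lhs : s.U r x * (oo ν r * (s.glue r q * s.glue x x')) =
      s.E r * s.E x * s.glue x' q * s.P r x' - s.E r * s.E x * s.E q * s.E x' := by
    have e1 : s.U r x * (s.glue r q * s.glue x x') = s.E r * s.E x * s.glue x' q * s.P r x' := by
      rw [a3.eq, ← mul_assoc, a1, mul_assoc, a4]
      simp only [mul_assoc]
    have e2 : s.U r x * s.E r * (s.glue r q * s.glue x x') = s.E r * s.E x * s.E q * s.E x' := by
      rw [a2]
      calc s.E r * s.E x * (s.glue r q * s.glue x x')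
          = s.E r * (s.E x * s.glue r q) * s.glue x x' := by simp only [mul_assoc]
        _ = (s.E r * s.glue r q) * (s.E x * s.glue x x') := by rw [a8.eq]; simp only [mul_assoc]
        _ = s.E q * (s.E r * s.E x') * s.E x := by rw [a5, a6]; simp only [mul_assoc]
        _ = s.E q * s.E x' * (s.E r * s.E x) := by
            rw [cE r x']; simp only [mul_assoc]
        _ = (s.E r * s.E x) * (s.E q * s.E x') := by
            have c : Commute (s.E q * s.E x') (s.E r * s.E x) :=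
              ((comm_EE q r).mul_right (comm_EE q x)).mul_left
                ((comm_EE x' r).mul_right (comm_EE x' x))
            rw [c.eq]
        _ = _ := by simp only [mul_assoc]
    show s.U r x * ((1 - s.E r) * (s.glue r q * s.glue x x')) = _
    rw [sub_mul, one_mul, mul_sub, e1, ← e2]
    simp only [mul_assoc]
  have rhs : s.E r * s.E x * (oo ν x' * s.glue x' q) * s.P r x' =
      s.E r * s.E x * s.glue x' q * s.P r x' - s.E r * s.E x * s.E q * s.E x' := by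
    have e2 : s.E r * s.E x * (s.E x' * s.glue x' q) * s.P r x' =
        s.E r * s.E x * s.E q * s.E x' := by
      rw [a7]
      calc s.E r * s.E x * (s.E q * s.E x') * s.P r x'
          = s.E x * s.E q * (s.E r * s.E x' * s.P r x') := by
            rw [cE r x, mul_assoc (s.E x), ← mul_assoc (s.E r), cE r q]
            simp only [mul_assoc]
        _ = s.E x * s.E q * s.E r * s.E x' := by rw [a9]; simp only [mul_assoc]
        _ = _ := by
            rw [mul_assoc (s.E x), cE q r, ← mul_assoc, cE x r]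
    show s.E r * s.E x * ((1 - s.E x') * s.glue x' q) * s.P r x' = _
    rw [sub_mul, one_mul, mul_sub, sub_mul, e2]
  rw [lhs, rhs]

/-- **Node at an occupied end.** -/
theorem node_o (hV : SupS S V) (hV' : SupS S' V') (hd : Disjoint S S') {r q x x' : ι}
    {L : List (ι × ι)} (hL : Gd ((r, q) :: (x, x') :: L)) (hr : r ∉ S) (hx : x ∉ S) (hr' : r ∉ S')
    (hx' : x ∉ S') (hχ : χ x = χ r) :
    Wp ν χ (V ∘ₗ uops.U x r) V' r q ((x, x') :: L) = Wp ν χ V V' x' q L := by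
  have W := laws (ι := ι) hν h0
  obtain ⟨e1, e2, e3⟩ := Gd_cons.1 hL
  obtain ⟨e4, e5, e6, e7⟩ := e2 (x, x') (by simp)
  obtain ⟨e8, e9, -⟩ := Gd_cons.1 e3
  simp only at e1 e4 e5 e6 e7 e8
  have q1 : On S'ᶜ (cw.U x r) := On.cU hx' hr'
  unfold Wp
  show pr Γ (V ∘ₗ rep0 ℂ id (cw.U x r)) V' _ = _
  rw [pr_left h0 hV hV' hd q1]
  show pr Γ V V' ((cops ν).U x r (Tw χ (oo ν r (gm ν ((r, q) :: (x, x') :: L))))) = _
  have key : (cops ν).U x r (Tw χ (oo ν r (gm ν ((r, q) :: (x, x') :: L)))) =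
      (cops ν).E r ((cops ν).E x (Tw χ (Gf ν x' q L))) := by
    have k := UooG hν h0 (r := r) (q := q) (x := x) (x' := x') e1 e4 e5 e6 e7 e8
    have c1 : Commute (Tw χ) ((cops ν).U x r) := tU hχ
    have c2 : Commute (Tw χ) ((cops ν).E r * (cops ν).E x) := (tE χ r).mul_right (tE χ x)
    have kk : (cops ν).U x r * Tw χ * (oo ν r * ((cops ν).glue r q * (cops ν).glue x x')) =
        (cops ν).E r * (cops ν).E x * Tw χ * (oo ν x' * (cops ν).glue x' q) * (cops ν).P r x' := by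
      rw [← c1.eq, mul_assoc, k, ← c2.eq]
      simp only [mul_assoc]
    have k3 := congrArg (fun x : Module.End ℂ (LPat Γ ι → ℂ) => x (gm ν L)) kk
    simp only [Module.End.mul_apply] at k3
    rw [P_gm] at k3
    · rw [gm_cons, gm_cons]
      unfold Gf
      rw [gm_cons]
      exact k3
    · intro t ht
      have f1 := e2 t (by simp [ht])
      have f2 := e9 t ht
      exact ⟨f1.1, f1.2.1, f2.2.2.1, f2.2.2.2⟩
  rw [key, pr_E h0 hV hV' hd hr hr', pr_E h0 hV hV' hd hx hx']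

/-- **Node at an empty end.** -/
theorem node_e (hV : SupS S V) (hV' : SupS S' V') (hd : Disjoint S S') {r m q x x' : ι}
    {L : List (ι × ι)} (hL : Gd ((m, q) :: (x, x') :: L)) (h1 : r ≠ m) (h2 : r ≠ q) (h3 : r ≠ x)
    (h4 : r ≠ x') (h5 : ∀ t ∈ L, r ≠ t.1 ∧ r ≠ t.2) (hr : r ∉ S) (hx : x ∉ S)
    (hr' : r ∉ S') (hx' : x ∉ S') :
    Wp ν χ (V ∘ₗ uops.U x r) V' m q ((x, x') :: L) = Wp ν χ V V' m q L := by
  obtain ⟨e1, e2, e3⟩ := Gd_cons.1 hL
  obtain ⟨e4, e5, e6, e7⟩ := e2 (x, x') (by simp)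
  obtain ⟨e8, e9, -⟩ := Gd_cons.1 e3
  simp only at e1 e4 e5 e6 e7 e8
  have q1 : On S'ᶜ (cw.U x r) := On.cU hx' hr'
  unfold Wp
  show pr Γ (V ∘ₗ rep0 ℂ id (cw.U x r)) V' _ = _
  rw [pr_left h0 hV hV' hd q1]
  show pr Γ V V' ((cops ν).U x r (Tw χ (Gf ν m q ((x, x') :: L)))) = _
  have g1 : (cops ν).E r (Tw χ (Gf ν m q ((x, x') :: L))) = Tw χ (Gf ν m q ((x, x') :: L)) := by
    rw [← Module.End.mul_apply, ← (tE χ r).eq, Module.End.mul_apply, E_Gf h1 h2]
    intro t ht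
    rcases List.mem_cons.1 ht with rfl | ht
    · exact ⟨h3, h4⟩
    · exact h5 t ht
  have a2 : (cops (Γ := Γ) ν).U x r * (cops ν).E r = (cops ν).E r * (cops ν).E x := by
    rw [U_symm hν h0]
    exact UE hν h0 h3
  have key : (cops ν).U x r (Tw χ (Gf ν m q ((x, x') :: L))) =
      (cops ν).E r ((cops ν).E x (Tw χ (Gf ν m q L))) := by
    rw [← g1, ← Module.End.mul_apply, a2, Module.End.mul_apply]
    congr 1
    rw [Gf_cons hν e4 e5 e6 e7, ← Module.End.mul_apply, ← Module.End.mul_apply, ← (tE χ x).eq,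
      mul_assoc, E_glue e8, ← mul_assoc, (tE χ x').eq, mul_assoc, (tE χ x).eq]
    rw [← mul_assoc, (comm_EE x' x).eq, mul_assoc, Module.End.mul_apply, Module.End.mul_apply]
    congr 1
    rw [← Module.End.mul_apply, ← (tE χ x').eq, Module.End.mul_apply,
      E_Gf (Ne.symm e5) (Ne.symm e7)]
    intro t ht
    exact ⟨(e9 t ht).2.2.1, (e9 t ht).2.2.2⟩
  rw [key, pr_E h0 hV hV' hd hr hr', pr_E h0 hV hV' hd hx hx']

/-- Two neighbouring ends: the rhombus. -/
theorem ends_R (hV : SupS S V) (hV' : SupS S' V') (hd : Disjoint S S') {a b q : ι}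
    {L : List (ι × ι)} (hL : Gd ((b, q) :: L)) (hab : a ≠ b) (haq : a ≠ q)
    (haL : ∀ t ∈ L, a ≠ t.1 ∧ a ≠ t.2) (ha : a ∈ S) (hb : b ∈ S) (hχ : χ a = χ b) (w : ℂ) :
    Wp ν χ (V ∘ₗ uops.R a b w) V' b q L =
      (EXL.rwt w).v * Wp ν χ V V' b q L + (EXL.rwt w).u1 * Wp ν χ V V' a q L := by
  have W := laws (ι := ι) hν h0
  obtain ⟨e1, e2, e3⟩ := Gd_cons.1 hL
  simp only at e1
  have q1 : On S'ᶜ (cw.R a b w) := On.cR (T := S'ᶜ) (fun h => Set.disjoint_left.1 hd ha h)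
    (fun h => Set.disjoint_left.1 hd hb h) w
  unfold Wp
  show pr Γ (V ∘ₗ rep0 ℂ id (cw.R a b w)) V' _ = _
  rw [pr_left h0 hV hV' hd q1]
  show pr Γ V V' ((cops ν).R a b w (Tw χ (Gf ν b q L))) = _
  have key : (cops ν).R a b w (Tw χ (Gf ν b q L)) =
      (EXL.rwt w).v • Tw χ (Gf ν b q L) + (EXL.rwt w).u1 • Tw χ (Gf ν a q L) := by
    have k := RE hν h0 w hab
    have c1 : Commute (Tw χ) ((cops ν).R a b w) := tR hχ w
    have g1 : (cops ν).E a (gm ν ((b, q) :: L)) = gm ν ((b, q) :: L) := by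
      refine E_gm fun t ht => ?_
      rcases List.mem_cons.1 ht with rfl | ht
      · exact ⟨hab, haq⟩
      · exact haL t ht
    have g2 : (cops ν).P a b (gm ν ((b, q) :: L)) = gm ν ((a, q) :: L) := by
      rw [gm_cons, gm_cons, ← Module.End.mul_apply, W.Ps, W.Pglue (Ne.symm hab) e1 haq,
        Module.End.mul_apply, P_gm]
      intro t ht
      exact ⟨(e2 t ht).1, (e2 t ht).2.1, (haL t ht).1, (haL t ht).2⟩
    have g3 : (cops ν).E b (gm ν ((a, q) :: L)) = gm ν ((a, q) :: L) := by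
      refine E_gm fun t ht => ?_
      rcases List.mem_cons.1 ht with rfl | ht
      · exact ⟨Ne.symm hab, e1⟩
      · exact ⟨(e2 t ht).1, (e2 t ht).2.1⟩
    have k2 := congrArg (fun x : Module.End ℂ (LPat Γ ι → ℂ) => x (gm ν ((b, q) :: L))) k
    simp only [Module.End.mul_apply, LinearMap.add_apply, LinearMap.smul_apply] at k2
    rw [← (comm_oo_E (ν := ν) b a).eq] at k
    have k3 : (cops ν).R a b w (Gf ν b q L) =
        (EXL.rwt w).v • Gf ν b q L + (EXL.rwt w).u1 • Gf ν a q L := by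
      have k4 := congrArg (fun x : Module.End ℂ (LPat Γ ι → ℂ) => x (gm ν ((b, q) :: L))) k
      simp only [Module.End.mul_apply, LinearMap.add_apply, LinearMap.smul_apply] at k4
      rw [g1, g2, g3] at k4
      exact k4
    rw [← Module.End.mul_apply, ← c1.eq, Module.End.mul_apply, k3, map_add, map_smul, map_smul]
  rw [key, map_add, map_smul, map_smul, smul_eq_mul, smul_eq_mul]

/-- Exchange of two full lines. -/
theorem lines_R (hV : SupS S V) (hV' : SupS S' V') (hd : Disjoint S S') {m q j k j' k' : ι} {w : ℂ}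
    {L : List (ι × ι)} (hL : Gd ((m, q) :: (j, j') :: (k, k') :: L)) (m1 : j ∈ S) (m2 : k ∈ S)
    (m3 : j' ∈ S') (m4 : k' ∈ S') (x1 : χ j = χ k) (x2 : χ j' = χ k') (a1 : EXL.okR w)
    (a2 : EXL.okR (-w)) (a3 : EXL.okR ((cops (ι := ι) ν).h + (cops (ι := ι) ν).h - w))
    (a4 : EXL.okR (w - ((cops (ι := ι) ν).h + (cops (ι := ι) ν).h))) :
    Wp ν χ (V ∘ₗ uops.R j k w) (V' ∘ₗ uops.R j' k' (-w)) m q ((j, j') :: (k, k') :: L) =
      Wp ν χ V V' m q ((j, j') :: (k, k') :: L) := by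
  have W := laws (ι := ι) hν h0
  obtain ⟨-, f2, hL'⟩ := Gd_cons.1 hL
  obtain ⟨f3, f4, f5, f6⟩ := f2 (j, j') (by simp)
  obtain ⟨f7, f8, f9, f10⟩ := f2 (k, k') (by simp)
  simp only at f3 f4 f5 f6 f7 f8 f9 f10
  unfold Wp
  rw [Gf_cons hν f3 f4 f5 f6, Gf_cons hν f7 f8 f9 f10]
  set s := cops (ι := ι) ν with hs
  obtain ⟨e1, e2, e3⟩ := Gd_cons.1 hL'
  obtain ⟨e4, e5, e6, e7⟩ := e2 (k, k') (by simp)
  obtain ⟨e8, -, -⟩ := Gd_cons.1 e3
  simp only at e1 e4 e5 e6 e7 e8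
  have q1 : On S'ᶜ (cw.R j k w) := On.cR (T := S'ᶜ) (fun h => Set.disjoint_left.1 hd m1 h)
    (fun h => Set.disjoint_left.1 hd m2 h) w
  have q2 : On Sᶜ (cw.R j' k' (-w)) := On.cR (T := Sᶜ) (fun h => Set.disjoint_left.1 hd h m3)
    (fun h => Set.disjoint_left.1 hd h m4) (-w)
  have q3 : On S' (cw.R j' k' (-w)) := On.cR m3 m4 (-w)
  show pr Γ (V ∘ₗ rep0 ℂ id (cw.R j k w)) (V' ∘ₗ rep0 ℂ id (cw.R j' k' (-w))) _ = _
  rw [pr_left h0 hV (hV'.comp q3) hd q1, pr_right h0 hV hV' hd q2]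
  congr 1
  show s.R j' k' (-w) (s.R j k w (Tw χ (s.glue j j' (s.glue k k' (Gf ν m q L))))) = _
  have c1 : Commute (Tw χ) (s.R j k w) := tR x1 w
  have c2 : Commute (Tw χ) (s.R j' k' (-w)) := tR x2 (-w)
  have r := RG hν h0 (w := w) e4 e1 e5 (Ne.symm e6) e8 e7 a1 a2 a3 a4
  rw [← hs] at r
  have l1 := W.L1 (i := j') (j := k') (u := -w) e7 a2 (by rw [neg_neg]; exact a1)
  rw [neg_neg] at l1
  have key : s.R j' k' (-w) * s.R j k w * Tw χ * (s.glue j j' * s.glue k k') =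
      Tw χ * (s.glue j j' * s.glue k k') := by
    calc s.R j' k' (-w) * s.R j k w * Tw χ * (s.glue j j' * s.glue k k')
        = s.R j' k' (-w) * (s.R j k w * Tw χ) * (s.glue j j' * s.glue k k') := by
          simp only [mul_assoc]
      _ = (s.R j' k' (-w) * Tw χ) * (s.R j k w * (s.glue j j' * s.glue k k')) := by
          rw [← c1.eq]; simp only [mul_assoc]
      _ = Tw χ * (s.R j' k' (-w) * s.R j' k' w) * (s.glue j j' * s.glue k k') := by
          rw [← c2.eq, r]; simp only [mul_assoc]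
      _ = _ := by rw [l1, mul_one]
  exact congrArg (fun x : Module.End ℂ (LPat Γ ι → ℂ) => x (Gf ν m q L)) key

/-- Fusion of two ends, the remaining line is the occupied one. -/
theorem fus_o (hV : SupS S V) (hV' : SupS S' V') (hd : Disjoint S S') {a b q : ι}
    {L : List (ι × ι)} (hab : a ≠ b) (hbq : b ≠ q)
    (hbL : ∀ t ∈ L, b ≠ t.1 ∧ b ≠ t.2) (ha : a ∈ S) (hb' : b ∉ S') (hχ : χ a = χ b) :
    Wp ν χ (V ∘ₗ uops.Y a b) V' a q L = EXL.xh * Wp ν χ V V' a q L := by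
  have q1 : On S'ᶜ (cw.Y a b) := On.cY (T := S'ᶜ) (fun h => Set.disjoint_left.1 hd ha h) hb'
  unfold Wp
  show pr Γ (V ∘ₗ rep0 ℂ id (cw.Y a b)) V' _ = _
  rw [pr_left h0 hV hV' hd q1]
  show pr Γ V V' ((cops ν).Y a b (Tw χ (Gf ν a q L))) = _
  have c1 : Commute (Tw χ) ((cops ν).Y a b) := tY hχ
  have g1 : (cops ν).E b (gm ν ((a, q) :: L)) = gm ν ((a, q) :: L) := by
    refine E_gm fun t ht => ?_
    rcases List.mem_cons.1 ht with rfl | ht
    · exact ⟨Ne.symm hab, hbq⟩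
    · exact hbL t ht
  have k3 : (cops ν).Y a b (Gf ν a q L) = EXL.xh • Gf ν a q L := by
    have k4 := congrArg (fun x : Module.End ℂ (LPat Γ ι → ℂ) => x (gm ν ((a, q) :: L)))
      (YO hν h0 hab)
    simp only [Module.End.mul_apply, LinearMap.smul_apply] at k4
    rw [g1] at k4
    exact k4
  rw [← Module.End.mul_apply, ← c1.eq, Module.End.mul_apply, k3, map_smul, map_smul, smul_eq_mul]

/-- Fusion of two ends, the remaining line is the empty one. -/
theorem fus_e (hV : SupS S V) (hV' : SupS S' V') (hd : Disjoint S S') {a b q : ι}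
    {L : List (ι × ι)} (hL : Gd ((b, q) :: L)) (hab : a ≠ b) (haq : a ≠ q)
    (haL : ∀ t ∈ L, a ≠ t.1 ∧ a ≠ t.2) (ha : a ∈ S) (hb' : b ∉ S') (hχ : χ a = χ b) :
    Wp ν χ (V ∘ₗ uops.Y a b) V' b q L = EXL.xh * Wp ν χ V V' a q L := by
  have W := laws (ι := ι) hν h0
  obtain ⟨e1, e2, e3⟩ := Gd_cons.1 hL
  simp only at e1
  have q1 : On S'ᶜ (cw.Y a b) := On.cY (T := S'ᶜ) (fun h => Set.disjoint_left.1 hd ha h) hb'
  unfold Wp
  show pr Γ (V ∘ₗ rep0 ℂ id (cw.Y a b)) V' _ = _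
  rw [pr_left h0 hV hV' hd q1]
  show pr Γ V V' ((cops ν).Y a b (Tw χ (Gf ν b q L))) = _
  have c1 : Commute (Tw χ) ((cops ν).Y a b) := tY hχ
  have g1 : (cops ν).E a (gm ν ((b, q) :: L)) = gm ν ((b, q) :: L) := by
    refine E_gm fun t ht => ?_
    rcases List.mem_cons.1 ht with rfl | ht
    · exact ⟨hab, haq⟩
    · exact haL t ht
  have g2 : (cops ν).P a b (gm ν ((b, q) :: L)) = gm ν ((a, q) :: L) := by
    rw [gm_cons, gm_cons, ← Module.End.mul_apply, W.Ps, W.Pglue (Ne.symm hab) e1 haq,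
      Module.End.mul_apply, P_gm]
    intro t ht
    exact ⟨(e2 t ht).1, (e2 t ht).2.1, (haL t ht).1, (haL t ht).2⟩
  have g3 : (cops ν).E b (gm ν ((a, q) :: L)) = gm ν ((a, q) :: L) := by
    refine E_gm fun t ht => ?_
    rcases List.mem_cons.1 ht with rfl | ht
    · exact ⟨Ne.symm hab, e1⟩
    · exact ⟨(e2 t ht).1, (e2 t ht).2.1⟩
  have k3 : (cops ν).Y a b (Gf ν b q L) = EXL.xh • Gf ν a q L := by
    have k := YE hν h0 (ν := ν) hab
    rw [← (comm_oo_E (ν := ν) b a).eq] at k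
    have k4 := congrArg (fun x : Module.End ℂ (LPat Γ ι → ℂ) => x (gm ν ((b, q) :: L))) k
    simp only [Module.End.mul_apply, LinearMap.smul_apply] at k4
    rw [g1, g2, g3] at k4
    exact k4
  rw [← Module.End.mul_apply, ← c1.eq, Module.End.mul_apply, k3, map_smul, map_smul, smul_eq_mul]

/-- An occupied and an empty end cannot be joined. -/
theorem node_z (hV : SupS S V) (hV' : SupS S' V') (hd : Disjoint S S') {a b q : ι}
    {L : List (ι × ι)} (hab : a ≠ b) (haq : a ≠ q)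
    (haL : ∀ t ∈ L, a ≠ t.1 ∧ a ≠ t.2) (ha' : a ∉ S') (hb' : b ∉ S') :
    Wp ν χ (V ∘ₗ uops.U a b) V' b q L = 0 := by
  have q1 : On S'ᶜ (cw.U a b) := On.cU ha' hb'
  unfold Wp
  show pr Γ (V ∘ₗ rep0 ℂ id (cw.U a b)) V' _ = _
  rw [pr_left h0 hV hV' hd q1]
  show pr Γ V V' ((cops ν).U a b (Tw χ (Gf ν b q L))) = _
  have g1 : (cops ν).E a (Tw χ (Gf ν b q L)) = Tw χ (Gf ν b q L) := by
    rw [← Module.End.mul_apply, ← (tE χ a).eq, Module.End.mul_apply, E_Gf hab haq haL]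
  have g2 : Tw χ (Gf ν b q L) = oo ν b (Tw χ (Gf ν b q L)) := by
    rw [← Module.End.mul_apply, ← (comm_oo_Tw χ b).eq, Module.End.mul_apply, oo_Gf]
  have k : (cops (Γ := Γ) ν).U a b * (cops ν).E a * oo ν b = 0 := by
    rw [UE hν h0 hab, mul_assoc, E_oo, mul_zero]
  have k3 := congrArg (fun x : Module.End ℂ (LPat Γ ι → ℂ) => x (Tw χ (Gf ν b q L))) k
  simp only [Module.End.mul_apply, LinearMap.zero_apply] at k3
  rw [← g2, g1] at k3
  rw [k3, map_zero]

/-- The same with the names exchanged. -/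
theorem node_z' (hV : SupS S V) (hV' : SupS S' V') (hd : Disjoint S S') {a b q : ι}
    {L : List (ι × ι)} (hab : a ≠ b) (haq : a ≠ q)
    (haL : ∀ t ∈ L, a ≠ t.1 ∧ a ≠ t.2) (ha' : a ∉ S') (hb' : b ∉ S') :
    Wp ν χ (V ∘ₗ uops.U b a) V' b q L = 0 := by
  have q1 : On S'ᶜ (cw.U a b) := On.cU ha' hb'
  have q2 : On S'ᶜ (cw.U b a) := On.cU hb' ha'
  rw [← node_z hν h0 (χ := χ) hV hV' hd hab haq haL ha' hb']
  unfold Wp
  show pr Γ (V ∘ₗ rep0 ℂ id (cw.U b a)) V' _ = pr Γ (V ∘ₗ rep0 ℂ id (cw.U a b)) V' _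
  rw [pr_left h0 hV hV' hd q1, pr_left h0 hV hV' hd q2]
  show pr Γ V V' ((cops ν).U b a _) = pr Γ V V' ((cops ν).U a b _)
  rw [U_symm hν h0]

/-- Exchange of the roles of the factors. -/
theorem Wp_swap (hV : SupS S V) (hV' : SupS S' V') (hd : Disjoint S S') {m q : ι}
    (L : List (ι × ι)) : Wp ν χ V V' m q L = Wp ν χ V' V m q (L.map Prod.swap) := by
  have e : gm ν (L.map Prod.swap) = gm ν L := by
    induction L with
    | nil => rfl
    | cons t L ih =>
      rw [List.map_cons, gm_cons, gm_cons, ih, Prod.fst_swap, Prod.snd_swap]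
      rw [(laws (ι := ι) hν h0).gs (i := t.2)]
  unfold Wp Gf
  rw [gm_cons, gm_cons, e, pr_swap hV hV' hd]

omit h0 hν [Finite ι] in
/-- No arc can end at `m`. -/
theorem Wp_zero {m q : ι} (h : V ∘ₗ uops.E m = V) (h0 : ν 0 = 0) (hV : SupS S V) (hV' : SupS S' V')
    (hd : Disjoint S S') (hm : m ∉ S') (L : List (ι × ι)) : Wp ν χ V V' m q L = 0 := by
  have q1 : On S'ᶜ (cw.E m) := On.cE hm
  have e := pr_left (Γ := Γ) h0 hV hV' hd q1 (Tw χ (Gf ν m q L))
  rw [show V ∘ₗ rep0 ℂ id (cw.E m) = V from h] at e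
  unfold Wp
  rw [e]
  have g2 : Tw χ (Gf ν m q L) = oo ν m (Tw χ (Gf ν m q L)) := by
    rw [← Module.End.mul_apply, ← (comm_oo_Tw χ m).eq, Module.End.mul_apply, oo_Gf]
  rw [g2]
  show pr Γ V V' ((cops ν).E m (oo ν m _)) = 0
  rw [← Module.End.mul_apply, E_oo, LinearMap.zero_apply, map_zero]

end pairing

section map

variable {Γ α β : Type*} [AddCommGroup Γ] [DecidableEq α] [DecidableEq β] {e : β → α} {ν : Γ → ℂ}

theorem RelE.oo (he : Function.Injective e) {a : β} {G : LPat Γ α → ℂ} {H : LPat Γ β → ℂ}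
    (h : RelE e G H) : RelE e (oo ν (e a) G) (oo ν a H) := by
  intro Q p hQ
  rw [oo_apply, oo_apply]
  have h1 : Q (e a) = e a ↔ p a = a := by rw [hQ.res.1, he.eq_iff]
  by_cases ha : p a = a
  · rw [if_pos ha, if_pos (h1.2 ha)]
  · rw [if_neg ha, if_neg (fun hh => ha (h1.1 hh)), h Q p hQ]

theorem relE_Gf (he : Function.Injective e) {m q : β} {L : List (β × β)} (hL : Gd ((m, q) :: L)) :
    RelE e (Gf ν (e m) (e q) (L.map (Prod.map e e))) (Gf ν m q L) := by
  have h := relE_gm he (ν := ν) hL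
  rw [List.map_cons] at h
  exact RelE.oo he h

/-- **Renaming of the sites of the pairing.** -/
theorem Wp_map (he : Function.Injective e) {χ : β → Γ} {χ' : α → Γ} (hχ : ∀ x, χ' (e x) = χ x)
    {m q : β} {L : List (β × β)} (hL : Gd ((m, q) :: L)) {S S' : Set β} {V V' : Fnl β}
    (hV : SupS S V) (hV' : SupS S' V') (hd : Disjoint S S') :
    Wp ν χ' (push he V) (push he V') (e m) (e q) (L.map (Prod.map e e)) = Wp ν χ V V' m q L := by
  have key := (relE_Gf (ν := ν) he hL).tw hχ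
  unfold Wp
  rw [pr_apply, pr_apply, push_apply]
  refine hV.congr fun p hp => ?_
  rw [push_apply]
  refine hV'.congr fun q hq => ?_
  exact key _ _ (resE_ofP he (dj_of_sup hd hp hq))

end map

end Pool.Agent.NUT2
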