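import Pool.Agent.NUU.DiscRel
import Pool.Agent.NUTP.Bridge
import Pool.Agent.NUT2.Tp1

/-!
# The disc functional: support, periodicity, renaming
-/

set_option autoImplicit false

namespace Pool.Agent.NUT2

open Pool.Agent.NUF Pool.Agent Pool.Agent.NUU
open Pool.Agent.EXL.Fm (lam)
open Complex (I exp sin cos)

/-! ### Support -/

section sup

variable {α : Type*} [DecidableEq α] {z z' : α → ℂ} {X Y : List α} {V : Fnl α} {S T : Set α}

omit [DecidableEq α] in
theorem supS_mono (h : SupS S V) (hST : S ⊆ T) : SupS T V := fun F hF =>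
  h F fun p hp => hF p fun x hx => hp x fun hh => hx (hST hh)

theorem supS_M (h : SupS S V) {i : α} (hi : i ∈ S) (v : ℂ) {L : List α} (hL : ∀ x ∈ L, x ∈ S) :
    SupS S (V ∘ₗ uops.M z i v L) := by
  induction L generalizing V with
  | nil =>
    have e : V ∘ₗ uops.M z i v [] = V := by
      rw [EXL.Glob.Ops.M_nil]
      exact LinearMap.ext fun F => rfl
    rw [e]
    exact h
  | cons s L ih =>
    rw [EXL.Glob.Ops.M_cons]
    have h1 : SupS S (V ∘ₗ uops.R i s (v - z s)) :=
      h.comp (On.cR hi (hL s (by simp)) (v - z s))
    exact ih h1 fun x hx => hL x (by simp [hx])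

theorem supS_jn (h : SupS S V) {p i : α} (hp : p ∈ S) (hi : i ∈ S) (e a : ℂ) :
    SupS S (V ∘ₗ jn p i e a) := by
  have k : jn p i e a = rep0 ℂ id (e • 1 + a • wcu p i) := by
    rw [map_add, map_smul, map_smul, map_one, rep0_cu]
    rfl
  rw [k]
  exact h.comp ((On.one.smul e).add ((On.cu hp hi).smul a))

theorem below_sub {i x : α} (hx : x ∈ below X i) : x ∈ X :=
  (List.takeWhile_sublist _).subset hx

theorem below_notMem (X : List α) (i : α) : i ∉ below X i := by
  intro h
  have := List.mem_takeWhile_imp h
  simp at this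

theorem supS_UD : ∀ (n : ℕ) (X : List α), X.length = n → SupS {x | x ∈ X} (UD z X) := by
  intro n
  induction n using Nat.strong_induction_on with
  | _ n ih =>
    intro X hX
    cases X with
    | nil =>
      rw [UD_nil]
      intro F hF
      show F EXL.Pat.empty = 0
      exact hF _ fun x _ => rfl
    | cons p X =>
      simp only [List.length_cons] at hX
      rw [UD_cons]
      intro F hF
      rw [LinearMap.add_apply, LinearMap.smul_apply, LinearMap.sum_apply]
      have h1 : SupS {x | x ∈ p :: X} (UD z X) :=
        supS_mono (ih X.length (by omega) X rfl) fun x hx => List.mem_cons_of_mem _ hx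
      rw [h1 F hF, smul_zero, zero_add]
      apply Finset.sum_eq_zero
      intro i hi
      have hi' := List.mem_toFinset.1 hi
      have hlen : (X.erase i).length < n := by
        have := List.length_erase_le (a := i) (l := X)
        omega
      have h2 : SupS {x | x ∈ p :: X} (UD z (X.erase i)) :=
        supS_mono (ih _ hlen (X.erase i) rfl) fun x hx =>
          List.mem_cons_of_mem _ (List.mem_of_mem_erase hx)
      have h3 := supS_jn h2 (p := p) (i := i) (by simp) (by simp [hi'])
        (Fr.c3 * exp (I * (z p - z i + 3 * lam)) * ∏ k ∈ X.toFinset.erase i, pd z p i k)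
        (Fr.c3 * ∏ k ∈ X.toFinset.erase i, pd z p i k)
      exact supS_M (z := z) h3 (i := i) (by simp [hi']) (z i) (L := below X i)
        (fun x hx => List.mem_cons_of_mem _ (below_sub hx)) F hF

/-- **(all z)** The support of the disc functional. -/
theorem UD_supS (z : α → ℂ) (X : List α) : SupS {x | x ∈ X} (UD z X) := supS_UD _ X rfl

end sup

/-! ### Periodicity -/

section per

variable {α : Type*} [DecidableEq α] {z z' : α → ℂ} {X : List α}

theorem exp_I_eq {x y : ℂ} (h : exp (I * x) = exp (I * y)) : ∃ n : ℤ, x = y + n * (2 * Real.pi) := by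
  obtain ⟨n, hn⟩ := Complex.exp_eq_exp_iff_exists_int.1 h
  refine ⟨n, ?_⟩
  have hI := Complex.I_ne_zero
  have : I * x = I * (y + n * (2 * Real.pi)) := by
    rw [hn]
    ring
  exact mul_left_cancel₀ hI this

theorem sin_congr {x y : ℂ} (c : ℂ) (h : exp (I * x) = exp (I * y)) : sin (x + c) = sin (y + c) := by
  obtain ⟨n, rfl⟩ := exp_I_eq h
  rw [show y + n * (2 * Real.pi) + c = (y + c) + n * (2 * Real.pi) by ring,
    Complex.sin_add_int_mul_two_pi]

theorem Dn_congr {x y : ℂ} (h : exp (I * x) = exp (I * y)) : EXL.Fm.Dn x = EXL.Fm.Dn y := by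
  unfold EXL.Fm.Dn
  rw [add_comm (2 * lam) x, add_comm (3 * lam) x, add_comm (2 * lam) y, add_comm (3 * lam) y,
    sin_congr _ h, sin_congr _ h]

theorem rwt_congr {x y : ℂ} (h : exp (I * x) = exp (I * y)) : EXL.rwt x = EXL.rwt y := by
  unfold EXL.rwt EXL.Dn
  rw [mul_comm x, mul_comm y, h]

theorem exp_sub_congr {x y x' y' : ℂ} (h : exp (I * x) = exp (I * x'))
    (h' : exp (I * y) = exp (I * y')) : exp (I * (x - y)) = exp (I * (x' - y')) := by
  rw [mul_sub, mul_sub, Complex.exp_sub, Complex.exp_sub, h, h']

/-- The disc functional depends on the rapidities modulo `2 π`. -/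
theorem UD_cexp (h : ∀ x ∈ X, exp (I * z x) = exp (I * z' x)) : UD z X = UD z' X := by
  have hd : ∀ x ∈ X.toFinset, ∀ y ∈ X.toFinset,
      exp (I * (z x - z y)) = exp (I * (z' x - z' y)) := fun x hx y hy =>
    exp_sub_congr (h x (List.mem_toFinset.1 hx)) (h y (List.mem_toFinset.1 hy))
  refine RL_congr X.toFinset ?_ ?_ ?_ X.length X rfl fun x hx => List.mem_toFinset.2 hx
  · intro p hp Y hY
    simp only [cD, s3]
    exact Finset.prod_congr rfl fun k hk => by rw [sin_congr _ (hd p hp k (hY hk))]
  · intro p hp i hi Y hY
    have e1 : exp (I * (z p - z i + 3 * lam)) = exp (I * (z' p - z' i + 3 * lam)) := by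
      rw [mul_add, mul_add, Complex.exp_add, Complex.exp_add, hd p hp i hi]
    have e2 : ∏ k ∈ Y, pd z p i k = ∏ k ∈ Y, pd z' p i k :=
      Finset.prod_congr rfl fun k hk => by
        have h0 := sin_congr 0 (hd i hi k (hY hk))
        rw [add_zero, add_zero] at h0
        unfold pd s3
        rw [sin_congr _ (hd p hp k (hY hk)), Dn_congr (hd i hi k (hY hk)), h0]
    simp only [cD]
    rw [e1, e2]
    exact ⟨rfl, rfl⟩
  · intro i hi r hr
    have e := rwt_congr (hd i hi r hr)
    show rep0 ℂ id (if i = r then 0 else wR (EXL.rwt (z i - z r)) i r) =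
      rep0 ℂ id (if i = r then 0 else wR (EXL.rwt (z' i - z' r)) i r)
    rw [e]

end per

/-! ### Renaming -/

section ren

variable {α β : Type*} [DecidableEq α] [DecidableEq β] {e : β → α} (he : Function.Injective e)
  {z : β → ℂ} {z' : α → ℂ} {X : List β}

include he in
theorem below_map (X : List β) (i : β) : below (X.map e) (e i) = (below X i).map e := by
  unfold below
  induction X with
  | nil => rfl
  | cons y X ih =>
    rw [List.map_cons, List.takeWhile_cons, List.takeWhile_cons]
    by_cases h : y = i
    · subst h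
      simp
    · have h' : e y ≠ e i := fun hh => h (he hh)
      simp only [ne_eq, h, h', not_false_eq_true, decide_true, if_true, List.map_cons]
      rw [ih]

theorem oE_rst (h : ∀ j ∈ X, z' (e j) = z j) {i : β} (hi : i ∈ X) (F : EXL.Pat α → ℂ)
    (q : EXL.Pat β) :
    oE uops z' (X.map e) (e i) F (rst he q) = oE uops z X i (fun q => F (rst he q)) q := by
  unfold oE
  rw [below_map he]
  have n1 : i ∉ below X i := below_notMem X i
  rw [uops_M_apply _ _ (notMem_map he n1), uops_M_apply _ _ n1]
  exact M_rst he (fun j hj => by rw [h j (below_sub hj), h i hi]) i F q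

theorem jn_rst (p i : β) (c a : ℂ) (F : EXL.Pat α → ℂ) (q : EXL.Pat β) :
    jn (e p) (e i) c a F (rst he q) = jn p i c a (fun q => F (rst he q)) q := by
  unfold jn
  simp only [LinearMap.add_apply, LinearMap.smul_apply, Module.End.one_apply, Pi.add_apply,
    Pi.smul_apply, EXL.opCu_apply]
  congr 2
  have h1 : ∀ x, rst he q (e x) = e x ↔ q x = x := fun x => by rw [rst_apply, he.eq_iff]
  by_cases hc : EXL.Pat.CuOK p i q
  · have hc' : EXL.Pat.CuOK (e p) (e i) (rst he q) := ⟨(h1 p).2 hc.1, (h1 i).2 hc.2⟩
    rw [if_pos hc, if_pos hc']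
    congr 1
    exact (EXL.Pat.Emb.st_cup (eE he) q p i)
  · have hc' : ¬ EXL.Pat.CuOK (e p) (e i) (rst he q) := fun hh =>
      hc ⟨(h1 p).1 hh.1, (h1 i).1 hh.2⟩
    rw [if_neg hc, if_neg hc']

theorem UD_map_aux : ∀ (n : ℕ) (X : List β), X.length = n → (∀ x ∈ X, z' (e x) = z x) →
    UD z' (X.map e) = push he (UD z X) := by
  intro n
  induction n using Nat.strong_induction_on with
  | _ n ih =>
    intro X hX h
    cases X with
    | nil =>
      rw [List.map_nil, UD_nil, UD_nil]
      refine LinearMap.ext fun F => ?_
      show F EXL.Pat.empty = F (rst he EXL.Pat.empty)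
      rw [rst_empty]
    | cons p X =>
      simp only [List.length_cons] at hX
      have hX' : ∀ x ∈ X, z' (e x) = z x := fun x hx => h x (by simp [hx])
      have hp := h p (by simp)
      have hf : (X.map e).toFinset = X.toFinset.image e := by
        ext x
        simp
      refine LinearMap.ext fun F => ?_
      rw [List.map_cons, UD_cons, hf, push_apply, UD_cons, LinearMap.add_apply,
        LinearMap.add_apply, LinearMap.smul_apply, LinearMap.smul_apply, LinearMap.sum_apply,
        LinearMap.sum_apply, Finset.prod_image he.injOn, Finset.sum_image he.injOn,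
        ih X.length (by omega) X rfl hX', push_apply]
      congr 1
      · congr 1
        exact Finset.prod_congr rfl fun k hk => by
          rw [hp, hX' k (List.mem_toFinset.1 hk)]
      · apply Finset.sum_congr rfl
        intro i hi
        have hi' := List.mem_toFinset.1 hi
        have hlen : (X.erase i).length < n := by
          have := List.length_erase_le (a := i) (l := X)
          omega
        have e1 : (X.map e).erase (e i) = (X.erase i).map e := (List.map_erase he X).symm
        have e2 : (X.toFinset.image e).erase (e i) = (X.toFinset.erase i).image e :=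
          (Finset.image_erase he _ _).symm
        have e3 : ∏ k ∈ (X.toFinset.erase i).image e, pd z' (e p) (e i) k =
            ∏ k ∈ X.toFinset.erase i, pd z p i k := by
          rw [Finset.prod_image he.injOn]
          refine Finset.prod_congr rfl fun k hk => ?_
          unfold pd
          rw [hp, hX' i hi', hX' k (List.mem_toFinset.1 (Finset.mem_of_mem_erase hk))]
        rw [e1, e2, e3, ih _ hlen (X.erase i) rfl fun x hx => hX' x (List.mem_of_mem_erase hx),
          hp, hX' i hi', LinearMap.comp_apply, LinearMap.comp_apply, push_apply]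
        congr 1
        funext q
        rw [Module.End.mul_apply, Module.End.mul_apply, jn_rst he]
        have e4 : (fun q => (oE uops z' (X.map e) (e i)) F (rst he q)) =
            (oE uops z X i) fun q => F (rst he q) := by
          funext q'
          exact oE_rst he hX' hi' F q'
        rw [e4]

/-- **Renaming of the sites.** -/
theorem UD_map (h : ∀ x ∈ X, z' (e x) = z x) : UD z' (X.map e) = push he (UD z X) :=
  UD_map_aux he _ X rfl h

end ren

end Pool.Agent.NUT2
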