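import Pool.Agent.NUT2.Ring1

/-!
# The far double column with rows of different rapidities (helper35)

`farTz z y i j X` = the double column of the loop gas with the rows `s + z k`, `y = exp (2 i s)`; analytic in `y`;
at `y = 0` it is the ring.
-/

set_option autoImplicit false

namespace Pool.Agent.NUT2

open _root_.Pool.Agent.EXL _root_.Pool.Agent.EXL.Pat _root_.Pool.Agent.EXL.HS HexObs Filter Topology
open _root_.Pool.Agent.NUF _root_.Pool.Agent.NUG

/-! ### Differentiability on the unit disc -/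

theorem DB_scale {f : ℂ → ℂ} (hf : DB f) {b : ℂ} (hb : ‖b‖ ≤ 1) : DB (fun y => f (b * y)) := by
  refine DifferentiableOn.comp hf (by fun_prop) ?_
  intro y hy
  rw [mem_ball_zero_iff] at hy ⊢
  rw [norm_mul]
  have := norm_nonneg y
  nlinarith

theorem wtD_scale {b : ℂ} (hb : ‖b‖ ≤ 1) : WtD (fun y => farW (b * y)) :=
  ⟨DB_scale wtD_farW.v hb, DB_scale wtD_farW.u1 hb, DB_scale wtD_farW.u2 hb, DB_scale wtD_farW.w1 hb,
    DB_scale wtD_farW.w2 hb⟩

section op

variable {α : Type*} [DecidableEq α]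

theorem db_Mz {w : α → ℂ → Wt ℂ} (i : α) (L : List α) (hw : ∀ k ∈ L, WtD (w k)) {F : ℂ → Pat α → ℂ}
    (hF : ∀ p, DB (fun y => F y p)) (p : Pat α) : DB (fun y => M (fun k => w k y) i L (F y) p) := by
  induction L generalizing p with
  | nil => exact hF p
  | cons r L ih => exact db_R (hw r (by simp)) i r (ih fun k hk => hw k (by simp [hk])) p

/-- **The far double column** with the rows `s + z k`, as a function of `y = exp (2 i s)`. -/
noncomputable def farTz (z : α → ℂ) (y : ℂ) (i j : α) (X : List α) : Module.End ℂ (Pat α → ℂ) :=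
  mk (dblF (kb y) (kt y) (fun k => farW (Complex.exp (Complex.I * z k) * y))
    (fun k => rwt (Real.pi / 8 - z k)) i j X) (lin_dblF _ _ _ _ _ _ _)

theorem farTz_apply (z : α → ℂ) (y : ℂ) (i j : α) (X : List α) (F : Pat α → ℂ) :
    farTz z y i j X F = dblF (kb y) (kt y) (fun k => farW (Complex.exp (Complex.I * z k) * y))
      (fun k => rwt (Real.pi / 8 - z k)) i j X F := rfl

theorem db_farTz (z : α → ℂ) {r : ℝ} (hr : 0 < r) (hr1 : r ≤ 1) (i j : α) (X : List α)
    (hz : ∀ k ∈ X, ‖(r : ℂ) * Complex.exp (Complex.I * z k)‖ ≤ 1) (F : Pat α → ℂ) (p : Pat α) :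
    DB (fun y => farTz z (r * y) i j X F p) := by
  have hrn : ‖(r : ℂ)‖ ≤ 1 := by
    rw [Complex.norm_real, Real.norm_eq_abs, abs_of_pos hr]
    exact hr1
  have hc : ∀ k ∈ X, WtD (fun _ => rwt (Real.pi / 8 - z k)) := fun k _ =>
    ⟨differentiableOn_const _, differentiableOn_const _, differentiableOn_const _,
      differentiableOn_const _, differentiableOn_const _⟩
  have hf : ∀ k ∈ X, WtD (fun y => farW (Complex.exp (Complex.I * z k) * ((r : ℂ) * y))) := by
    intro k hk
    have h := wtD_scale (hz k hk)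
    have e : (fun y => farW ((r : ℂ) * Complex.exp (Complex.I * z k) * y)) =
        fun y => farW (Complex.exp (Complex.I * z k) * ((r : ℂ) * y)) := by
      funext y
      congr 1
      ring
    rw [e] at h
    exact h
  have h0 : ∀ p, DB (fun _ : ℂ => F p) := fun p => differentiableOn_const _
  have h1 := fun p => db_topF (DB_scale db_kt hrn) i j (F := fun _ => F) h0 p
  have h2 := fun p => db_Mz i X hc h1 p
  have h3 := fun p => db_Mz j X hf h2 p
  exact db_botF (DB_scale db_kb hrn) i j h3 p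

/-- **At `y = 0` the far double column is the ring.** -/
theorem farTz_zero {z : α → ℂ} {i j : α} {X : List α} (hn : X.Nodup) (hij : i ≠ j) (hi : i ∉ X)
    (hj : j ∉ X) (F : Pat α → ℂ) {p : Pat α} (hp : AX X p) :
    farTz z 0 i j X F p = rg z i j (Real.pi / 8) X F p := by
  have e := congrFun (congrFun (rg_fun (X := X) z (Real.pi / 8) hij hi) F) p
  rw [e, farTz_apply]
  simp only [mul_zero]
  exact dblF_braid braid_farW kb_kt_zero _ hn hij hi hj F hp

end op

/-! ### The functional is fixed by the far double column -/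

section fix

variable {ι : Type*} [DecidableEq ι] {X : List ι} {z : ι → ℂ}

/-- **The double column of the loop gas is the far double column.** -/
theorem uops_T_eq_z {s : ℂ} (hs : ∀ k ∈ X, 0 < (s + z k / 2).im) {i j : ι} (hij : i ≠ j)
    (hi : i ∉ X) (hj : j ∉ X) (F : Pat ι → ℂ) :
    uops.T (fun k => s + z k) i j (Real.pi / 4 - s) X F =
      farTz z (Complex.exp (2 * Complex.I * s)) i j X F := by
  unfold Glob.Ops.T
  rw [Module.End.mul_apply, Module.End.mul_apply, Module.End.mul_apply, uops_b_apply hij,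
    uops_M_apply _ _ hj, uops_M_apply _ _ hi, uops_t_apply hij, farTz_apply, uops_h]
  unfold dblF
  have e1 : (3 * Real.pi / 8 - (Real.pi / 4 - s) : ℂ) = Real.pi / 8 + s := by ring
  have e2 : M (fun k => rwt (Real.pi / 4 - s - (s + z k))) j X =
      M (fun k => farW (Complex.exp (Complex.I * z k) * Complex.exp (2 * Complex.I * s))) j X := by
    apply M_congr'
    intro k hk
    have h := farW_eq (hs k hk)
    rw [show (Real.pi / 4 - s - (s + z k) : ℂ) = Real.pi / 4 - 2 * (s + z k / 2) by ring, h,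
      ← Complex.exp_add]
    congr 2
    ring
  have e3 : ∀ k, (3 * Real.pi / 16 + 3 * Real.pi / 16 - (Real.pi / 4 - s) - (s + z k) : ℂ) =
      Real.pi / 8 - z k := by
    intro k
    ring
  simp only [e1, e3, kb_eq, kt_eq]
  rw [e2]

/-- The parameters of the double column are regular. -/
structure OkS (z : ι → ℂ) (s : ℂ) : Prop where
  k1 : okR (Real.pi / 16 - s)
  k2 : okR (s - Real.pi / 16)
  k3 : okC (Real.pi / 4 - s)
  k4 : okC (Real.pi / 8 + s)
  k5 : ∀ k, okR (Real.pi / 4 - s - (s + z k))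
  k6 : ∀ k, okR (Real.pi / 8 - z k)
  k7 : ∀ k, okR (3 * Real.pi / 16 - (s + z k))

theorem isV_dblz [Finite ι] {V : Fnl ι} {s : ℂ} (hs : ∀ k ∈ X, 0 < (s + z k / 2).im)
    (hV : IsV (fun k => s + z k) X V) (hR : Reg (fun k => s + z k) X) (hn : X.Nodup) {i j c : ι}
    (hij : i ≠ j) (hic : i ≠ c) (hjc : j ≠ c) (hi : i ∉ X) (hj : j ∉ X) (hc : c ∉ X) (hk : OkS z s) :
    V ∘ₗ farTz z (Complex.exp (2 * Complex.I * s)) i j X = V := by
  have e0 : farTz z (Complex.exp (2 * Complex.I * s)) i j X =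
      uops.T (fun k => s + z k) i j (Real.pi / 4 - s) X :=
    LinearMap.ext fun F => (uops_T_eq_z hs hij hi hj F).symm
  rw [e0]
  have hcomm : T0 (fun k => s + z k) c X * uops.T (fun k => s + z k) i j (Real.pi / 4 - s) X =
      uops.T (fun k => s + z k) i j (Real.pi / 4 - s) X * T0 (fun k => s + z k) c X := by
    rw [T0_eq_C]
    refine ulaws.comm hij hic hjc hi hj hc hn ?_ ?_ hk.k3 ?_ ?_ ?_ ?_
    · rw [uops_h, show (Real.pi / 4 - s - 3 * Real.pi / 16 : ℂ) = Real.pi / 16 - s by ring]
      exact hk.k1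
    · rw [uops_h, show (3 * Real.pi / 16 - (Real.pi / 4 - s) : ℂ) = s - Real.pi / 16 by ring]
      exact hk.k2
    · rw [uops_h, show (3 * Real.pi / 16 + 3 * Real.pi / 16 - (Real.pi / 4 - s) : ℂ) =
        Real.pi / 8 + s by ring]
      exact hk.k4
    · intro r _
      exact hk.k5 r
    · intro r _
      rw [uops_h, show (3 * Real.pi / 16 + 3 * Real.pi / 16 - (Real.pi / 4 - s) - (s + z r) : ℂ) =
        Real.pi / 8 - z r by ring]
      exact hk.k6 r
    · intro r _
      rw [uops_h]
      exact hk.k7 r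
  have h1 : IsV (fun k => s + z k) X (V ∘ₗ uops.T (fun k => s + z k) i j (Real.pi / 4 - s) X) := by
    refine hV.comp hn (fun _ h => h) ?_ hc hcomm ?_
    · rw [← e0]
      exact pres_dblF _ _ _ _ hn hij hi hj
    · intro p _
      rw [← e0, farTz_apply, dblF_ind _ _ _ _ hij hi hj]
  exact h1.unique hV hc hR

/-- at `y = 0` -/
theorem IsR.far {c d : ι} (hn : X.Nodup) (hcd : c ≠ d) (hc : c ∉ X) (hd : d ∉ X) {V : Fnl ι}
    (hV : IsR c d z X V) : V ∘ₗ farTz z 0 c d X = V := by
  refine LinearMap.ext fun F => ?_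
  rw [LinearMap.comp_apply, hV.sup.congr (G := rg z c d (Real.pi / 8) X F), ← LinearMap.comp_apply,
    hV.fix]
  intro p hp
  exact farTz_zero hn hcd hc hd F hp

theorem injN_farz {c d : ι} (hn : X.Nodup) (hcd : c ≠ d) (hc : c ∉ X) (hd : d ∉ X)
    (inj : RegR c d z X) : InjN (AX X) (fun F => farTz z 0 c d X F) := by
  intro G h0 h1 p
  refine inj G h0 (fun q hq hA => ?_) p
  show rg z c d (Real.pi / 8) X G q = G q
  rw [← farTz_zero hn hcd hc hd G hA]
  exact h1 q hq hA

end fix

end Pool.Agent.NUT2
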