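import Pool.Agent.NUT2.Tp1

/-!
# The pairing with one ended line, unlabelled form

`Wp` with `ν = nu2 1` and the twist at one end is the unlabelled pairing: all full lines are glued, the
remaining state is the single arc between the two ends.
-/

set_option autoImplicit false

namespace Pool.Agent.NUT2

open Pool.Agent.NUF Pool.Agent
open LPat

section ofP

variable {Γ ι : Type*} [AddCommGroup Γ] [DecidableEq ι] {ν : Γ → ℂ}

/-- The value of a functional at one state. -/
def evP (P : EXL.Pat ι) : Fnl ι where
  toFun F := F P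
  map_add' _ _ := rfl
  map_smul' _ _ := rfl

/-- Words act on the states with labels `0` as on the unlabelled states. -/
theorem repL_ofP (h0 : ν 0 = 0) (w : Wd ℂ ι) (hw : On Set.univ w) (F : LPat Γ ι → ℂ)
    (P : EXL.Pat ι) :
    repL ν id w F (ofP Γ P) = rep0 ℂ id w (fun q => F (ofP Γ q)) P := by
  have hV : SupS (∅ : Set ι) (evP (EXL.Pat.empty : EXL.Pat ι)) := fun F hF => hF _ fun x _ => rfl
  have hV' : SupS (Set.univ : Set ι) (evP P) := fun F hF => hF _ fun x hx => absurd trivial hx
  have hd : Disjoint (∅ : Set ι) Set.univ := Set.empty_disjoint _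
  have key := pr_right (Γ := Γ) h0 hV hV' hd (w := w) (by rw [Set.compl_empty]; exact hw) F
  rw [pr_apply, pr_apply] at key
  have u : ∀ q : EXL.Pat ι, un EXL.Pat.empty q = q := fun q => by
    rw [un_comm (fun x => Or.inl rfl), un_empty]
  have e1 : (evP (EXL.Pat.empty : EXL.Pat ι)) (fun p => (evP P) fun q =>
      repL ν id w F (ofP Γ (un p q))) = repL ν id w F (ofP Γ P) := by
    show repL ν id w F (ofP Γ (un EXL.Pat.empty P)) = _
    rw [u]
  have e2 : (evP (EXL.Pat.empty : EXL.Pat ι)) (fun p => (evP P ∘ₗ rep0 ℂ id w) fun q =>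
      F (ofP Γ (un p q))) = rep0 ℂ id w (fun q => F (ofP Γ q)) P := by
    show rep0 ℂ id w (fun q => F (ofP Γ (un EXL.Pat.empty q))) P = _
    simp only [u]
  rw [e1, e2] at key
  exact key.symm

end ofP

section K

variable {ι : Type*} [DecidableEq ι] {V V' : Fnl ι} {m k : ι} {L : List (ι × ι)}

/-- The single arc. -/
def ark (m k : ι) : EXL.Pat ι := EXL.Pat.cup m k EXL.Pat.empty

theorem ark_apply (m k x : ι) : ark m k x = if x = m then k else if x = k then m else x := by
  unfold ark
  rw [EXL.cup_apply ⟨rfl, rfl⟩]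
  rfl

/-- Two sites are joined by the only arc. -/
theorem base_ofP (hmk : m ≠ k) (P : EXL.Pat ι) :
    Tw (Pi.single k (1 : ZMod 2)) (Gf (nu2 1) m k []) (ofP (ZMod 2) P) =
      (EXL.HS.ind (ark m k) : EXL.Pat ι → ℂ) P := by
  set R := LPat.gau (Pi.single k (1 : ZMod 2)) (ofP (ZMod 2) P) with hR
  have hf : ∀ x, R x = P x := fun x => rfl
  show Gf (nu2 1) m k [] R = _
  unfold Gf
  rw [oo_apply, gm_cons, gm_nil]
  have ne : P m = m → P ≠ ark m k := by
    rintro h rfl
    rw [ark_apply, if_pos rfl] at h
    exact hmk h.symm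
  have ne2 : P k = k → P ≠ ark m k := by
    rintro h rfl
    rw [ark_apply, if_neg hmk.symm, if_pos rfl] at h
    exact hmk h
  by_cases h1 : P m = m
  · rw [if_pos (show R m = m from h1), EXL.HS.ind_ne (ne h1)]
  rw [if_neg (show ¬ R m = m from h1)]
  by_cases h2 : P k = k
  · rw [glue_l hmk (show R m ≠ m from h1) (show R k = k from h2), EXL.HS.ind_ne (ne2 h2)]
  rw [glue_occ hmk (show R m ≠ m from h1) (show R k ≠ k from h2)]
  have inv : ∀ x, P (P x) = x := P.inv
  by_cases h3 : P m = k
  · have hk : P k = m := by rw [← h3, inv]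
    rw [lw_pos R (nu2 1) (show R m = k from h3), jo_pos R (show R m = k from h3)]
    have hs : R.s m = 1 := by
      rw [hR, gau_s, ofP_s]
      show (0 : ZMod 2) + (Pi.single k 1 : ι → ZMod 2) m - (Pi.single k 1 : ι → ZMod 2) (P m) = 1
      rw [h3, Pi.single_eq_same, Pi.single_eq_of_ne hmk]
      decide
    rw [hs]
    have hn : nu2 1 (1 : ZMod 2) = 1 := by
      unfold nu2
      rw [if_neg (by decide)]
    rw [hn, one_mul]
    have rf : ∀ x, LPat.rem m k R x = if x = m then m else if x = k then k else P x := by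
      intro x
      show (if R m = k then (if x = m then m else if x = k then k else R x) else R x) = _
      rw [if_pos (show R m = k from h3)]
      rfl
    have key : LPat.rem m k R = LPat.empty ↔ P = ark m k := by
      constructor
      · intro h
        ext x
        show P x = ark m k x
        rw [ark_apply]
        by_cases x1 : x = m
        · rw [if_pos x1, x1, h3]
        by_cases x2 : x = k
        · rw [if_neg x1, if_pos x2, x2, hk]
        rw [if_neg x1, if_neg x2]
        have h4 := rf x
        rw [h, if_neg x1, if_neg x2] at h4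
        exact h4.symm
      · intro h
        have h5 : ∀ x, LPat.rem m k R x = x := by
          intro x
          rw [rf]
          by_cases x1 : x = m
          · rw [if_pos x1, x1]
          by_cases x2 : x = k
          · rw [if_neg x1, if_pos x2, x2]
          rw [if_neg x1, if_neg x2, h, ark_apply, if_neg x1, if_neg x2]
        exact LPat.ext (funext h5) (funext fun x => (LPat.rem m k R).fix x (h5 x))
    unfold dl
    by_cases h : P = ark m k
    · rw [if_pos (key.2 h), h, EXL.HS.ind_self]
    · rw [if_neg (fun hh => h (key.1 hh)), EXL.HS.ind_ne h]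
  · have ne3 : P ≠ ark m k := by
      rintro rfl
      rw [ark_apply, if_pos rfl] at h3
      exact h3 rfl
    rw [EXL.HS.ind_ne ne3, jo_neg R (show R m ≠ k from h3)]
    have hc : LPat.cut m k R ≠ LPat.empty := by
      intro h
      have h4 : LPat.cut m k R (P m) = P k := by
        have hct : LPat.CtOK m k R := ⟨hmk, h1, h2, h3⟩
        show (if LPat.CtOK m k R then (if P m = m then m else if P m = k then k else
          if P m = R m then R k else if P m = R k then R m else R (P m)) else R (P m)) = P k
        rw [if_pos hct, if_neg h1, if_neg h3, if_pos (hf m).symm]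
        rfl
      rw [h] at h4
      have h5 : P m = P k := h4
      exact hmk (by rw [← inv m, h5, inv])
    unfold dl
    rw [if_neg hc, mul_zero]

/-- The glued lines. -/
noncomputable def uglue (L : List (ι × ι)) (F : EXL.Pat ι → ℂ) : EXL.Pat ι → ℂ :=
  (L.map fun t => uops.glue t.1 t.2).prod F

theorem uglue_nil (F : EXL.Pat ι → ℂ) : uglue [] F = F := rfl

theorem uglue_cons (t : ι × ι) (F : EXL.Pat ι → ℂ) :
    uglue (t :: L) F = uops.glue t.1 t.2 (uglue L F) := by
  unfold uglue
  rw [List.map_cons, List.prod_cons, Module.End.mul_apply]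

theorem Gf_ofP (hG : Gd ((m, k) :: L)) (P : EXL.Pat ι) :
    Tw (Pi.single k (1 : ZMod 2)) (Gf (nu2 1) m k L) (ofP (ZMod 2) P) =
      uglue L (EXL.HS.ind (ark m k)) P := by
  induction L generalizing P with
  | nil =>
    rw [uglue_nil]
    exact base_ofP (Gd_cons.1 hG).1 P
  | cons t L ih =>
    obtain ⟨e1, e2, e3⟩ := Gd_cons.1 hG
    obtain ⟨f1, f2, f3, f4⟩ := e2 t (by simp)
    simp only at f1 f2 f3 f4
    have hG' : Gd ((m, k) :: L) :=
      Gd_cons.2 ⟨e1, fun s hs => e2 s (by simp [hs]), (Gd_cons.1 e3).2.2⟩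
    have c1 : Commute (Tw (Pi.single k (1 : ZMod 2))) ((cops (nu2 1)).glue t.1 t.2) := by
      apply tglue
      rw [Pi.single_eq_of_ne (Ne.symm f3), Pi.single_eq_of_ne (Ne.symm f4)]
    rw [Gf_cons (nu2_neg 1) f1 f2 f3 f4, ← Module.End.mul_apply, c1.eq, Module.End.mul_apply,
      uglue_cons]
    have hw : On Set.univ (cw.glue t.1 t.2) := On.cglue (T := Set.univ) trivial trivial
    have h := repL_ofP (Γ := ZMod 2) (nu2_zero 1) (cw.glue t.1 t.2) hw
      (Tw (Pi.single k (1 : ZMod 2)) (Gf (nu2 1) m k L)) P
    refine h.trans ?_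
    have e : (fun q => Tw (Pi.single k (1 : ZMod 2)) (Gf (nu2 1) m k L) (ofP (ZMod 2) q)) =
        uglue L (EXL.HS.ind (ark m k)) := funext fun q => ih hG' q
    rw [e]
    rfl

/-- **The pairing in unlabelled form.** -/
theorem Wp_K (hG : Gd ((m, k) :: L)) : Wp (nu2 1) (Pi.single k 1) V V' m k L =
    V fun p => V' fun q => uglue L (EXL.HS.ind (ark m k)) (un p q) := by
  unfold Wp
  rw [pr_apply]
  congr 1
  funext p
  congr 1
  funext q
  exact Gf_ofP hG _

end K

end Pool.Agent.NUT2
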