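import Pool.Agent.NUTV.Vec
import Pool.Agent.NUT2.Tp3

/-!
# The two-point functions of the lattice: mirror image, permutations of the full lines
-/

set_option autoImplicit false

namespace Pool.Agent.NUT2

open Pool.Agent.NUF Pool.Agent Pool.Agent.NUU Pool.Agent.NUTV
open Pool.Agent.EXL.Fm (lam)
open Complex (I exp sin cos)

/-! ### Mirror image -/

section mir

variable {ι : Type*} [DecidableEq ι] [Finite ι] {ε : ℂ} {z : ι → ℂ} {K L : List (ι × ι)} {A B : List ι}
  {q g m k : ι}

/-- Exchange of the two discs. -/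
theorem WL_swap (hO : Ok K L A B q g m k) : WL ε z K L A B q g m k =
    WL (-ε) z (K.map Prod.swap) (L.map Prod.swap) B A g q m k := by
  have e1 : ∀ M : List (ι × ι), (M.map Prod.swap).map Prod.fst = M.map Prod.snd := fun M => by
    rw [List.map_map]; rfl
  have e2 : ∀ M : List (ι × ι), (M.map Prod.swap).map Prod.snd = M.map Prod.fst := fun M => by
    rw [List.map_map]; rfl
  unfold WL
  rw [Wp_swap nu2_neg1 nu2_z1 (UD_supS _ _) (UD_supS _ _) hO.disj, e1, e1, e2, e2, neg_neg,
    List.map_append]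

end mir

section can

variable {n m : ℕ}

theorem nodup_can {A B : List (Fin 6)} (hA : (0 :: 1 :: (A ++ B)).Nodup) :
    (sites (Ic n m) (Jc n m) (A.map sc) (B.map sc) (sc 0) (sc 1)).Nodup := by
  have e : sites (Ic n m) (Jc n m) (A.map sc) (B.map sc) (sc 0) (sc 1) =
      (((List.finRange n).map fun k => (Sum.inl (k, false) : Sc n m)) ++
        ((List.finRange m).map fun k => (Sum.inr (Sum.inl (k, false)) : Sc n m))) ++
      (((List.finRange n).map fun k => (Sum.inl (k, true) : Sc n m)) ++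
        ((List.finRange m).map fun k => (Sum.inr (Sum.inl (k, true)) : Sc n m))) ++
      (0 :: 1 :: (A ++ B)).map sc := by
    unfold sites Ic Jc
    simp [Function.comp_def]
  rw [e]
  have hsc : Function.Injective (sc : Fin 6 → Sc n m) := fun i j h =>
    Sum.inr_injective (Sum.inr_injective h)
  have f1 : ∀ b : Bool, ((List.finRange n).map fun k => (Sum.inl (k, b) : Sc n m)).Nodup :=
    fun b => (List.nodup_finRange n).map fun i j h => by simpa using h
  have f2 : ∀ b : Bool, ((List.finRange m).map fun k => (Sum.inr (Sum.inl (k, b)) : Sc n m)).Nodup :=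
    fun b => (List.nodup_finRange m).map fun i j h => by simpa using h
  simp only [List.nodup_append]
  refine ⟨⟨⟨f1 _, f2 _, ?_⟩, ⟨f1 _, f2 _, ?_⟩, ?_⟩, hA.map hsc, ?_⟩
  · intro x hx y hy
    obtain ⟨i, -, rfl⟩ := List.mem_map.1 hx
    obtain ⟨j, -, rfl⟩ := List.mem_map.1 hy
    simp
  · intro x hx y hy
    obtain ⟨i, -, rfl⟩ := List.mem_map.1 hx
    obtain ⟨j, -, rfl⟩ := List.mem_map.1 hy
    simp
  · intro x hx y hy
    rcases List.mem_append.1 hx with hx | hx <;> rcases List.mem_append.1 hy with hy | hy <;>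
      obtain ⟨i, -, rfl⟩ := List.mem_map.1 hx <;> obtain ⟨j, -, rfl⟩ := List.mem_map.1 hy <;> simp
  · intro x hx y hy
    obtain ⟨j, -, rfl⟩ := List.mem_map.1 hy
    rcases List.mem_append.1 hx with hx | hx <;> rcases List.mem_append.1 hx with hx | hx <;>
      obtain ⟨i, -, rfl⟩ := List.mem_map.1 hx <;> simp [sc]

theorem ok_can {A B : List (Fin 6)} (hA : (0 :: 1 :: (A ++ B)).Nodup) {a k : Fin 6}
    (ha : a ∈ A ++ B) (hk : k = 0 ∨ k = 1) :
    Ok (Ic n m) (Jc n m) (A.map sc) (B.map sc) (sc 0) (sc 1) (sc a) (sc k) := by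
  refine ⟨nodup_can hA, ?_, ?_⟩
  · rw [← List.map_append]
    exact List.mem_map_of_mem ha
  · rcases hk with rfl | rfl
    · exact Or.inl rfl
    · exact Or.inr rfl

/-- The mirror image of the sites. -/
def em (n m : ℕ) : Sc n m → Sc n m :=
  Sum.map (fun x => (x.1, !x.2)) (Sum.map (fun x => (x.1, !x.2)) (Equiv.swap 0 1))

theorem em_inj : Function.Injective (em n m) := by
  have h : ∀ k : ℕ, Function.Injective fun x : Fin k × Bool => (x.1, !x.2) := by
    rintro k ⟨i, b⟩ ⟨j, c⟩ h
    simpa using h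
  exact Function.Injective.sumMap (h n) (Function.Injective.sumMap (h m) (Equiv.injective _))

/-- **Mirror image on the canonical sites.** -/
theorem WC_swap {ε : ℂ} (hε : ε = 1 ∨ ε = -1) (K L : List ℂ) (v : Fin 6 → ℂ) {A B : List (Fin 6)}
    (hA : (0 :: 1 :: (A ++ B)).Nodup) {a k : Fin 6} (ha : a ∈ A ++ B) (hk : k = 0 ∨ k = 1) :
    WC ε K L v A B a k = WC (-ε) K L (v ∘ Equiv.swap 0 1) B A a (Equiv.swap 0 1 k) := by
  have hε' : -ε = 1 ∨ -ε = -1 := by
    rcases hε with rfl | rfl
    · exact Or.inr rfl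
    · exact Or.inl (neg_neg 1)
  have hA' : (0 :: 1 :: (B ++ A)).Nodup :=
    ((List.perm_append_comm.cons _).cons _).nodup_iff.1 hA
  have ha' : a ∈ B ++ A := by
    rw [List.mem_append] at ha ⊢
    exact ha.symm
  have hk' : Equiv.swap 0 1 k = 0 ∨ Equiv.swap 0 1 k = 1 := by
    rcases hk with rfl | rfl
    · right; rfl
    · left; rfl
  have fx : ∀ c ∈ A ++ B, Equiv.swap (0 : Fin 6) 1 c = c := by
    intro c hc
    have h0 : (0 : Fin 6) ∉ 1 :: (A ++ B) := (List.nodup_cons.1 hA).1
    have h1 : (1 : Fin 6) ∉ A ++ B := (List.nodup_cons.1 (List.nodup_cons.1 hA).2).1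
    exact Equiv.swap_apply_of_ne_of_ne (fun e => h0 (by rw [← e]; exact List.mem_cons_of_mem _ hc))
      fun e => h1 (by rw [← e]; exact hc)
  have h1 := WL_map (z := zc K L (v ∘ Equiv.swap 0 1)) (z' := zc K L v) em_inj hε'
    (ok_can (n := K.length) (m := L.length) hA' ha' hk') (fun x _ => by
      rcases x with x | x | x
      · rfl
      · rfl
      · rfl)
  have k1 : (Ic K.length L.length).map (Prod.map (em _ _) (em _ _)) =
      (Ic K.length L.length).map Prod.swap := by
    unfold Ic
    rw [List.map_map, List.map_map]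
    rfl
  have k2 : (Jc K.length L.length).map (Prod.map (em _ _) (em _ _)) =
      (Jc K.length L.length).map Prod.swap := by
    unfold Jc
    rw [List.map_map, List.map_map]
    rfl
  have k3 : ∀ C : List (Fin 6), (∀ c ∈ C, c ∈ A ++ B) →
      (C.map (sc (n := K.length) (m := L.length))).map (em _ _) = C.map sc := by
    intro C hC
    rw [List.map_map]
    refine List.map_congr_left fun c hc => ?_
    show Sum.inr (Sum.inr (Equiv.swap 0 1 c)) = Sum.inr (Sum.inr c)
    rw [fx c (hC c hc)]
  have k4 : ∀ c : Fin 6, em K.length L.length (sc c) = sc (Equiv.swap 0 1 c) := fun c => rfl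
  rw [k1, k2, k3 B (fun c hc => List.mem_append_right _ hc),
    k3 A (fun c hc => List.mem_append_left _ hc), k4, k4, k4, k4, fx a ha, Equiv.swap_apply_self,
    Equiv.swap_apply_left, Equiv.swap_apply_right] at h1
  unfold WC
  rw [WL_swap (ok_can hA ha hk), h1]

/-- Other names of the sites `2`, ..., `5`. -/
theorem WC_perm6 {ε : ℂ} (hε : ε = 1 ∨ ε = -1) (K L : List ℂ) (v : Fin 6 → ℂ) {A B : List (Fin 6)}
    (hA : (0 :: 1 :: (A ++ B)).Nodup) {a k : Fin 6} (ha : a ∈ A ++ B) (hk : k = 0 ∨ k = 1)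
    (σ : Equiv.Perm (Fin 6)) (h0 : σ 0 = 0) (h1 : σ 1 = 1) :
    WC ε K L v (A.map σ) (B.map σ) (σ a) k = WC ε K L (v ∘ σ) A B a k := by
  have hk' : σ k = k := by
    rcases hk with rfl | rfl
    · exact h0
    · exact h1
  set e : Sc K.length L.length → Sc K.length L.length := Sum.map id (Sum.map id σ) with he
  have hinj : Function.Injective e :=
    Function.Injective.sumMap Function.injective_id
      (Function.Injective.sumMap Function.injective_id σ.injective)
  have h2 := WL_map (z := zc K L (v ∘ σ)) (z' := zc K L v) hinj hε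
    (ok_can (n := K.length) (m := L.length) hA ha hk) (fun x _ => by
      rcases x with x | x | x
      · rfl
      · rfl
      · rfl)
  have k1 : (Ic K.length L.length).map (Prod.map e e) = Ic K.length L.length := by
    unfold Ic
    rw [List.map_map]
    rfl
  have k2 : (Jc K.length L.length).map (Prod.map e e) = Jc K.length L.length := by
    unfold Jc
    rw [List.map_map]
    rfl
  have k3 : ∀ C : List (Fin 6), (C.map (sc (n := K.length) (m := L.length))).map e =
      (C.map σ).map sc := by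
    intro C
    rw [List.map_map, List.map_map]
    rfl
  have k4 : ∀ c : Fin 6, e (sc c) = sc (σ c) := fun c => rfl
  rw [k1, k2, k3, k3, k4, k4, k4, k4, h0, h1, hk'] at h2
  unfold WC
  exact h2

/-- **The mirror family.** -/
theorem fam_mir {ε : ℂ} (hε : ε = 1 ∨ ε = -1) (q g : ℂ) :
    (fam ε 0 q g).mir = fam (-ε) 1 g q := by
  have hε' : -ε = 1 ∨ -ε = -1 := by
    rcases hε with rfl | rfl
    · exact Or.inr rfl
    · exact Or.inl (neg_neg 1)
  have v1 : ∀ a b : ℂ, (![q, g, a, b, 1, 1] ∘ Equiv.swap 0 1 : Fin 6 → ℂ) = ![g, q, a, b, 1, 1] := by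
    intro a b
    funext j
    fin_cases j <;> rfl
  have v2 : ∀ a b : ℂ, (![g, q, a, b, 1, 1] ∘ Equiv.swap 2 3 : Fin 6 → ℂ) = ![g, q, b, a, 1, 1] := by
    intro a b
    funext j
    fin_cases j <;> rfl
  unfold fam NUTP.Fam.mir
  simp only [NUTP.Fam.mk.injEq]
  refine ⟨?_, ?_, ?_, ?_, ?_, ?_, ?_, ?_⟩
  all_goals funext K L
  · funext a
    rw [WC_swap hε K L _ (by decide) (by decide) (Or.inl rfl), v1]
    rfl
  · funext a
    rw [WC_swap hε K L _ (by decide) (by decide) (Or.inl rfl), v1]
    rfl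
  · funext a b
    rw [WC_swap hε K L _ (by decide) (by decide) (Or.inl rfl), v1]
    rfl
  · funext a b
    rw [WC_swap hε K L _ (by decide) (by decide) (Or.inl rfl), v1]
    rfl
  · funext a b
    rw [WC_swap hε K L _ (by decide) (by decide) (Or.inl rfl), v1]
    rfl
  · funext a b
    rw [WC_swap hε K L _ (by decide) (by decide) (Or.inl rfl), v1]
    rfl
  · funext a b
    have h := WC_perm6 hε' K L ![g, q, b, a, 1, 1] (A := [2]) (B := [3]) (a := 2) (k := 1)
      (by decide) (by decide) (Or.inr rfl) (Equiv.swap 2 3) rfl rfl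
    rw [v2] at h
    rw [WC_swap hε K L _ (by decide) (by decide) (Or.inl rfl), v1]
    exact h
  · funext a b
    have h := WC_perm6 hε' K L ![g, q, b, a, 1, 1] (A := [2]) (B := [3]) (a := 3) (k := 1)
      (by decide) (by decide) (Or.inr rfl) (Equiv.swap 2 3) rfl rfl
    rw [v2] at h
    rw [WC_swap hε K L _ (by decide) (by decide) (Or.inl rfl), v1]
    exact h

end can

end Pool.Agent.NUT2
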