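import Pool.Agent.NUT2.Tp4

/-!
# The two-point functions of the lattice: permutations of the full lines, generic lines
-/

set_option autoImplicit false

namespace Pool.Agent.NUT2

open Pool.Agent.NUF Pool.Agent Pool.Agent.NUU Pool.Agent.NUTV
open Pool.Agent.EXL.Fm (lam)
open Complex (I exp sin cos)

/-! ### Permutations -/

section perm

variable {ι : Type*} [DecidableEq ι] [Finite ι] {ε : ℂ} {z : ι → ℂ} {K L : List (ι × ι)} {A B : List ι}
  {q g m k : ι}

omit [DecidableEq ι] [Finite ι] in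
theorem Gk.eps (hε : ε = 1 ∨ ε = -1) {X : List ι} (h : Gk z X) : Gk (fun i => ε * z i) X := by
  intro i hi j hj hij n
  rcases hε with rfl | rfl
  · simp only [one_mul]
    exact h i hi j hj hij n
  · have h1 := h i hi j hj hij (-n)
    rw [show -1 * z i - -1 * z j + n * lam = -(z i - z j + ((-n : ℤ) : ℂ) * lam) by
      push_cast; ring, Complex.sin_neg]
    exact neg_ne_zero.2 h1

theorem okR_of {w : ℂ} (h : ∀ n : ℤ, sin (w + n * lam) ≠ 0) (n : ℤ) :
    EXL.okR (w + n * lam) := by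
  rw [EXL.Fm.okR_iff, EXL.Fm.Dn]
  refine mul_ne_zero ?_ ?_
  · have := h (n + 2)
    rwa [show 2 * lam + (w + n * lam) = w + ((n + 2 : ℤ) : ℂ) * lam by push_cast; ring]
  · have := h (n + 3)
    rwa [show 3 * lam + (w + n * lam) = w + ((n + 3 : ℤ) : ℂ) * lam by push_cast; ring]

theorem okR_of' {w : ℂ} (h : ∀ n : ℤ, sin (w + n * lam) ≠ 0) (n : ℤ) :
    EXL.okR (-w + n * lam) := by
  refine okR_of (fun k => ?_) n
  have := h (-k)
  rw [show -w + k * lam = -(w + ((-k : ℤ) : ℂ) * lam) by push_cast; ring, Complex.sin_neg]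
  exact neg_ne_zero.2 this

omit [Finite ι] in
theorem hh3 : (cops (Γ := ZMod 2) (ι := ι) (nu2 1)).h + (cops (Γ := ZMod 2) (ι := ι) (nu2 1)).h =
    3 * lam := by
  show (3 * Real.pi / 16 : ℂ) + 3 * Real.pi / 16 = 3 * lam
  unfold EXL.Fm.lam
  ring

/-- **Exchange of two neighbouring full lines on both discs.** -/
theorem Wp_exch (hε : ε = 1 ∨ ε = -1) {X1 X2 Y1 Y2 : List ι} {s t : ι × ι} {P P' : List (ι × ι)}
    (hP : P.Perm (s :: t :: P')) (hG : Gd ((m, k) :: P)) (hk : k ≠ s.1 ∧ k ≠ s.2 ∧ k ≠ t.1 ∧ k ≠ t.2)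
    (hn1 : (X1 ++ s.1 :: t.1 :: X2).Nodup) (hn2 : (Y1 ++ s.2 :: t.2 :: Y2).Nodup)
    (hd : Disjoint {x | x ∈ X1 ++ s.1 :: t.1 :: X2} {x | x ∈ Y1 ++ s.2 :: t.2 :: Y2})
    (hs : z s.2 = z s.1) (ht : z t.2 = z t.1) (h1 : Gk z (X1 ++ s.1 :: t.1 :: X2))
    (h2 : Gk z (Y1 ++ s.2 :: t.2 :: Y2)) :
    Wp (nu2 1) (Pi.single k 1) (UD (fun i => -ε * z i) (X1 ++ t.1 :: s.1 :: X2))
      (UD (fun i => ε * z i) (Y1 ++ t.2 :: s.2 :: Y2)) m k P =
    Wp (nu2 1) (Pi.single k 1) (UD (fun i => -ε * z i) (X1 ++ s.1 :: t.1 :: X2))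
      (UD (fun i => ε * z i) (Y1 ++ s.2 :: t.2 :: Y2)) m k P := by
  have hε' : -ε = 1 ∨ -ε = -1 := by
    rcases hε with rfl | rfl
    · exact Or.inr rfl
    · exact Or.inl (neg_neg 1)
  have d1 : ∀ x ∈ Y1 ++ s.2 :: t.2 :: Y2, x ∉ X1 ++ s.1 :: t.1 :: X2 := fun x hx hx' =>
    Set.disjoint_left.1 hd hx' hx
  have d2 : ∀ x ∈ X1 ++ s.1 :: t.1 :: X2, x ∉ Y1 ++ s.2 :: t.2 :: Y2 := fun x hx hx' =>
    Set.disjoint_left.1 hd hx hx'
  have nst1 : s.1 ≠ t.1 := by
    intro e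
    have := (List.nodup_append.1 hn1).2.1
    rw [List.nodup_cons] at this
    exact this.1 (by simp [e])
  have nst2 : s.2 ≠ t.2 := by
    intro e
    have := (List.nodup_append.1 hn2).2.1
    rw [List.nodup_cons] at this
    exact this.1 (by simp [e])
  have e1 := UD_exch (z := fun i => -ε * z i) hn1 (d1 s.2 (by simp)) (d1 t.2 (by simp)) nst2
    (Gk.eps hε' h1).gz
  have e2 := UD_exch (z := fun i => ε * z i) hn2 (d2 s.1 (by simp)) (d2 t.1 (by simp)) nst1
    (Gk.eps hε h2).gz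
  have hw : ∀ n : ℤ, sin ((-ε * z s.1 - -ε * z t.1) + n * lam) ≠ 0 := fun n =>
    Gk.eps hε' h1 s.1 (by simp) t.1 (by simp) nst1 n
  have w2 : ε * z s.2 - ε * z t.2 = -(-ε * z s.1 - -ε * z t.1) := by rw [hs, ht]; ring
  have hG' : Gd ((m, k) :: s :: t :: P') := hG.perm (hP.cons _)
  rw [← e1, ← e2, w2, Wp_perm nu2_neg1 hG hP, Wp_perm nu2_neg1 hG hP]
  have a1 := okR_of hw 0
  have a2 := okR_of' hw 0
  have a3 := okR_of' hw 3
  have a4 := okR_of hw (-3)
  rw [Int.cast_zero, zero_mul, add_zero] at a1 a2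
  refine lines_R nu2_neg1 nu2_z1 (UD_supS _ _) (UD_supS _ _) hd hG' (by simp) (by simp) (by simp)
    (by simp) ?_ ?_ a1 a2 ?_ ?_
  · rw [Pi.single_apply, Pi.single_apply, if_neg (Ne.symm hk.1), if_neg (Ne.symm hk.2.2.1)]
  · rw [Pi.single_apply, Pi.single_apply, if_neg (Ne.symm hk.2.1), if_neg (Ne.symm hk.2.2.2)]
  · rw [hh3, sub_eq_neg_add]
    exact_mod_cast a3
  · rw [hh3]
    have e : (-ε * z s.1 - -ε * z t.1) - 3 * lam =
        (-ε * z s.1 - -ε * z t.1) + ((-3 : ℤ) : ℂ) * lam := by push_cast; ring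
    rw [e]
    exact a4

omit [DecidableEq ι] [Finite ι] in
theorem Ok.perm {K' L' : List (ι × ι)} (h : Ok K L A B q g m k) (hp : (K ++ L).Perm (K' ++ L')) :
    Ok K' L' A B q g m k := by
  refine ⟨?_, h.m_mem, h.k_mem⟩
  have h1 := h.nd
  unfold sites at h1 ⊢
  refine (List.Perm.nodup_iff ?_).1 h1
  exact ((hp.map Prod.fst).append (hp.map Prod.snd)).append_right _

omit [DecidableEq ι] [Finite ι] in
theorem Ok.k_ne (h : Ok K L A B q g m k) {t : ι × ι} (ht : t ∈ K ++ L) : k ≠ t.1 ∧ k ≠ t.2 := by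
  have h1 := (Gd_cons.1 h.gd).2.1 t ht
  exact ⟨h1.2.2.1, h1.2.2.2⟩

/-- Exchange of two neighbouring full lines of the group `L`. -/
theorem WL_exchL (hε : ε = 1 ∨ ε = -1) {L1 L2 : List (ι × ι)} {s t : ι × ι}
    (hO : Ok K (L1 ++ s :: t :: L2) A B q g m k) (hs : z s.2 = z s.1) (ht : z t.2 = z t.1)
    (h1 : Gk z (A ++ ((L1 ++ s :: t :: L2).map Prod.fst ++ q :: K.map Prod.fst)))
    (h2 : Gk z (B ++ ((L1 ++ s :: t :: L2).map Prod.snd ++ g :: K.map Prod.snd))) :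
    WL ε z K (L1 ++ t :: s :: L2) A B q g m k = WL ε z K (L1 ++ s :: t :: L2) A B q g m k := by
  have hp : (K ++ (L1 ++ t :: s :: L2)).Perm (K ++ (L1 ++ s :: t :: L2)) :=
    List.Perm.append_left _ (List.Perm.append_left _ (List.Perm.swap _ _ _))
  have hP : (K ++ (L1 ++ s :: t :: L2)).Perm (s :: t :: (K ++ (L1 ++ L2))) := by
    have e1 : (L1 ++ s :: t :: L2).Perm (s :: t :: (L1 ++ L2)) :=
      List.perm_middle.trans (List.perm_middle.cons _)
    have e2 : (K ++ s :: t :: (L1 ++ L2)).Perm (s :: t :: (K ++ (L1 ++ L2))) :=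
      List.perm_middle.trans (List.perm_middle.cons _)
    exact (List.Perm.append_left _ e1).trans e2
  have hks := hO.k_ne (t := s) (by simp)
  have hkt := hO.k_ne (t := t) (by simp)
  have l1 : ∀ s t : ι × ι, A ++ ((L1 ++ s :: t :: L2).map Prod.fst ++ q :: K.map Prod.fst) =
      (A ++ L1.map Prod.fst) ++ s.1 :: t.1 :: (L2.map Prod.fst ++ q :: K.map Prod.fst) := by
    intro s t
    simp
  have l2 : ∀ s t : ι × ι, B ++ ((L1 ++ s :: t :: L2).map Prod.snd ++ g :: K.map Prod.snd) =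
      (B ++ L1.map Prod.snd) ++ s.2 :: t.2 :: (L2.map Prod.snd ++ g :: K.map Prod.snd) := by
    intro s t
    simp
  have n1 := hO.nd1
  have n2 := hO.nd2
  have hd := hO.disj
  unfold S1 S2 at hd
  have hO' : Ok K (L1 ++ t :: s :: L2) A B q g m k := hO.perm hp.symm
  unfold WL
  rw [Wp_perm nu2_neg1 hO'.gd hp, l1, l2, l1, l2]
  rw [l1] at n1 h1
  rw [l2] at n2 h2
  rw [l1, l2] at hd
  exact Wp_exch hε hP hO.gd ⟨hks.1, hks.2, hkt.1, hkt.2⟩ n1 n2 hd hs ht h1 h2

/-- Exchange of two neighbouring full lines of the group `K`. -/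
theorem WL_exchK (hε : ε = 1 ∨ ε = -1) {L1 L2 : List (ι × ι)} {s t : ι × ι}
    (hO : Ok (L1 ++ s :: t :: L2) L A B q g m k) (hs : z s.2 = z s.1) (ht : z t.2 = z t.1)
    (h1 : Gk z (A ++ (L.map Prod.fst ++ q :: (L1 ++ s :: t :: L2).map Prod.fst)))
    (h2 : Gk z (B ++ (L.map Prod.snd ++ g :: (L1 ++ s :: t :: L2).map Prod.snd))) :
    WL ε z (L1 ++ t :: s :: L2) L A B q g m k = WL ε z (L1 ++ s :: t :: L2) L A B q g m k := by
  have hp : ((L1 ++ t :: s :: L2) ++ L).Perm ((L1 ++ s :: t :: L2) ++ L) :=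
    List.Perm.append_right _ (List.Perm.append_left _ (List.Perm.swap _ _ _))
  have hP : ((L1 ++ s :: t :: L2) ++ L).Perm (s :: t :: (L1 ++ L2 ++ L)) := by
    have e1 : (L1 ++ s :: t :: L2).Perm (s :: t :: (L1 ++ L2)) :=
      List.perm_middle.trans (List.perm_middle.cons _)
    exact List.Perm.append_right L e1
  have hks := hO.k_ne (t := s) (by simp)
  have hkt := hO.k_ne (t := t) (by simp)
  have l1 : ∀ s t : ι × ι, A ++ (L.map Prod.fst ++ q :: (L1 ++ s :: t :: L2).map Prod.fst) =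
      (A ++ (L.map Prod.fst ++ q :: L1.map Prod.fst)) ++ s.1 :: t.1 :: L2.map Prod.fst := by
    intro s t
    simp
  have l2 : ∀ s t : ι × ι, B ++ (L.map Prod.snd ++ g :: (L1 ++ s :: t :: L2).map Prod.snd) =
      (B ++ (L.map Prod.snd ++ g :: L1.map Prod.snd)) ++ s.2 :: t.2 :: L2.map Prod.snd := by
    intro s t
    simp
  have n1 := hO.nd1
  have n2 := hO.nd2
  have hd := hO.disj
  unfold S1 S2 at hd
  have hO' : Ok (L1 ++ t :: s :: L2) L A B q g m k := hO.perm hp.symm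
  unfold WL
  rw [Wp_perm nu2_neg1 hO'.gd hp, l1, l2, l1, l2]
  rw [l1] at n1 h1
  rw [l2] at n2 h2
  rw [l1, l2] at hd
  exact Wp_exch hε hP hO.gd ⟨hks.1, hks.2, hkt.1, hkt.2⟩ n1 n2 hd hs ht h1 h2

/-- **Permutation of the full lines of the group `L`.** -/
theorem WL_permL (hε : ε = 1 ∨ ε = -1) {L' : List (ι × ι)} (hp : L.Perm L')
    (hO : Ok K L A B q g m k) (hz : ∀ t ∈ K ++ L, z t.2 = z t.1)
    (h1 : Gk z (A ++ (L.map Prod.fst ++ q :: K.map Prod.fst)))
    (h2 : Gk z (B ++ (L.map Prod.snd ++ g :: K.map Prod.snd))) :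
    WL ε z K L A B q g m k = WL ε z K L' A B q g m k := by
  have key : ∀ {X Y : List (ι × ι)}, X.Perm Y → ∀ L1 : List (ι × ι), Ok K (L1 ++ X) A B q g m k →
      (∀ t ∈ K ++ (L1 ++ X), z t.2 = z t.1) →
      Gk z (A ++ ((L1 ++ X).map Prod.fst ++ q :: K.map Prod.fst)) →
      Gk z (B ++ ((L1 ++ X).map Prod.snd ++ g :: K.map Prod.snd)) →
      WL ε z K (L1 ++ X) A B q g m k = WL ε z K (L1 ++ Y) A B q g m k := by
    intro X Y hp
    induction hp with
    | nil => intro L1 _ _ _ _; rfl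
    | cons x _ ih =>
      intro L1 a1 a2 a3 a4
      have e : ∀ M : List (ι × ι), L1 ++ x :: M = (L1 ++ [x]) ++ M := fun M => by simp
      rw [e] at a1 a2 a3 a4
      have h := ih (L1 ++ [x]) a1 a2 a3 a4
      rw [← e, ← e] at h
      exact h
    | swap s t M =>
      intro L1 a1 a2 a3 a4
      exact (WL_exchL hε a1 (a2 t (by simp)) (a2 s (by simp)) a3 a4).symm
    | trans h1 h2 ih1 ih2 =>
      intro L1 a1 a2 a3 a4
      have hmem : ∀ t : ι × ι, t ∈ L1 ++ _ ↔ t ∈ L1 ++ _ := fun t =>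
        (List.Perm.append_left L1 h1).mem_iff (a := t)
      rw [ih1 L1 a1 a2 a3 a4]
      refine ih2 L1 (a1.perm (List.Perm.append_left _ (List.Perm.append_left _ h1))) ?_ ?_ ?_
      · intro t ht
        refine a2 t ?_
        rw [List.mem_append, hmem t, ← List.mem_append]
        exact ht
      · refine a3.sub fun x hx => ?_
        simp only [List.mem_append, List.mem_map, List.mem_cons] at hx ⊢
        rcases hx with hx | ⟨t, ht | ht, rfl⟩ | hx
        · exact Or.inl hx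
        · exact Or.inr (Or.inl ⟨t, Or.inl ht, rfl⟩)
        · exact Or.inr (Or.inl ⟨t, Or.inr (h1.mem_iff.2 ht), rfl⟩)
        · exact Or.inr (Or.inr hx)
      · refine a4.sub fun x hx => ?_
        simp only [List.mem_append, List.mem_map, List.mem_cons] at hx ⊢
        rcases hx with hx | ⟨t, ht | ht, rfl⟩ | hx
        · exact Or.inl hx
        · exact Or.inr (Or.inl ⟨t, Or.inl ht, rfl⟩)
        · exact Or.inr (Or.inl ⟨t, Or.inr (h1.mem_iff.2 ht), rfl⟩)
        · exact Or.inr (Or.inr hx)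
  exact key hp [] hO hz h1 h2

/-- **Permutation of the full lines of the group `K`.** -/
theorem WL_permK (hε : ε = 1 ∨ ε = -1) {K' : List (ι × ι)} (hp : K.Perm K')
    (hO : Ok K L A B q g m k) (hz : ∀ t ∈ K ++ L, z t.2 = z t.1)
    (h1 : Gk z (A ++ (L.map Prod.fst ++ q :: K.map Prod.fst)))
    (h2 : Gk z (B ++ (L.map Prod.snd ++ g :: K.map Prod.snd))) :
    WL ε z K L A B q g m k = WL ε z K' L A B q g m k := by
  have key : ∀ {X Y : List (ι × ι)}, X.Perm Y → ∀ L1 : List (ι × ι), Ok (L1 ++ X) L A B q g m k →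
      (∀ t ∈ (L1 ++ X) ++ L, z t.2 = z t.1) →
      Gk z (A ++ (L.map Prod.fst ++ q :: (L1 ++ X).map Prod.fst)) →
      Gk z (B ++ (L.map Prod.snd ++ g :: (L1 ++ X).map Prod.snd)) →
      WL ε z (L1 ++ X) L A B q g m k = WL ε z (L1 ++ Y) L A B q g m k := by
    intro X Y hp
    induction hp with
    | nil => intro L1 _ _ _ _; rfl
    | cons x _ ih =>
      intro L1 a1 a2 a3 a4
      have e : ∀ M : List (ι × ι), L1 ++ x :: M = (L1 ++ [x]) ++ M := fun M => by simp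
      rw [e] at a1 a2 a3 a4
      have h := ih (L1 ++ [x]) a1 a2 a3 a4
      rw [← e, ← e] at h
      exact h
    | swap s t M =>
      intro L1 a1 a2 a3 a4
      exact (WL_exchK hε a1 (a2 t (by simp)) (a2 s (by simp)) a3 a4).symm
    | trans h1 h2 ih1 ih2 =>
      intro L1 a1 a2 a3 a4
      rw [ih1 L1 a1 a2 a3 a4]
      refine ih2 L1 (a1.perm (List.Perm.append_right _ (List.Perm.append_left _ h1))) ?_ ?_ ?_
      · intro t ht
        refine a2 t ?_
        simp only [List.mem_append] at ht ⊢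
        rcases ht with (ht | ht) | ht
        · exact Or.inl (Or.inl ht)
        · exact Or.inl (Or.inr (h1.mem_iff.2 ht))
        · exact Or.inr ht
      · refine a3.sub fun x hx => ?_
        simp only [List.mem_append, List.mem_map, List.mem_cons] at hx ⊢
        rcases hx with hx | hx | rfl | ⟨t, ht | ht, rfl⟩
        · exact Or.inl hx
        · exact Or.inr (Or.inl hx)
        · exact Or.inr (Or.inr (Or.inl rfl))
        · exact Or.inr (Or.inr (Or.inr ⟨t, Or.inl ht, rfl⟩))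
        · exact Or.inr (Or.inr (Or.inr ⟨t, Or.inr (h1.mem_iff.2 ht), rfl⟩))
      · refine a4.sub fun x hx => ?_
        simp only [List.mem_append, List.mem_map, List.mem_cons] at hx ⊢
        rcases hx with hx | hx | rfl | ⟨t, ht | ht, rfl⟩
        · exact Or.inl hx
        · exact Or.inr (Or.inl hx)
        · exact Or.inr (Or.inr (Or.inl rfl))
        · exact Or.inr (Or.inr (Or.inr ⟨t, Or.inl ht, rfl⟩))
        · exact Or.inr (Or.inr (Or.inr ⟨t, Or.inr (h1.mem_iff.2 ht), rfl⟩))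
  exact key hp [] hO hz h1 h2

end perm

end Pool.Agent.NUT2
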